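import Pool.Agent.Lib.DilW.ARow

/-!
# DilW.AOrt: the vectors orthogonal to the rows `qA` and to `g`

PROOF. `qA k ⬝ᵥ φ = ww * φ k - vv * φ (k+1) = 0` for `k < s` (only two entries of `qA k` are not 0). By induction
`vv^β * φ β = ww^β * φ 0` for `β ≤ s`. Hence `vv^s * φ β = ww^β vv^(s-β) * φ 0`. Multiply `∑ g β * φ β = 0` by `vv^s`:
`φ 0 * ∑ g β (ww^β vv^(s-β)) = 0`, so `φ 0 = 0` by `hG`, so `vv^s * φ β = 0` and `φ β = 0` (`vv_ne_zero`).
-/

set_option autoImplicit false

open Finset MvPolynomial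

namespace DilW

variable {p : ℕ} [Fact p.Prime]

private theorem aOrt_step {s : ℕ} (φ : Fin (s + 1) → S p) (k : Fin s)
    (hq : qA s k ⬝ᵥ φ = 0) : vv * φ k.succ = ww * φ k.castSucc := by
  have h1 : ∀ β : Fin (s + 1), (qA s k β : S p) * φ β =
      (if β = k.castSucc then ww * φ β else 0) + (if β = k.succ then -vv * φ β else 0) := by
    intro β
    unfold qA
    by_cases h : (β : ℕ) = k
    · have e1 : β = k.castSucc := Fin.ext (by simpa using h)
      have e2 : β ≠ k.succ := by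
        intro e
        have := congrArg Fin.val e
        simp at this
        omega
      rw [if_pos h, if_pos e1, if_neg e2, add_zero]
    · have e1 : β ≠ k.castSucc := by
        intro e
        exact h (by simpa using congrArg Fin.val e)
      by_cases h' : (β : ℕ) = k + 1
      · have e2 : β = k.succ := Fin.ext (by simpa using h')
        rw [if_neg h, if_pos h', if_neg e1, if_pos e2, zero_add]
      · have e2 : β ≠ k.succ := by
          intro e
          exact h' (by simpa using congrArg Fin.val e)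
        rw [if_neg h, if_neg h', if_neg e1, if_neg e2, zero_mul, add_zero]
  have h2 : ww * φ k.castSucc + -vv * φ k.succ = 0 := by
    rw [← hq, dotProduct, Finset.sum_congr rfl fun β _ => h1 β, Finset.sum_add_distrib,
      Finset.sum_ite_eq', Finset.sum_ite_eq']
    simp
  have h3 : ww * φ k.castSucc - vv * φ k.succ = 0 := by
    rw [sub_eq_add_neg, ← neg_mul]; exact h2
  exact (sub_eq_zero.mp h3).symm

private theorem aOrt_pow {s : ℕ} (φ : Fin (s + 1) → S p)
    (hq : ∀ k : Fin s, qA s k ⬝ᵥ φ = 0) (b : ℕ) (hb : b < s + 1) :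
    vv ^ b * φ ⟨b, hb⟩ = ww ^ b * φ 0 := by
  induction b with
  | zero => simp
  | succ b ih =>
    have hbs : b < s := by omega
    have h1 := aOrt_step φ ⟨b, hbs⟩ (hq ⟨b, hbs⟩)
    have h2 := ih (by omega)
    have e1 : (⟨b, hbs⟩ : Fin s).succ = ⟨b + 1, hb⟩ := rfl
    have e2 : (⟨b, hbs⟩ : Fin s).castSucc = ⟨b, by omega⟩ := rfl
    rw [e1, e2] at h1
    calc vv ^ (b + 1) * φ ⟨b + 1, hb⟩ = vv ^ b * (vv * φ ⟨b + 1, hb⟩) := by ring
      _ = ww * (vv ^ b * φ ⟨b, by omega⟩) := by rw [h1]; ring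
      _ = ww ^ (b + 1) * φ 0 := by rw [h2]; ring

theorem aOrt {s : ℕ} (g : ℕ → S p)
    (hG : ∑ β ∈ range (s + 1), g β * (ww ^ β * vv ^ (s - β)) ≠ 0) (φ : Fin (s + 1) → S p)
    (h0 : shf s g 0 ⬝ᵥ φ = 0) (hq : ∀ k : Fin s, qA s k ⬝ᵥ φ = 0) : φ = 0 := by
  have hs : ∀ β : Fin (s + 1), vv ^ s * φ β = ww ^ (β : ℕ) * vv ^ (s - β) * φ 0 := by
    intro β
    have h1 := aOrt_pow φ hq β β.2
    have e : s = (s - (β : ℕ)) + β := by have := β.2; omega
    calc vv ^ s * φ β = vv ^ (s - (β : ℕ)) * (vv ^ (β : ℕ) * φ β) := by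
          conv_lhs => rw [e]
          rw [pow_add]
          ring
      _ = ww ^ (β : ℕ) * vv ^ (s - β) * φ 0 := by rw [h1]; ring
  have h2 : (∑ β ∈ range (s + 1), g β * (ww ^ β * vv ^ (s - β))) * φ 0 = 0 := by
    rw [Finset.sum_range, Finset.sum_mul]
    have h3 : vv ^ s * (shf s g 0 ⬝ᵥ φ) = 0 := by rw [h0, mul_zero]
    rw [dotProduct, Finset.mul_sum] at h3
    rw [← h3]
    apply Finset.sum_congr rfl
    intro β _
    rw [shf_zero]
    calc g β * (ww ^ (β : ℕ) * vv ^ (s - (β : ℕ))) * φ 0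
        = g β * (ww ^ (β : ℕ) * vv ^ (s - (β : ℕ)) * φ 0) := by ring
      _ = vv ^ s * (g β * φ β) := by rw [← hs]; ring
  have h4 : φ 0 = 0 := (mul_eq_zero.mp h2).resolve_left hG
  funext β
  have h5 := hs β
  rw [h4, mul_zero] at h5
  exact (mul_eq_zero.mp h5).resolve_left (pow_ne_zero _ vv_ne_zero)

end DilW
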