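import Pool.Agent.Lib.DilW.Defs

/-!
# DilW.DegB: degree bounds

* `DB_iff`: `totalDegree F` is the supremum of `m.sum fun _ e => e = m 0 + m 1` over the support
  (`Finsupp.sum_fintype`, `Fin.sum_univ_two`).
* `DB_mul`: `coeff_mul`, or `totalDegree_mul` via `DB_iff`. `DB_sum`, `DB_prod`, `DB_pow`: induction.
* `DB_tr`: enough for `F = monomial m a` (`F = ∑ monomial`, `support_sum_monomial_coeff`): `tr z` of it is
  `C a * (X 0 + C z.1)^(m 0) * (X 1 + C z.2)^(m 1)`.
* `DB_of_mul`: `totalDegree_mul_of_isDomain` (if `G = 0` trivial).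
* `totalDegree_ww`: at most `p`; the coefficient at `single 0 p` is 1 (`p ≠ 1`). `totalDegree_ln`: coefficient of
  `X 0` is 1.
* `DB_det`: `Matrix.det_apply`: sum of `± ∏ M (σ j) j`; reindex the product by `σ` (`Equiv.prod_comp`) or use
  `det_apply'` for the transpose; each summand is `DB (∑ j, δ j)`.
-/

set_option autoImplicit false

open Finset MvPolynomial

namespace DilW

variable {p : ℕ}

private theorem DegB_sum (m : Fin 2 →₀ ℕ) : (m.sum fun _ e => e) = m 0 + m 1 := by
  rw [Finsupp.sum_fintype _ _ (fun _ => rfl), Fin.sum_univ_two]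

theorem DB_zero (d : ℤ) : DB d (0 : S p) := by
  intro m hm
  simp at hm

theorem DB_mono {d e : ℤ} {F : S p} (h : DB d F) (hde : d ≤ e) : DB e F :=
  fun m hm => (h m hm).trans hde

theorem DB_add {d : ℤ} {F G : S p} (hF : DB d F) (hG : DB d G) : DB d (F + G) := by
  intro m hm
  by_cases h1 : coeff m F = 0
  · apply hG m
    intro h2
    apply hm
    rw [coeff_add, h1, h2, add_zero]
  · exact hF m h1

theorem DB_neg {d : ℤ} {F : S p} (hF : DB d F) : DB d (-F) := by
  intro m hm
  apply hF m
  intro h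
  apply hm
  rw [coeff_neg, h, neg_zero]

theorem DB_sub {d : ℤ} {F G : S p} (hF : DB d F) (hG : DB d G) : DB d (F - G) := by
  rw [sub_eq_add_neg]
  exact DB_add hF (DB_neg hG)

theorem DB_sum {ι : Type*} (s : Finset ι) {d : ℤ} (F : ι → S p) (h : ∀ i ∈ s, DB d (F i)) :
    DB d (∑ i ∈ s, F i) :=
  Finset.sum_induction F (DB d) (fun _ _ => DB_add) (DB_zero d) h

theorem DB_mul {d e : ℤ} {F G : S p} (hF : DB d F) (hG : DB e G) : DB (d + e) (F * G) := by
  intro m hm
  rw [coeff_mul] at hm
  obtain ⟨x, hx, hne⟩ := Finset.exists_ne_zero_of_sum_ne_zero hm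
  have h1 := hF x.1 (left_ne_zero_of_mul hne)
  have h2 := hG x.2 (right_ne_zero_of_mul hne)
  have h3 := HasAntidiagonal.mem_antidiagonal.mp hx
  rw [← h3]
  simp only [Finsupp.add_apply]
  push_cast at h1 h2 ⊢
  linarith

theorem DB_C (a : ZMod p) : DB 0 (C a : S p) := by
  intro m hm
  rw [coeff_C] at hm
  have h : 0 = m := by
    by_contra h
    exact hm (if_neg h)
  rw [← h]
  simp

theorem DB_one : DB 0 (1 : S p) := by
  have := DB_C (p := p) 1
  rwa [map_one] at this

theorem DB_X (k : Fin 2) : DB 1 (X k : S p) := by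
  intro m hm
  rw [coeff_X] at hm
  have h : Finsupp.single k 1 = m := by
    by_contra h
    exact hm (if_neg h)
  rw [← h]
  fin_cases k <;> simp

theorem DB_prod {ι : Type*} (s : Finset ι) (d : ι → ℤ) (F : ι → S p)
    (h : ∀ i ∈ s, DB (d i) (F i)) : DB (∑ i ∈ s, d i) (∏ i ∈ s, F i) := by
  classical
  induction s using Finset.induction_on with
  | empty => simpa using DB_one
  | insert a s ha ih =>
    rw [Finset.sum_insert ha, Finset.prod_insert ha]
    exact DB_mul (h a (Finset.mem_insert_self _ _))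
      (ih fun i hi => h i (Finset.mem_insert_of_mem hi))

theorem DB_pow {d : ℤ} {F : S p} (h : DB d F) (n : ℕ) : DB (n * d) (F ^ n) := by
  have h1 := DB_prod (Finset.range n) (fun _ => d) (fun _ => F) (fun _ _ => h)
  simpa using h1

theorem DB_ln (a i : ZMod p) : DB 1 (ln a i) := by
  unfold ln
  have h1 := DB_mul (DB_C a) (DB_X (p := p) 1)
  rw [zero_add] at h1
  exact DB_sub (DB_add (DB_X 0) h1) (DB_mono (DB_C i) (by norm_num))

theorem DB_RR (A I : Finset (ZMod p)) : DB ((A.card * I.card : ℕ) : ℤ) (RR A I) := by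
  unfold RR
  have h1 : ∀ a ∈ A, DB ((I.card : ℕ) : ℤ) (∏ i ∈ I, ln a i) := by
    intro a _
    have := DB_prod I (fun _ => (1 : ℤ)) (fun i => ln a i) (fun i _ => DB_ln a i)
    simpa using this
  have h2 := DB_prod A (fun _ => ((I.card : ℕ) : ℤ)) (fun a => ∏ i ∈ I, ln a i) h1
  simpa using h2

theorem DB_tr (z : Pt p) {d : ℤ} {F : S p} (h : DB d F) : DB d (tr z F) := by
  rw [← support_sum_monomial_coeff F, map_sum]
  apply DB_sum
  intro m hm
  have h1 := h m (mem_support_iff.mp hm)
  refine DB_mono ?_ h1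
  unfold tr
  rw [aeval_monomial, Finsupp.prod_fintype _ _ (fun _ => pow_zero _), Fin.prod_univ_two]
  have hX : ∀ (k : Fin 2) (c : ZMod p), DB 1 (X k + C c : S p) := fun k c =>
    DB_add (DB_X k) (DB_mono (DB_C c) (by norm_num))
  have e0 := DB_pow (hX 0 z.1) (m 0)
  have e1 := DB_pow (hX 1 z.2) (m 1)
  have e2 := DB_mul (DB_C (coeff m F)) (DB_mul e0 e1)
  refine DB_mono e2 ?_
  push_cast
  linarith

theorem DB_iff {d : ℤ} {F : S p} : DB d F ↔ F = 0 ∨ (F.totalDegree : ℤ) ≤ d := by
  constructor
  · intro h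
    by_cases hF : F = 0
    · exact Or.inl hF
    · right
      obtain ⟨m, hm⟩ := ne_zero_iff.mp hF
      have h0 := h m hm
      have hd : (0 : ℤ) ≤ d := le_trans (by positivity) h0
      lift d to ℕ using hd
      have : F.totalDegree ≤ d := by
        unfold totalDegree
        apply Finset.sup_le
        intro m hm
        have h1 := h m (mem_support_iff.mp hm)
        rw [DegB_sum]
        exact_mod_cast h1
      exact_mod_cast this
  · rintro (h | h)
    · rw [h]
      exact DB_zero d
    · intro m hm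
      have h1 := le_totalDegree (mem_support_iff.mpr hm)
      rw [DegB_sum] at h1
      exact le_trans (by exact_mod_cast h1) h

theorem eq_zero_of_DB {d : ℤ} (hd : d < 0) {F : S p} (h : DB d F) : F = 0 := by
  by_contra hF
  obtain ⟨m, hm⟩ := ne_zero_iff.mp hF
  have h0 := h m hm
  have : (0 : ℤ) ≤ ((m 0 + m 1 : ℕ) : ℤ) := by positivity
  linarith

variable [Fact p.Prime]

private theorem DegB_sub_pow (k : Fin 2) : DB (p : ℤ) (X k ^ p - X k : S p) := by
  have hp : 1 < p := (Fact.out : p.Prime).one_lt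
  have h1 := DB_pow (DB_X (p := p) k) p
  rw [mul_one] at h1
  exact DB_sub h1 (DB_mono (DB_X k) (by exact_mod_cast hp.le))

private theorem DegB_single (k : Fin 2) (n : ℕ) :
    ((Finsupp.single k n : Fin 2 →₀ ℕ).sum fun _ e => e) = n := by
  rw [Finsupp.sum_single_index rfl]

private theorem DegB_td_pow (k : Fin 2) : (X k ^ p - X k : S p).totalDegree = p := by
  have hp : 1 < p := (Fact.out : p.Prime).one_lt
  have hc : coeff (Finsupp.single k p) (X k ^ p - X k : S p) = 1 := by
    rw [coeff_sub, coeff_X_pow, coeff_X, if_pos rfl, if_neg, sub_zero]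
    intro h
    have := Finsupp.single_injective k h
    omega
  have hc0 : coeff (Finsupp.single k p) (X k ^ p - X k : S p) ≠ 0 := by
    rw [hc]
    exact one_ne_zero
  have hne : (X k ^ p - X k : S p) ≠ 0 := by
    intro h
    rw [h, coeff_zero] at hc0
    exact hc0 rfl
  apply le_antisymm
  · rcases DB_iff.mp (DegB_sub_pow (p := p) k) with h | h
    · exact absurd h hne
    · exact_mod_cast h
  · have h1 := le_totalDegree (mem_support_iff.mpr hc0)
    rwa [DegB_single] at h1

theorem DB_ww : DB (p : ℤ) (ww : S p) := DegB_sub_pow 0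

theorem DB_vv : DB (p : ℤ) (vv : S p) := DegB_sub_pow 1

theorem totalDegree_ww : (ww : S p).totalDegree = p := DegB_td_pow 0

theorem totalDegree_vv : (vv : S p).totalDegree = p := DegB_td_pow 1

theorem totalDegree_ln (a i : ZMod p) : (ln a i).totalDegree = 1 := by
  have hc : coeff (Finsupp.single 0 1) (ln a i) = 1 := by
    unfold ln
    rw [coeff_sub, coeff_add, coeff_C_mul, coeff_X, coeff_X, coeff_C, if_pos rfl, if_neg,
      if_neg, mul_zero, add_zero, sub_zero]
    · intro h
      have := DFunLike.congr_fun h 0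
      simp at this
    · intro h
      have := DFunLike.congr_fun h 0
      simp at this
  have hc0 : coeff (Finsupp.single 0 1) (ln a i) ≠ 0 := by
    rw [hc]
    exact one_ne_zero
  apply le_antisymm
  · rcases DB_iff.mp (DB_ln a i) with h | h
    · rw [h]
      simp
    · exact_mod_cast h
  · have h1 := le_totalDegree (mem_support_iff.mpr hc0)
    rwa [DegB_single] at h1

theorem ww_ne_zero : (ww : S p) ≠ 0 := by
  intro h
  have h1 := totalDegree_ww (p := p)
  rw [h, totalDegree_zero] at h1
  exact (Fact.out : p.Prime).ne_zero h1.symm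

theorem vv_ne_zero : (vv : S p) ≠ 0 := by
  intro h
  have h1 := totalDegree_vv (p := p)
  rw [h, totalDegree_zero] at h1
  exact (Fact.out : p.Prime).ne_zero h1.symm

theorem DB_of_mul {d : ℤ} {F G : S p} (hF : F ≠ 0) (h : DB d (F * G)) :
    DB (d - F.totalDegree) G := by
  by_cases hG : G = 0
  · rw [hG]
    exact DB_zero _
  · rcases DB_iff.mp h with h1 | h1
    · exact absurd h1 (mul_ne_zero hF hG)
    · rw [totalDegree_mul_of_isDomain hF hG] at h1
      apply DB_iff.mpr
      right
      push_cast at h1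
      linarith

theorem DB_det {s : ℕ} (M : Matrix (Fin (s + 1)) (Fin (s + 1)) (S p)) (δ : Fin (s + 1) → ℤ)
    (h : ∀ j β, DB (δ j) (M j β)) : DB (∑ j, δ j) M.det := by
  rw [Matrix.det_apply']
  apply DB_sum
  intro σ _
  have h1 : DB (∑ j, δ j) (∏ i, M (σ i) i) := by
    have h2 := DB_prod Finset.univ (fun i => δ (σ i)) (fun i => M (σ i) i) (fun i _ => h _ _)
    rwa [Equiv.sum_comp σ δ] at h2
  rcases Int.units_eq_one_or (Equiv.Perm.sign σ) with hs | hs
  · rw [hs]
    simpa using h1
  · rw [hs]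
    have := DB_neg h1
    simpa using this

end DilW
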