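import Pool.Agent.Lib.DilW.MLin
import Pool.Agent.Lib.DilW.DegB

/-!
# DilW.ARow: elementary facts on the rows `shf`, `gt`, `qA`, `gm`

* `shf_succ`: `tr_tr`, `(1,0) + (j,0) = (j+1,0)`. `shf_zero`: `tr_zero`.
* `tr_gt`, `tr_qA`, `tr_gm`, `tr_single`: `tr_ww`, `tr_vv`, `map_mul`, `map_pow`, `AlgHom.commutes` (`C`).
* `ln_dvd_shf`: apply `tr (j,0)` to the divisibility for `i + j`: `tr (j,0) (ln a (i+j)) = ln a i` (`tr_ln`).
* `shf_rank`: first `ln a i' ∣ ξ β - ξ 0 * C ((-a)^β)` for `i' ∈ I`, `β ≤ s`, by induction on `β`: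
  `ξ (β+1) - ξ 0 C ((-a)^(β+1)) = (ξ (β+1) + C a ξ β) - C a (ξ β - ξ 0 C ((-a)^β))`. Then `tr (j,0)` for `i' = i + j`.
* `gt_rank`: `ww ≡ - C a * vv` modulo `ln a i` (`ln_dvd_ww_add`), so `ww^β ≡ C ((-a)^β) * vv^β`
  (`Dvd.dvd.trans`, `sub_dvd_pow_sub_pow`: `ww - (-C a vv) ∣ ww^β - (-C a vv)^β`).
* `qA_sum`: only `β = k`, `k + 1` contribute.
* `det_col`: `(adjugate M * M) *ᵥ γ = det M • γ` (`Matrix.adjugate_mul`); entry `0`: `det M = ∑ adj 0 j * (M *ᵥ γ) j`.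
-/

set_option autoImplicit false

open Finset MvPolynomial

namespace DilW

variable {p : ℕ} [Fact p.Prime]

private theorem arow_tr_C (z : Pt p) (a : ZMod p) : tr z (C a : S p) = C a := by
  unfold tr
  simp

theorem shf_succ (s : ℕ) (g : ℕ → S p) (j : ℕ) (β : Fin (s + 1)) :
    shf s g (j + 1) β = tr (1, 0) (shf s g j β) := by
  unfold shf
  rw [tr_tr]
  have h : (((j + 1 : ℕ) : ZMod p), (0 : ZMod p)) = ((1, 0) + ((j : ZMod p), 0) : Pt p) := by
    rw [Prod.mk_add_mk, add_zero, Nat.cast_add, Nat.cast_one, add_comm]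
  rw [h]

theorem shf_zero (s : ℕ) (g : ℕ → S p) (β : Fin (s + 1)) : shf s g 0 β = g β := by
  unfold shf
  have h : (((0 : ℕ) : ZMod p), (0 : ZMod p)) = (0 : Pt p) := by
    ext <;> simp
  rw [h, tr_zero]

theorem tr_gt (s : ℕ) (z : Pt p) (β : Fin (s + 1)) : tr z (gt s β) = gt s β := by
  unfold gt
  rw [map_mul, map_pow, map_pow, tr_ww, tr_vv]

theorem tr_qA (s : ℕ) (z : Pt p) (k : Fin s) (β : Fin (s + 1)) : tr z (qA s k β) = qA s k β := by
  unfold qA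
  split_ifs
  · exact tr_ww z
  · rw [map_neg, tr_vv]
  · exact map_zero _

theorem tr_gm (s : ℕ) (z : Pt p) (t : ZMod p) (β : Fin (s + 1)) : tr z (gm s t β) = gm s t β := by
  unfold gm
  exact arow_tr_C z _

theorem tr_single (s : ℕ) (z : Pt p) (k β : Fin (s + 1)) :
    tr z ((Pi.single k 1 : Fin (s + 1) → S p) β) = (Pi.single k 1 : Fin (s + 1) → S p) β := by
  rw [Pi.single_apply]
  split_ifs
  · exact map_one _
  · exact map_zero _

theorem DB_shf {s : ℕ} {d : ℤ} {g : ℕ → S p} (hg : ∀ β ≤ s, DB d (g β)) (j : ℕ)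
    (β : Fin (s + 1)) : DB d (shf s g j β) := by
  unfold shf
  exact DB_tr _ (hg β (Nat.lt_succ_iff.1 β.2))

theorem DB_gt (s : ℕ) (β : Fin (s + 1)) : DB ((s : ℤ) * p) (gt s β : S p) := by
  unfold gt
  have hb : (β : ℕ) ≤ s := Nat.lt_succ_iff.1 β.2
  refine DB_mono (DB_mul (DB_pow DB_ww (β : ℕ)) (DB_pow DB_vv (s - β))) (le_of_eq ?_)
  rw [Nat.cast_sub hb]
  ring

theorem DB_qA (s : ℕ) (k : Fin s) (β : Fin (s + 1)) : DB (p : ℤ) (qA s k β : S p) := by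
  unfold qA
  split_ifs
  · exact DB_ww
  · exact DB_neg DB_vv
  · exact DB_zero _

theorem DB_gm (s : ℕ) (t : ZMod p) (β : Fin (s + 1)) : DB 0 (gm s t β) := by
  unfold gm
  exact DB_C _

theorem DB_single (s : ℕ) (k β : Fin (s + 1)) :
    DB 0 ((Pi.single k 1 : Fin (s + 1) → S p) β) := by
  rw [Pi.single_apply]
  split_ifs
  · exact DB_one
  · exact DB_zero _

private theorem arow_tr_ln (a i : ZMod p) (j : ℕ) :
    tr ((j : ZMod p), 0) (ln a (i + (j : ZMod p))) = ln a i := by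
  rw [tr_ln]
  congr 1
  ring

theorem ln_dvd_shf {A I : Finset (ZMod p)} {s r : ℕ} {g : ℕ → S p}
    (hl : ∀ a ∈ A, ∀ i ∈ I, ln a i ∣ ∑ β ∈ range (s + 1), C ((-a) ^ β) * g β)
    {a i : ZMod p} (ha : a ∈ A) (hi : i ∈ Wd r I) {j : ℕ} (hj : j < r) :
    ln a i ∣ ∑ β : Fin (s + 1), shf s g j β * C ((-a) ^ (β : ℕ)) := by
  unfold Wd at hi
  rw [mem_filter] at hi
  have h1 := hl a ha (i + (j : ZMod p)) (hi.2 j hj)
  have h2 := map_dvd (tr ((j : ZMod p), (0 : ZMod p))) h1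
  rw [arow_tr_ln, map_sum, Finset.sum_range] at h2
  have h3 : ∑ β : Fin (s + 1), shf s g j β * C ((-a) ^ (β : ℕ)) =
      ∑ β : Fin (s + 1), tr ((j : ZMod p), (0 : ZMod p)) (C ((-a) ^ (β : ℕ)) * g β) := by
    refine sum_congr rfl fun β _ => ?_
    rw [map_mul, arow_tr_C, mul_comm]
    rfl
  rw [h3]
  exact h2

theorem shf_rank {A I : Finset (ZMod p)} {s r : ℕ} {ξ : ℕ → S p}
    (hl : ∀ a ∈ A, ∀ i ∈ I, ∀ β < s, ln a i ∣ ξ (β + 1) + C a * ξ β)
    {a i : ZMod p} (ha : a ∈ A) (hi : i ∈ Wd r I) {j : ℕ} (hj : j < r) (β : Fin (s + 1)) :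
    ln a i ∣ shf s ξ j β - shf s ξ j 0 * C ((-a) ^ (β : ℕ)) := by
  unfold Wd at hi
  rw [mem_filter] at hi
  have h1 := hl a ha (i + (j : ZMod p)) (hi.2 j hj)
  have key : ∀ β : ℕ, β ≤ s →
      ln a (i + (j : ZMod p)) ∣ ξ β - ξ 0 * C ((-a) ^ β) := by
    intro β
    induction β with
    | zero =>
      intro _
      rw [pow_zero, C_1, mul_one, sub_self]
      exact dvd_zero _
    | succ β ih =>
      intro hβ
      have h2 := h1 β (by omega)
      have h3 := ih (by omega)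
      have h4 : ξ (β + 1) - ξ 0 * C ((-a) ^ (β + 1)) =
          (ξ (β + 1) + C a * ξ β) - C a * (ξ β - ξ 0 * C ((-a) ^ β)) := by
        rw [pow_succ, C_mul, C_neg]
        ring
      rw [h4]
      exact dvd_sub h2 (Dvd.dvd.mul_left h3 _)
  have h5 := map_dvd (tr ((j : ZMod p), (0 : ZMod p))) (key β (Nat.lt_succ_iff.1 β.2))
  rw [arow_tr_ln, map_sub, map_mul, arow_tr_C] at h5
  exact h5

theorem gt_rank (s : ℕ) (a i : ZMod p) (β : Fin (s + 1)) :
    ln a i ∣ gt s β - vv ^ s * C ((-a) ^ (β : ℕ)) := by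
  have hb : (β : ℕ) ≤ s := Nat.lt_succ_iff.1 β.2
  have h1 : (ln a i : S p) ∣ ww - -(C a * vv) := by
    rw [sub_neg_eq_add]
    exact ln_dvd_ww_add a i
  have h2 := dvd_trans h1 (sub_dvd_pow_sub_pow (ww : S p) (-(C a * vv)) (β : ℕ))
  have h3 : gt s β - vv ^ s * C ((-a) ^ (β : ℕ)) =
      (ww ^ (β : ℕ) - (-(C a * vv)) ^ (β : ℕ)) * vv ^ (s - β) := by
    unfold gt
    have h4 : (vv : S p) ^ s = vv ^ (β : ℕ) * vv ^ (s - β) := by
      rw [← pow_add]
      congr 1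
      omega
    have h5 : (-(C a * vv) : S p) ^ (β : ℕ) = C ((-a) ^ (β : ℕ)) * vv ^ (β : ℕ) := by
      rw [← neg_mul, mul_pow, ← C_neg, ← C_pow]
    rw [h4, h5]
    ring
  rw [h3]
  exact Dvd.dvd.mul_right h2 _

theorem qA_sum (s : ℕ) (k : Fin s) (a : ZMod p) :
    ∑ β : Fin (s + 1), qA s k β * C ((-a) ^ (β : ℕ)) = C ((-a) ^ (k : ℕ)) * (ww + C a * vv) := by
  have hne : k.castSucc ≠ k.succ := by
    intro h
    have := congrArg Fin.val h
    simp at this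
  rw [Finset.sum_eq_add k.castSucc k.succ hne]
  · unfold qA
    have h1 : ((k.castSucc : Fin (s + 1)) : ℕ) = (k : ℕ) := rfl
    have h2 : ((k.succ : Fin (s + 1)) : ℕ) = (k : ℕ) + 1 := rfl
    rw [h1, h2, if_pos rfl, if_neg (by omega), if_pos rfl, pow_succ, C_mul, C_neg]
    ring
  · intro c _ hc
    unfold qA
    rw [if_neg, if_neg, zero_mul]
    · intro h
      exact hc.2 (Fin.ext h)
    · intro h
      exact hc.1 (Fin.ext h)
  · intro h
    exact absurd (mem_univ _) h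
  · intro h
    exact absurd (mem_univ _) h

theorem det_col {R : Type*} [CommRing R] {s : ℕ} (M : Matrix (Fin (s + 1)) (Fin (s + 1)) R)
    (l : R) (γ : Fin (s + 1) → R) (h0 : γ 0 = 1) (h : ∀ j, l ∣ ∑ β, M j β * γ β) : l ∣ M.det := by
  have h1 : ∑ j, M.adjugate 0 j * ∑ β, M j β * γ β = M.det := by
    have h2 := congrFun (congrArg (fun N : Matrix (Fin (s + 1)) (Fin (s + 1)) R =>
      N.mulVec γ) (Matrix.adjugate_mul M)) 0
    simp only [Matrix.smul_mulVec, Matrix.one_mulVec, Pi.smul_apply, h0, smul_eq_mul,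
      mul_one] at h2
    rw [← h2]
    simp only [Matrix.mulVec, dotProduct, Matrix.mul_apply, Finset.mul_sum, Finset.sum_mul]
    rw [Finset.sum_comm]
    refine sum_congr rfl fun β _ => sum_congr rfl fun j _ => ?_
    ring
  rw [← h1]
  exact Finset.dvd_sum fun j _ => Dvd.dvd.mul_left (h j) _

end DilW
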