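import Pool.Agent.Lib.DilW.Defs

/-!
# DilW.Compl: completing independent rows

PROOF. Induction on `s + 1 - r` (for all `r`, `ρ`).
* `r = s + 1`: `rowM s (s+1) ρ c` has the rows `ρ j`, `j < s + 1`, which are linearly independent, so the determinant
  is not 0: otherwise `Matrix.exists_vecMul_eq_zero_iff` gives a vector `u ≠ 0` with `∑ u j • ρ j = 0`.
* `r < s + 1`: there is `φ ≠ 0` with `ρ j ⬝ᵥ φ = 0` for all `j < r`: the square matrix with the rows `ρ j` for
  `j < r` and `0` for the other rows has determinant 0, `Matrix.exists_mulVec_eq_zero_iff`. By `hq` some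
  `q k₀ ⬝ᵥ φ ≠ 0`. Put `ρ' = Function.update ρ r (q k₀)`. Then `ρ' j`, `j < r + 1`, are linearly independent: in a
  relation take the dot product with `φ`: the coefficient of `q k₀` times `q k₀ ⬝ᵥ φ` is 0, so it is 0, and the
  others are 0 by `hρ` (`Fintype.linearIndependent_iff`, `Fin.sum_univ_castSucc`). The induction hypothesis for
  `r + 1`, `ρ'` gives `k`, and `rowM s r ρ (fun j => q (k' j)) = rowM s (r+1) ρ' (fun j => q (k j))` for
  `k' = Function.update k r k₀`.
-/

set_option autoImplicit false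

open Finset Matrix

namespace DilW

private theorem compl_base {R : Type*} [CommRing R] [IsDomain R] {s : ℕ}
    (ρ : ℕ → Fin (s + 1) → R) (hρ : LinearIndependent R (fun j : Fin (s + 1) => ρ j))
    (c : ℕ → Fin (s + 1) → R) : (rowM s (s + 1) ρ c).det ≠ 0 := by
  intro hdet
  obtain ⟨u, hu, huM⟩ := Matrix.exists_vecMul_eq_zero_iff.mpr hdet
  have h1 := Fintype.linearIndependent_iff.mp hρ u (by
    funext β
    have h2 := congr_fun huM β
    rw [Matrix.vecMul, dotProduct] at h2
    rw [Finset.sum_apply]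
    rw [← h2]
    refine Finset.sum_congr rfl fun j _ => ?_
    have h3 : rowM s (s + 1) ρ c j β = ρ j β := by
      unfold rowM
      rw [Matrix.of_apply, if_pos j.isLt]
    rw [h3]
    rfl)
  exact hu (funext h1)

private theorem compl_aux {R : Type*} [CommRing R] [IsDomain R] {s : ℕ}
    {ι : Type*} [Nonempty ι] (q : ι → Fin (s + 1) → R) (m : ℕ) :
    ∀ (r : ℕ) (_ : r ≤ s + 1) (ρ : ℕ → Fin (s + 1) → R)
      (_ : LinearIndependent R (fun j : Fin r => ρ j))
      (_ : ∀ φ : Fin (s + 1) → R, (∀ j < r, ρ j ⬝ᵥ φ = 0) → (∀ k, q k ⬝ᵥ φ = 0) → φ = 0)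
      (_ : s + 1 - r = m),
      ∃ k : ℕ → ι, (rowM s r ρ (fun j => q (k j))).det ≠ 0 := by
  induction m with
  | zero =>
    intro r hr ρ hρ hq h
    have hrs : r = s + 1 := by omega
    subst hrs
    obtain ⟨i0⟩ := (inferInstance : Nonempty ι)
    exact ⟨fun _ => i0, compl_base ρ hρ _⟩
  | succ m ih =>
    intro r hr ρ hρ hq h
    have hrs : r < s + 1 := by omega
    -- the vector orthogonal to the rows
    have hM0 : (Matrix.of fun j : Fin (s + 1) => if (j : ℕ) < r then ρ j else 0).det = 0 := by
      refine Matrix.det_eq_zero_of_row_eq_zero (⟨r, hrs⟩ : Fin (s + 1)) fun β => ?_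
      rw [Matrix.of_apply, if_neg (lt_irrefl r)]
      rfl
    obtain ⟨φ, hφ, hφM⟩ := Matrix.exists_mulVec_eq_zero_iff.mpr hM0
    have hρφ : ∀ j < r, ρ j ⬝ᵥ φ = 0 := by
      intro j hj
      have h1 := congr_fun hφM ⟨j, by omega⟩
      rw [Matrix.mulVec, Pi.zero_apply] at h1
      rw [← h1]
      congr 1
      funext β
      rw [Matrix.of_apply, if_pos hj]
    have hk0 : ∃ k0, q k0 ⬝ᵥ φ ≠ 0 := by
      by_contra hne
      push Not at hne
      exact hφ (hq φ hρφ hne)
    obtain ⟨k0, hk0⟩ := hk0
    set ρ' : ℕ → Fin (s + 1) → R := Function.update ρ r (q k0) with hρ'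
    have hlt : ∀ j, j < r → ρ' j = ρ j := by
      intro j hj
      rw [hρ', Function.update_of_ne (by omega)]
    have heq : ρ' r = q k0 := by rw [hρ', Function.update_self]
    have hind : LinearIndependent R (fun j : Fin (r + 1) => ρ' j) := by
      rw [Fintype.linearIndependent_iff]
      intro g hg
      rw [Fin.sum_univ_castSucc] at hg
      have e1 : ∀ j : Fin r, g (Fin.castSucc j) • ρ' (Fin.castSucc j : Fin (r + 1)) =
          g (Fin.castSucc j) • ρ j := by
        intro j
        rw [Fin.val_castSucc, hlt j j.isLt]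
      rw [Finset.sum_congr rfl fun j _ => e1 j, Fin.val_last, heq] at hg
      have e2 : g (Fin.last r) = 0 := by
        have h3 := congr_arg (fun v => v ⬝ᵥ φ) hg
        rw [add_dotProduct, sum_dotProduct, zero_dotProduct, smul_dotProduct,
          Finset.sum_eq_zero (fun j _ => by rw [smul_dotProduct, hρφ j j.isLt, smul_zero]),
          zero_add, smul_eq_mul] at h3
        exact (mul_eq_zero.mp h3).resolve_right hk0
      rw [e2, zero_smul, add_zero] at hg
      have h4 := Fintype.linearIndependent_iff.mp hρ (fun j => g (Fin.castSucc j)) hg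
      intro i
      refine Fin.lastCases e2 (fun j => h4 j) i
    obtain ⟨k, hk⟩ := ih (r + 1) (by omega) ρ' hind (by
      intro ψ h5 h6
      refine hq ψ (fun j hj => ?_) h6
      rw [← hlt j hj]
      exact h5 j (by omega)) (by omega)
    refine ⟨Function.update k r k0, ?_⟩
    have hMM : rowM s r ρ (fun j => q (Function.update k r k0 j)) =
        rowM s (r + 1) ρ' (fun j => q (k j)) := by
      unfold rowM
      congr 1
      funext j
      rcases lt_trichotomy (j : ℕ) r with hj | hj | hj
      · rw [if_pos hj, if_pos (by omega), hlt _ hj]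
      · rw [if_neg (by omega), if_pos (by omega), hj, heq]
        show q (Function.update k r k0 r) = q k0
        rw [Function.update_self]
      · rw [if_neg (by omega), if_neg (by omega)]
        show q (Function.update k r k0 j) = q (k j)
        rw [Function.update_of_ne (by omega)]
    rw [hMM]
    exact hk

theorem compl {R : Type*} [CommRing R] [IsDomain R] {s r : ℕ} (hr : r ≤ s + 1)
    (ρ : ℕ → Fin (s + 1) → R) (hρ : LinearIndependent R (fun j : Fin r => ρ j))
    {ι : Type*} [Nonempty ι] (q : ι → Fin (s + 1) → R)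
    (hq : ∀ φ : Fin (s + 1) → R, (∀ j < r, ρ j ⬝ᵥ φ = 0) → (∀ k, q k ⬝ᵥ φ = 0) → φ = 0) :
    ∃ k : ℕ → ι, (rowM s r ρ (fun j => q (k j))).det ≠ 0 :=
  compl_aux q (s + 1 - r) r hr ρ hρ hq rfl

/-- completion by unit vectors -/
theorem compl_unit {R : Type*} [CommRing R] [IsDomain R] {s r : ℕ} (hr : r ≤ s + 1)
    (ρ : ℕ → Fin (s + 1) → R) (hρ : LinearIndependent R (fun j : Fin r => ρ j)) :
    ∃ k : ℕ → Fin (s + 1), (rowM s r ρ (fun j => Pi.single (k j) 1)).det ≠ 0 := by
  refine compl hr ρ hρ (fun k : Fin (s + 1) => (Pi.single k 1 : Fin (s + 1) → R)) ?_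
  intro φ _ h
  funext β
  have h1 := h β
  rw [single_one_dotProduct] at h1
  rw [h1]
  rfl

end DilW
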