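import Pool.Agent.Lib.DilW.Gen

/-!
# DilW.DOT: two special cases of `gen`

* `dOne`: `gen` with `K = s`; `w^s P` is added to `g s`, `v^s Q` to `g 0` (if `s = 0` both to `g 0`):
  put `g' m = g m + (if m = s then P else 0) + (if m = 0 then Q else 0)` (`Finset.sum_add_distrib`,
  `Finset.sum_ite_eq`).
* `dTwo`: `gen` with `K = 2 s`: for `m ≤ 2 s` either `m ≥ s`, `g_m w^m v^(2s-m) = w^s (g_m w^(m-s) v^(2s-m))`,
  degree `≤ d - 2ps + p(m-s) + p(2s-m) = d - ps`, or `m < s`, `2s - m ≥ s`, the same with `v^s`.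
-/

set_option autoImplicit false

open Finset MvPolynomial

namespace DilW

variable {p : ℕ} [Fact p.Prime]

private theorem DOT_ww : DB (p : ℤ) (ww : S p) := by
  have hp : (1 : ℤ) ≤ (p : ℤ) := by exact_mod_cast (Fact.out : p.Prime).one_lt.le
  unfold ww
  refine DB_sub ?_ (DB_mono (DB_X 0) hp)
  have := DB_pow (DB_X (p := p) 0) p
  simpa using this

private theorem DOT_vv : DB (p : ℤ) (vv : S p) := by
  have hp : (1 : ℤ) ≤ (p : ℤ) := by exact_mod_cast (Fact.out : p.Prime).one_lt.le
  unfold vv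
  refine DB_sub ?_ (DB_mono (DB_X 1) hp)
  have := DB_pow (DB_X (p := p) 1) p
  simpa using this

theorem dOne {s : ℕ} {d : ℤ} (H : S p) (hd : DB d H) (hj : ∀ z, OG H z s) :
    ∃ g : ℕ → S p, H = ∑ m ∈ range (s + 1), g m * (ww ^ m * vv ^ (s - m)) ∧
      ∀ m, DB (d - p * s) (g m) := by
  obtain ⟨g, P, Q, hH, hg, hP, hQ⟩ := gen (s := s) (K := s) H hd
    (fun z i _ j _ hij => hj z i j hij)
  refine ⟨fun m => g m + (if m = s then P else 0) + (if m = 0 then Q else 0), ?_, ?_⟩
  · have e1 : ∀ m ∈ range (s + 1), (g m + (if m = s then P else 0) + (if m = 0 then Q else 0)) *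
        (ww ^ m * vv ^ (s - m)) = g m * (ww ^ m * vv ^ (s - m)) +
          (if m = s then P * ww ^ s else 0) + (if m = 0 then Q * vv ^ s else 0) := by
      intro m _
      by_cases h1 : m = s
      · by_cases h2 : m = 0
        · subst h1; subst h2; simp
        · subst h1; simp only [if_true, h2, if_false, Nat.sub_self, pow_zero]; ring
      · by_cases h2 : m = 0
        · subst h2; simp [h1]; ring
        · simp [h1, h2]
    rw [Finset.sum_congr rfl e1, Finset.sum_add_distrib, Finset.sum_add_distrib,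
      Finset.sum_ite_eq', Finset.sum_ite_eq']
    simp only [mem_range, Nat.lt_succ_self, if_true, Nat.succ_pos, lt_add_iff_pos_right,
      zero_lt_one, add_pos_iff, or_true]
    conv_lhs => rw [hH]
    ring
  · intro m
    refine DB_add (DB_add (hg m) ?_) ?_
    · split_ifs
      · exact hP
      · exact DB_zero _
    · split_ifs
      · exact hQ
      · exact DB_zero _

theorem dTwo {s : ℕ} {d : ℤ} (H : S p) (hd : DB d H)
    (hj : ∀ z, ∀ i < s, ∀ j < s, jt H z i j = 0) :
    ∃ P Q : S p, H = ww ^ s * P + vv ^ s * Q ∧ DB (d - p * s) P ∧ DB (d - p * s) Q := by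
  obtain ⟨g, P, Q, hH, hg, hP, hQ⟩ := gen (s := s) (K := 2 * s) H hd
    (fun z i hi j hj' _ => hj z i hi j hj')
  refine ⟨P + ∑ m ∈ range (2 * s + 1),
      (if s ≤ m then g m * (ww ^ (m - s) * vv ^ (2 * s - m)) else 0),
    Q + ∑ m ∈ range (2 * s + 1),
      (if s ≤ m then 0 else g m * (ww ^ m * vv ^ (s - m))), ?_, ?_, ?_⟩
  · have e1 : ∀ m ∈ range (2 * s + 1), g m * (ww ^ m * vv ^ (2 * s - m)) =
        ww ^ s * (if s ≤ m then g m * (ww ^ (m - s) * vv ^ (2 * s - m)) else 0) +
        vv ^ s * (if s ≤ m then 0 else g m * (ww ^ m * vv ^ (s - m))) := by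
      intro m _
      by_cases h1 : s ≤ m
      · obtain ⟨t, rfl⟩ := Nat.exists_eq_add_of_le h1
        simp only [h1, if_true, mul_zero, add_zero, Nat.add_sub_cancel_left]
        rw [pow_add]; ring
      · simp only [h1, if_false, mul_zero, zero_add]
        have : 2 * s - m = s + (s - m) := by omega
        rw [this, pow_add]; ring
    conv_lhs => rw [hH]
    rw [Finset.sum_congr rfl e1, Finset.sum_add_distrib, ← Finset.mul_sum, ← Finset.mul_sum]
    ring
  · refine DB_add hP (DB_sum _ _ fun m hm => ?_)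
    rw [mem_range] at hm
    split_ifs with h1
    · have h2 := DB_mul (hg m) (DB_mul (DB_pow DOT_ww (m - s)) (DB_pow DOT_vv (2 * s - m)))
      refine DB_mono h2 ?_
      rw [Nat.cast_sub h1, Nat.cast_sub (by omega : m ≤ 2 * s)]
      push_cast
      apply le_of_eq
      ring
    · exact DB_zero _
  · refine DB_add hQ (DB_sum _ _ fun m hm => ?_)
    rw [mem_range] at hm
    split_ifs with h1
    · exact DB_zero _
    · have h2 := DB_mul (hg m) (DB_mul (DB_pow DOT_ww m) (DB_pow DOT_vv (s - m)))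
      refine DB_mono h2 ?_
      rw [Nat.cast_sub (by omega : m ≤ s)]
      push_cast
      apply le_of_eq
      ring

end DilW
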