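import Mathlib

/-!
# Dilates and windows (MP_3c1bce_co): definitions

`S p = 𝔽_p[x, y]` with `x = X 0`, `y = X 1`; `w = x^p - x`, `v = y^p - y`; the lines
`ln a i = x + a y - i`; for `A, I ⊆ 𝔽_p` the number of the lines `ln a i`, `a ∈ A`, `i ∈ I`, through the
point `z` is `NN A I z`.
Paper proof: /team-store/MP_3c1bce_co_windows.md
-/

set_option autoImplicit false

open Finset MvPolynomial

namespace DilW

/-- the polynomial ring in two variables over `𝔽_p` -/
abbrev S (p : ℕ) : Type := MvPolynomial (Fin 2) (ZMod p)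

/-- points of the plane -/
abbrev Pt (p : ℕ) : Type := ZMod p × ZMod p

/-- exponent vector -/
noncomputable def ee (i j : ℕ) : Fin 2 →₀ ℕ := Finsupp.single 0 i + Finsupp.single 1 j

section
variable {p : ℕ}

/-- total degree at most `d`; `d` is an integer (for `d < 0` this says `F = 0`) -/
def DB (d : ℤ) (F : S p) : Prop := ∀ m : Fin 2 →₀ ℕ, coeff m F ≠ 0 → ((m 0 + m 1 : ℕ) : ℤ) ≤ d

/-- `w = x^p - x` -/
noncomputable def ww : S p := X 0 ^ p - X 0

/-- `v = y^p - y` -/
noncomputable def vv : S p := X 1 ^ p - X 1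

/-- the line `x + a y = i` -/
noncomputable def ln (a i : ZMod p) : S p := X 0 + C a * X 1 - C i

/-- translation: `(tr z F)(x, y) = F(x + z.1, y + z.2)` -/
noncomputable def tr (z : Pt p) : S p →ₐ[ZMod p] S p := aeval ![X 0 + C z.1, X 1 + C z.2]

/-- the value at a point -/
noncomputable def ev (z : Pt p) (F : S p) : ZMod p := eval ![z.1, z.2] F

/-- the Taylor coefficient of `F` at the point `z`, exponents `i`, `j` -/
noncomputable def jt (F : S p) (z : Pt p) (i j : ℕ) : ZMod p := coeff (ee i j) (tr z F)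

/-- `F` vanishes to order `k` at `z` -/
def OG (F : S p) (z : Pt p) (k : ℕ) : Prop := ∀ i j, i + j < k → jt F z i j = 0

/-- the number of `a ∈ A` with `z.1 + a z.2 ∈ I` -/
def NN (A I : Finset (ZMod p)) (z : Pt p) : ℕ := (A.filter fun a => z.1 + a * z.2 ∈ I).card

/-- the product of all lines -/
noncomputable def RR (A I : Finset (ZMod p)) : S p := ∏ a ∈ A, ∏ i ∈ I, ln a i

/-- the number of the last elements of the blocks of `I` -/
def bb (I : Finset (ZMod p)) : ℕ := (I.filter fun i => i + 1 ∉ I).card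

/-- the `i` with `i, i+1, ..., i+r-1 ∈ I` -/
def Wd (r : ℕ) (I : Finset (ZMod p)) : Finset (ZMod p) :=
  I.filter fun i => ∀ k < r, i + (k : ZMod p) ∈ I

/-- the sum of the Taylor coefficients with exponents `s-1, s-1` over all points -/
noncomputable def LL [Fact p.Prime] (s : ℕ) (H : S p) : ZMod p := ∑ z : Pt p, jt H z (s - 1) (s - 1)

/-- the triangle `{(i, j) | i + j < a}` -/
def Tr (a : ℕ) : Finset (ℕ × ℕ) := (range a ×ˢ range a).filter fun q => q.1 + q.2 < a

/-- the polynomial with the coefficients `c` on the triangle `Tr a` -/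
noncomputable def pol (a : ℕ) (c : Tr a → ZMod p) : S p := ∑ q : Tr a, monomial (ee q.1.1 q.1.2) (c q)

/-- the index set: `(z, (i, j))` with `i + j < s - NN A I z` -/
def Idx [Fact p.Prime] (s : ℕ) (A I : Finset (ZMod p)) : Finset (Pt p × (ℕ × ℕ)) :=
  (univ ×ˢ (range s ×ˢ range s)).filter fun q => q.2.1 + q.2.2 + NN A I q.1 < s

/-- the shifted rows: row `j` is `(g β)(x + j, y)`, `0 ≤ β ≤ s` -/
noncomputable def shf (s : ℕ) (g : ℕ → S p) (j : ℕ) (β : Fin (s + 1)) : S p :=
  tr ((j : ZMod p), 0) (g β)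

/-- the row `w^β v^(s-β)` -/
noncomputable def gt (s : ℕ) (β : Fin (s + 1)) : S p := ww ^ (β : ℕ) * vv ^ (s - β)

/-- the row with `w` at `k`, `-v` at `k+1` -/
noncomputable def qA (s : ℕ) (k : Fin s) (β : Fin (s + 1)) : S p :=
  if (β : ℕ) = k then ww else if (β : ℕ) = k + 1 then -vv else 0

/-- the row `t^β` -/
noncomputable def gm (s : ℕ) (t : ZMod p) (β : Fin (s + 1)) : S p := C (t ^ (β : ℕ))

/-- `K_f = ∑_{α < s} f_α w^(s-1-α) v^α` -/
noncomputable def KF (s : ℕ) (f : ℕ → S p) : S p :=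
  ∑ α ∈ range s, f α * (ww ^ (s - 1 - α) * vv ^ α)

end

/-- the matrix with the rows `ρ j` for `j < r` and `c j` for `r ≤ j ≤ s` -/
def rowM {R : Type*} (s r : ℕ) (ρ c : ℕ → Fin (s + 1) → R) :
    Matrix (Fin (s + 1)) (Fin (s + 1)) R :=
  Matrix.of fun j => if (j : ℕ) < r then ρ j else c j

end DilW
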