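import Pool.Agent.Lib.DilW.MLin

/-!
# DilW.DegC: products of powers of lines dividing a polynomial

PROOF. The `ln t.1 t.2`, `t ∈ T`, are primes (`ln_prime`) which do not divide each other (`ln_dvd_ln`), so the
powers are relatively prime (`Prime.irreducible`, `Irreducible.isRelPrime_iff_not_dvd`, `IsRelPrime.pow`) and
their product divides `F` (`Finset.prod_dvd_of_isRelPrime`), `F = (∏ ...) * G`, `G ≠ 0`. By
`totalDegree_mul_of_isDomain` (and induction for the product of powers, `totalDegree_ln`) the total degree of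
`F` is at least `∑ k t`, and at most `d` by `DB_iff`.
-/

set_option autoImplicit false

open Finset MvPolynomial

namespace DilW

variable {p : ℕ} [Fact p.Prime]

private theorem DegC_pow (a i : ZMod p) (n : ℕ) : ((ln a i : S p) ^ n).totalDegree = n := by
  induction n with
  | zero => simp
  | succ n ih =>
    rw [pow_succ, totalDegree_mul_of_isDomain (pow_ne_zero _ (ln_ne_zero a i)) (ln_ne_zero a i),
      ih, totalDegree_ln]

private theorem DegC_prod (T : Finset (Pt p)) (k : Pt p → ℕ) :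
    (∏ t ∈ T, (ln t.1 t.2 : S p) ^ k t).totalDegree = ∑ t ∈ T, k t := by
  classical
  induction T using Finset.induction_on with
  | empty => simp
  | insert t T ht ih =>
    rw [prod_insert ht, sum_insert ht,
      totalDegree_mul_of_isDomain (pow_ne_zero _ (ln_ne_zero _ _))
        (prod_ne_zero_iff.2 fun t _ => pow_ne_zero _ (ln_ne_zero _ _)), ih, DegC_pow]

theorem degC {d : ℤ} (F : S p) (hF : F ≠ 0) (hd : DB d F) (T : Finset (Pt p)) (k : Pt p → ℕ)
    (h : ∀ t ∈ T, ln t.1 t.2 ^ k t ∣ F) : ((∑ t ∈ T, k t : ℕ) : ℤ) ≤ d := by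
  have hdvd : ∏ t ∈ T, (ln t.1 t.2 : S p) ^ k t ∣ F := by
    apply Finset.prod_dvd_of_isRelPrime
    · intro t _ t' _ htt'
      have h1 : IsRelPrime (ln t.1 t.2 : S p) (ln t'.1 t'.2) := by
        rw [(ln_prime t.1 t.2).irreducible.isRelPrime_iff_not_dvd, ln_dvd_ln]
        rintro ⟨h1, h2⟩
        exact htt' (Prod.ext h1 h2)
      exact h1.pow
    · exact h
  obtain ⟨G, hG⟩ := hdvd
  have hP : (∏ t ∈ T, (ln t.1 t.2 : S p) ^ k t) ≠ 0 :=
    prod_ne_zero_iff.2 fun t _ => pow_ne_zero _ (ln_ne_zero _ _)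
  have hG0 : G ≠ 0 := by
    rintro rfl
    exact hF (by rw [hG, mul_zero])
  rcases DB_iff.1 hd with h0 | h1
  · exact absurd h0 hF
  · rw [hG, totalDegree_mul_of_isDomain hP hG0, DegC_prod] at h1
    push_cast at h1 ⊢
    have : (0 : ℤ) ≤ (G.totalDegree : ℤ) := Int.natCast_nonneg _
    linarith

end DilW
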