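import Mathlib

/-!
# DilW.DimC: two orthogonal injective maps

PROOF. Let `Φ : (ι → K) →ₗ (U →ₗ K)`, `Φ e = fun x => ∑ i, u x i * e i`. It is surjective because `u` is injective: it is the
dual map of `u` composed with `(ι → K) ≃ Dual (ι → K)` (`LinearMap.dualMap_surjective_of_injective`; or: `u` has a
left inverse `g` (`LinearMap.exists_leftInverse_of_injective`), for `l : U →ₗ K` put `e i = (l ∘ g) (Pi.single i 1)`).
By `h` the range of `c` is in the kernel of `Φ`. So `card ι = finrank (range Φ) + finrank (ker Φ) ≥ finrank (Dual U) +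
finrank (range c) = finrank U + finrank V` (`LinearMap.finrank_range_add_finrank_ker`, `LinearMap.finrank_range_of_inj`,
`Subspace.dual_finrank_eq`).
-/

set_option autoImplicit false

open Finset

namespace DilW

theorem dimC {K : Type*} [Field K] {ι U V : Type*} [Fintype ι] [AddCommGroup U] [Module K U]
    [FiniteDimensional K U] [AddCommGroup V] [Module K V] [FiniteDimensional K V]
    (u : U →ₗ[K] (ι → K)) (c : V →ₗ[K] (ι → K)) (hu : Function.Injective u)
    (hc : Function.Injective c) (h : ∀ x y, ∑ i, u x i * c y i = 0) :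
    Module.finrank K U + Module.finrank K V ≤ Fintype.card ι := by
  classical
  let Φ : (ι → K) →ₗ[K] (U →ₗ[K] K) :=
    { toFun := fun e => ∑ i, e i • ((LinearMap.proj i : (ι → K) →ₗ[K] K) ∘ₗ u)
      map_add' := fun e f => by
        simp only [Pi.add_apply, add_smul, sum_add_distrib]
      map_smul' := fun r e => by
        simp only [Pi.smul_apply, smul_eq_mul, mul_smul, smul_sum, RingHom.id_apply] }
  have hΦ : ∀ e x, Φ e x = ∑ i, u x i * e i := by
    intro e x
    show (∑ i, e i • ((LinearMap.proj i : (ι → K) →ₗ[K] K) ∘ₗ u)) x = _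
    rw [LinearMap.sum_apply]
    exact sum_congr rfl fun i _ => mul_comm _ _
  have hsur : Function.Surjective Φ := by
    intro l
    obtain ⟨g, hg⟩ := LinearMap.exists_leftInverse_of_injective u (LinearMap.ker_eq_bot.2 hu)
    refine ⟨fun i => (l ∘ₗ g) (fun j => if i = j then 1 else 0), ?_⟩
    refine LinearMap.ext fun x => ?_
    rw [hΦ]
    have h1 := LinearMap.pi_apply_eq_sum_univ (l ∘ₗ g) (u x)
    have h2 : g (u x) = x := by
      have := LinearMap.congr_fun hg x
      simpa using this
    rw [LinearMap.comp_apply, h2] at h1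
    rw [h1]
    rfl
  have hker : LinearMap.range c ≤ LinearMap.ker Φ := by
    rintro _ ⟨y, rfl⟩
    rw [LinearMap.mem_ker]
    refine LinearMap.ext fun x => ?_
    rw [hΦ, h x y, LinearMap.zero_apply]
  have h1 := LinearMap.finrank_range_add_finrank_ker Φ
  rw [LinearMap.range_eq_top.2 hsur, finrank_top, Module.finrank_fintype_fun_eq_card] at h1
  have h2 : Module.finrank K (U →ₗ[K] K) = Module.finrank K U := Subspace.dual_finrank_eq
  have h3 := Submodule.finrank_mono hker
  rw [LinearMap.finrank_range_of_inj hc] at h3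
  omega

end DilW
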