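import Pool.Agent.Lib.DilW.JetA

/-!
# DilW.LSh: shifting the rows

PROOF of `lsh`. Let `r = k + 1`. The matrix `N = rowM s r (fun j => ρ (j+1)) c` has the rows `ρ 1, ..., ρ k, ρ (k+1)`,
then `c`. Its row `k` (index `⟨k, _⟩ : Fin (s+1)`) is `ρ r`; `lam * det N = det (updateRow N k (lam • ρ r))`
(`Matrix.det_updateRow_smul`, `updateRow_eq_self`) `= ∑_{j<r} κ j * det (updateRow N k (ρ j))`
(`Matrix.det_updateRow_sum`-like, or `detRowAlternating.map_update_sum`, `map_update_smul`). For `1 ≤ j ≤ k` the matrix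
`updateRow N k (ρ j)` has two equal rows (`j - 1 < k` and `k`), determinant 0 (`Matrix.det_zero_of_row_eq`). For
`j = 0` the matrix has the rows `ρ 1, ..., ρ k, ρ 0, c ...`: it is `(rowM s r ρ c).submatrix σ id` with
`σ = Fin.cycleRange ⟨k, _⟩` (`Fin.cycleRange_of_lt`, `cycleRange_of_eq`, `cycleRange_of_gt`), determinant
`sign σ * det` (`Matrix.det_permute`), `Fin.sign_cycleRange`: `(-1)^k`.

PROOF of `lshTau`. `tr (1,0) (rowM s r ρ c).det = (rowM s r (fun j => ρ (j+1)) c).det` (`RingHom.map_det` /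
`AlgHom.map_det`, `Matrix.map`), the same for `c'`. By `lsh` with `u = κ 0 * (-1)^(r-1)`: `lam * tau F = u * F` and
`lam * tau F' = u * F'`, so `lam * (tau F * F') = u F F' = lam * (F * tau F')`; cancel `lam ≠ 0`.
-/

set_option autoImplicit false

open Finset MvPolynomial

namespace DilW

private theorem LSh_apply {R : Type*} (s r : ℕ) (ρ c : ℕ → Fin (s + 1) → R) (i j : Fin (s + 1)) :
    rowM s r ρ c i j = if (i : ℕ) < r then ρ i j else c i j := by
  by_cases h : (i : ℕ) < r <;> simp [rowM, h]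

private theorem LSh_first {R : Type*} [CommRing R] {s r : ℕ} (hr : 1 ≤ r) (hr' : r ≤ s + 1)
    (ρ c : ℕ → Fin (s + 1) → R) :
    ((rowM s r (fun j => ρ (j + 1)) c).updateRow ⟨r - 1, by omega⟩ (ρ 0)).det =
      (-1) ^ (r - 1) * (rowM s r ρ c).det := by
  have h1 : (rowM s r (fun j => ρ (j + 1)) c).updateRow ⟨r - 1, by omega⟩ (ρ 0) =
      (rowM s r ρ c).submatrix (Fin.cycleRange (⟨r - 1, by omega⟩ : Fin (s + 1))) id := by
    ext i j
    rw [Matrix.submatrix_apply, id_eq, LSh_apply]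
    rcases lt_trichotomy i (⟨r - 1, by omega⟩ : Fin (s + 1)) with h | h | h
    · rw [Matrix.updateRow_ne h.ne, LSh_apply, Fin.coe_cycleRange_of_lt h]
      have h2 : (i : ℕ) < r - 1 := h
      rw [if_pos (by omega), if_pos (by omega)]
    · subst h
      rw [Matrix.updateRow_self, Fin.cycleRange_self]
      rw [if_pos (show ((0 : Fin (s + 1)) : ℕ) < r by simp only [Fin.val_zero]; omega)]
      rfl
    · rw [Matrix.updateRow_ne h.ne', LSh_apply, Fin.cycleRange_of_gt h]
      have h2 : r - 1 < (i : ℕ) := h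
      rw [if_neg (by omega), if_neg (by omega)]
  rw [h1, Matrix.det_permute, Fin.sign_cycleRange]
  push_cast
  rfl

private theorem LSh_other {R : Type*} [CommRing R] {s r : ℕ} (hr : 1 ≤ r) (hr' : r ≤ s + 1)
    (ρ c : ℕ → Fin (s + 1) → R) (j : ℕ) (hj : 1 ≤ j) (hj' : j < r) :
    ((rowM s r (fun j => ρ (j + 1)) c).updateRow ⟨r - 1, by omega⟩ (ρ j)).det = 0 := by
  have hne : (⟨j - 1, by omega⟩ : Fin (s + 1)) ≠ ⟨r - 1, by omega⟩ := by
    intro h
    have := congrArg Fin.val h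
    simp only at this
    omega
  apply Matrix.det_zero_of_row_eq hne
  rw [Matrix.updateRow_ne hne, Matrix.updateRow_self]
  ext β
  rw [LSh_apply, if_pos (by simp only; omega)]
  simp only
  congr 1
  omega

theorem lsh {R : Type*} [CommRing R] {s r : ℕ} (hr : 1 ≤ r) (hr' : r ≤ s + 1)
    (ρ c : ℕ → Fin (s + 1) → R) (lam : R) (κ : ℕ → R)
    (h : lam • ρ r = ∑ j ∈ range r, κ j • ρ j) :
    lam * (rowM s r (fun j => ρ (j + 1)) c).det = κ 0 * (-1) ^ (r - 1) * (rowM s r ρ c).det := by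
  set N := rowM s r (fun j => ρ (j + 1)) c with hN
  set k : Fin (s + 1) := ⟨r - 1, by omega⟩ with hk
  have h1 : N.updateRow k (ρ r) = N := by
    have h2 : ρ r = N k := by
      ext β
      rw [hN, LSh_apply, if_pos (by simp only [hk]; omega)]
      simp only [hk]
      congr 1
      omega
    rw [h2]
    exact Matrix.updateRow_eq_self N k
  have h3 : lam * N.det = (N.updateRow k (lam • ρ r)).det := by
    rw [Matrix.det_updateRow_smul, h1]
  let D : (Fin (s + 1) → R) →ₗ[R] R :=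
    { toFun := fun v => (N.updateRow k v).det
      map_add' := fun u v => Matrix.det_updateRow_add N k u v
      map_smul' := fun a v => by
        rw [RingHom.id_apply, smul_eq_mul]
        exact Matrix.det_updateRow_smul N k a v }
  have h5 : (N.updateRow k (∑ j ∈ range r, κ j • ρ j)).det =
      ∑ j ∈ range r, κ j * (N.updateRow k (ρ j)).det := by
    change D (∑ j ∈ range r, κ j • ρ j) = ∑ j ∈ range r, κ j * D (ρ j)
    rw [map_sum]
    apply Finset.sum_congr rfl
    intro j _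
    rw [map_smul, smul_eq_mul]
  rw [h3, h, h5, Finset.sum_eq_single_of_mem 0 (Finset.mem_range.mpr (by omega))]
  · rw [hN, hk, LSh_first hr hr' ρ c, mul_assoc]
  · intro j hj hj0
    rw [hN, hk, LSh_other hr hr' ρ c j (by omega) (Finset.mem_range.mp hj), mul_zero]

private theorem LSh_tr {p : ℕ} {s r : ℕ}
    (ρ c : ℕ → Fin (s + 1) → S p) (hρ : ∀ j β, ρ (j + 1) β = tr (1, 0) (ρ j β))
    (hc : ∀ j β, tr (1, 0) (c j β) = c j β) :
    tr (1, 0) (rowM s r ρ c).det = (rowM s r (fun j => ρ (j + 1)) c).det := by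
  rw [AlgHom.map_det]
  congr 1
  ext1 i j
  rw [AlgHom.mapMatrix_apply, Matrix.map_apply, LSh_apply, LSh_apply]
  by_cases h : (i : ℕ) < r
  · rw [if_pos h, if_pos h, hρ]
  · rw [if_neg h, if_neg h, hc]

theorem lshTau {p : ℕ} [Fact p.Prime] {s r : ℕ} (hr : 1 ≤ r) (hr' : r ≤ s + 1)
    (ρ c c' : ℕ → Fin (s + 1) → S p) (hρ : ∀ j β, ρ (j + 1) β = tr (1, 0) (ρ j β))
    (hc : ∀ j β, tr (1, 0) (c j β) = c j β) (hc' : ∀ j β, tr (1, 0) (c' j β) = c' j β)
    (lam : S p) (κ : ℕ → S p) (hlam : lam ≠ 0) (h : lam • ρ r = ∑ j ∈ range r, κ j • ρ j) :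
    tr (1, 0) (rowM s r ρ c).det * (rowM s r ρ c').det =
      (rowM s r ρ c).det * tr (1, 0) (rowM s r ρ c').det := by
  have h1 := lsh hr hr' ρ c lam κ h
  have h2 := lsh hr hr' ρ c' lam κ h
  rw [← LSh_tr ρ c hρ hc] at h1
  rw [← LSh_tr ρ c' hρ hc'] at h2
  apply mul_left_cancel₀ hlam
  linear_combination (rowM s r ρ c').det * h1 - (rowM s r ρ c).det * h2

end DilW
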