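import Pool.Agent.Lib.DilW.Defs

/-!
# DilW.Rnk: the number of independent rows

PROOF. Let `Ind r` be the linear independence of `ρ 0, ..., ρ (r-1)`. `Ind 1` (`ρ 0 ≠ 0`, `R` a domain, the module
`Fin (s+1) → R` is torsion free; `LinearIndependent.of_subsingleton`-like / `Fintype.linearIndependent_iff`).
`¬ Ind (s+2)`: `s + 2` vectors in `Fin (s+1) → R` are dependent (`LinearIndependent.fintype_card_le_finrank`-like,
strong rank condition, or `Matrix`: rank). Let `r` be the largest with `Ind r`, i.e. `Ind r` and `¬ Ind (r+1)`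
(`Nat.find` for the first `r + 1 ≥ 2` with `¬ Ind (r+1)`). A nontrivial relation between `ρ 0, ..., ρ r`
(`Fintype.not_linearIndependent_iff`) has a nonzero coefficient at `ρ r` (otherwise it is a relation between
`ρ 0, ..., ρ (r-1)`): `lam` is this coefficient, `κ j` the negatives of the others (extended by 0 to `ℕ`).
-/

set_option autoImplicit false

open Finset

namespace DilW

theorem rnk {R : Type*} [CommRing R] [IsDomain R] {s : ℕ} (ρ : ℕ → Fin (s + 1) → R)
    (h0 : ρ 0 ≠ 0) : ∃ r, 1 ≤ r ∧ r ≤ s + 1 ∧ LinearIndependent R (fun j : Fin r => ρ j) ∧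
      ∃ (lam : R) (κ : ℕ → R), lam ≠ 0 ∧ lam • ρ r = ∑ j ∈ range r, κ j • ρ j := by
  classical
  have hbig : ¬ LinearIndependent R (fun j : Fin (s + 1 + 1) => ρ j) := by
    intro h
    have h2 := h.fintype_card_le_finrank
    rw [Fintype.card_fin, Module.finrank_fin_fun] at h2
    omega
  have h1 : LinearIndependent R (fun j : Fin 1 => ρ j) := by
    rw [Fintype.linearIndependent_iff]
    intro g hg i
    have h2 : g 0 • ρ 0 = 0 := by
      have h3 := hg
      rw [Fin.sum_univ_one] at h3
      exact h3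
    have h4 : g 0 = 0 := (smul_eq_zero.1 h2).resolve_right h0
    rw [Subsingleton.elim i 0]
    exact h4
  have hex : ∃ r, ¬ LinearIndependent R (fun j : Fin (r + 1) => ρ j) := ⟨s + 1, hbig⟩
  obtain ⟨r, hr, hmin⟩ : ∃ r, ¬ LinearIndependent R (fun j : Fin (r + 1) => ρ j) ∧
      ∀ t < r, LinearIndependent R (fun j : Fin (t + 1) => ρ j) :=
    ⟨Nat.find hex, Nat.find_spec hex, fun t ht => not_not.1 (Nat.find_min hex ht)⟩
  have hr1 : 1 ≤ r := by
    rcases Nat.eq_zero_or_pos r with h | h
    · subst h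
      exact absurd h1 hr
    · exact h
  have hrs : r ≤ s + 1 := by
    by_contra hcon
    exact hbig (hmin (s + 1) (by omega))
  have hind : LinearIndependent R (fun j : Fin r => ρ j) := by
    obtain ⟨t, rfl⟩ : ∃ t, r = t + 1 := ⟨r - 1, by omega⟩
    exact hmin t (by omega)
  refine ⟨r, hr1, hrs, hind, ?_⟩
  obtain ⟨g, hg, i, hi⟩ := Fintype.not_linearIndependent_iff.1 hr
  rw [Fin.sum_univ_castSucc] at hg
  have hlast : g (Fin.last r) ≠ 0 := by
    intro h
    rw [h, zero_smul, add_zero] at hg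
    have h5 := Fintype.linearIndependent_iff.1 hind (fun j => g j.castSucc) hg
    apply hi
    rcases Fin.eq_castSucc_or_eq_last i with ⟨j, hj⟩ | hj
    · rw [hj]
      exact h5 j
    · rw [hj]
      exact h
  refine ⟨g (Fin.last r), fun j => if h : j < r then -g ⟨j, by omega⟩ else 0, hlast, ?_⟩
  rw [Finset.sum_range]
  have h6 : ∀ j : Fin r, (if h : (j : ℕ) < r then -g ⟨(j : ℕ), by omega⟩ else 0) =
      -g j.castSucc := by
    intro j
    rw [dif_pos j.2]
    rfl
  simp only [h6, neg_smul, sum_neg_distrib]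
  rw [eq_neg_iff_add_eq_zero]
  have h7 := hg
  rw [add_comm (∑ i : Fin r, _)] at h7
  exact h7

end DilW
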