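import Pool.Agent.Lib.DilW.MLin

/-!
# DilW.Val: multiplicities of the lines of a parallel class

PROOF of `val`. Put `e i = multiplicity (ln a i) E`, `m i = multiplicity (ln a i) M` (finite: `E, M ≠ 0`, `ln a i`
prime, `FiniteMultiplicity.of_not_isUnit` or `of_prime_left`). `tr (1,0)` is injective with inverse `tr (-1,0)`
(`tr_tr`, `tr_zero`) and maps `ln a (i+1)` to `ln a i` (`tr10_ln`), so `ln a i ^ k ∣ tr (1,0) E ↔ ln a (i+1) ^ k ∣ E`
(apply `tr (1,0)`, `tr (-1,0)` to the divisibility). So the multiplicities of `ln a i` in both sides of the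
hypothesis are `e (i+1) + m i = e i + m (i+1)` (`multiplicity_mul`, `emultiplicity_mul`). Hence the integer
`e i - m i` does not depend on `i` (`i ↦ i + 1` is transitive on `ZMod p`: for a natural number `k`,
`e k - m k = e 0 - m 0` by induction; every element of `ZMod p` is the cast of a natural number). If it is `≤ 0`
then `e i ≤ m i` for all `i` (first case), otherwise `e i ≥ 1` for all `i` (second case).
-/

set_option autoImplicit false

open Finset MvPolynomial

namespace DilW

variable {p : ℕ} [Fact p.Prime]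

private theorem val_pow_iff (a i : ZMod p) (F : S p) (k : ℕ) :
    ln a i ^ k ∣ tr (1, 0) F ↔ ln a (i + 1) ^ k ∣ F := by
  constructor
  · rintro ⟨G, hG⟩
    have h1 : tr (-1, 0) (tr (1, 0) F) = F := by
      rw [tr_tr]
      have : ((-1, 0) + (1, 0) : Pt p) = 0 := by
        ext <;> simp
      rw [this, tr_zero]
    refine ⟨tr (-1, 0) G, ?_⟩
    rw [← h1, hG, map_mul, map_pow, tr_ln]
    congr 3
    simp
  · rintro ⟨G, hG⟩
    refine ⟨tr (1, 0) G, ?_⟩
    rw [hG, map_mul, map_pow, tr10_ln, add_sub_cancel_right]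

private theorem val_mult (a i : ZMod p) (F : S p) :
    multiplicity (ln a i) (tr (1, 0) F) = multiplicity (ln a (i + 1)) F := by
  have h : emultiplicity (ln a i) (tr (1, 0) F) = emultiplicity (ln a (i + 1)) F :=
    emultiplicity_eq_emultiplicity_iff.2 fun k => val_pow_iff a i F k
  exact multiplicity_eq_of_emultiplicity_eq h

private theorem val_tr_ne (F : S p) (hF : F ≠ 0) : tr (1, 0) F ≠ 0 := by
  intro h
  apply hF
  have h1 : tr (-1, 0) (tr (1, 0) F) = F := by
    rw [tr_tr]
    have : ((-1, 0) + (1, 0) : Pt p) = 0 := by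
      ext <;> simp
    rw [this, tr_zero]
  rw [← h1, h, map_zero]

theorem val (E M : S p) (hE : E ≠ 0) (hM : M ≠ 0)
    (h : tr (1, 0) E * M = E * tr (1, 0) M) (a : ZMod p) :
    (∀ (i : ZMod p) (k : ℕ), ln a i ^ k ∣ E → ln a i ^ k ∣ M) ∨ ∀ i : ZMod p, ln a i ∣ E := by
  have hp : ∀ i : ZMod p, Prime (ln a i : S p) := fun i => ln_prime a i
  have hfE : ∀ i : ZMod p, FiniteMultiplicity (ln a i) E := fun i =>
    FiniteMultiplicity.of_prime_left (hp i) hE
  have hfM : ∀ i : ZMod p, FiniteMultiplicity (ln a i) M := fun i =>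
    FiniteMultiplicity.of_prime_left (hp i) hM
  have key : ∀ i : ZMod p, multiplicity (ln a (i + 1)) E + multiplicity (ln a i) M =
      multiplicity (ln a i) E + multiplicity (ln a (i + 1)) M := by
    intro i
    have h1 : multiplicity (ln a i) (tr (1, 0) E * M) =
        multiplicity (ln a i) (tr (1, 0) E) + multiplicity (ln a i) M :=
      multiplicity_mul (hp i) (FiniteMultiplicity.of_prime_left (hp i)
        (mul_ne_zero (val_tr_ne E hE) hM))
    have h2 : multiplicity (ln a i) (E * tr (1, 0) M) =
        multiplicity (ln a i) E + multiplicity (ln a i) (tr (1, 0) M) :=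
      multiplicity_mul (hp i) (FiniteMultiplicity.of_prime_left (hp i)
        (mul_ne_zero hE (val_tr_ne M hM)))
    rw [val_mult] at h1 h2
    rw [← h1, ← h2, h]
  have hd : ∀ k : ℕ, (multiplicity (ln a (k : ZMod p)) E : ℤ) - multiplicity (ln a (k : ZMod p)) M =
      (multiplicity (ln a (0 : ZMod p)) E : ℤ) - multiplicity (ln a (0 : ZMod p)) M := by
    intro k
    induction k with
    | zero => simp
    | succ k ih =>
      have := key (k : ZMod p)
      push_cast
      omega
  have hd' : ∀ i : ZMod p, (multiplicity (ln a i) E : ℤ) - multiplicity (ln a i) M =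
      (multiplicity (ln a (0 : ZMod p)) E : ℤ) - multiplicity (ln a (0 : ZMod p)) M := by
    intro i
    have := hd i.val
    rwa [ZMod.natCast_zmod_val] at this
  by_cases hc : (multiplicity (ln a (0 : ZMod p)) E : ℤ) - multiplicity (ln a (0 : ZMod p)) M ≤ 0
  · left
    intro i k hk
    have h1 := (hfE i).le_multiplicity_of_pow_dvd hk
    have h2 := hd' i
    exact pow_dvd_of_le_multiplicity (by omega)
  · right
    intro i
    have h2 := hd' i
    have h3 : ln a i ^ 1 ∣ E := pow_dvd_of_le_multiplicity (by omega)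
    rwa [pow_one] at h3

end DilW
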