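import Pool.Agent.Lib.DilW.Defs

/-!
# DilW.Win: number of windows

PROOF. Induction on `r ≥ 1` (`Nat.le_induction`). `r = 1`: `Wd 1 I = I`. Step: `Wd (r+1) I ⊆ Wd r I`, and an
element `i` of the difference satisfies `i + (r-1) ∈ I`, `i + r ∉ I`, so `i ↦ i + (r-1)` maps the difference
injectively into `{j ∈ I | j + 1 ∉ I}`.
-/

set_option autoImplicit false

open Finset

namespace DilW

variable {p : ℕ} [Fact p.Prime]

theorem win (r : ℕ) (hr : 1 ≤ r) (I : Finset (ZMod p)) :
    I.card ≤ (Wd r I).card + (r - 1) * bb I := by
  induction r, hr using Nat.le_induction with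
  | base =>
    have h : I ⊆ Wd 1 I := by
      intro i hi
      simp only [Wd, mem_filter]
      refine ⟨hi, ?_⟩
      intro k hk
      have : k = 0 := by omega
      subst this
      simpa using hi
    have := card_le_card h
    omega
  | succ r hr ih =>
    have hsub : Wd (r + 1) I ⊆ Wd r I := by
      intro i hi
      simp only [Wd, mem_filter] at hi ⊢
      exact ⟨hi.1, fun k hk => hi.2 k (by omega)⟩
    have hd : (Wd r I \ Wd (r + 1) I).card ≤ bb I := by
      unfold bb
      refine card_le_card_of_injOn (fun i => i + ((r - 1 : ℕ) : ZMod p)) ?_ ?_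
      · intro i hi
        have hi' : i ∈ Wd r I \ Wd (r + 1) I := by simpa using hi
        rw [mem_sdiff] at hi'
        obtain ⟨h1, h2⟩ := hi'
        simp only [Wd, mem_filter] at h1 h2
        have h3 : i + ((r - 1 : ℕ) : ZMod p) ∈ I := h1.2 (r - 1) (by omega)
        have h4 : i + ((r - 1 : ℕ) : ZMod p) + 1 ∉ I := by
          intro h5
          apply h2
          refine ⟨h1.1, fun k hk => ?_⟩
          rcases Nat.lt_or_ge k r with h | h
          · exact h1.2 k h
          · have hk' : k = (r - 1) + 1 := by omega
            rw [hk']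
            push_cast
            rw [← add_assoc]
            exact h5
        have : i + ((r - 1 : ℕ) : ZMod p) ∈ I.filter fun i => i + 1 ∉ I :=
          mem_filter.mpr ⟨h3, h4⟩
        simpa using this
      · intro a _ b _ hab
        exact add_right_cancel hab
    have h1 : (Wd r I).card = (Wd r I \ Wd (r + 1) I).card + (Wd (r + 1) I).card :=
      (card_sdiff_add_card_eq_card hsub).symm
    have h2 : (r + 1 - 1) * bb I = (r - 1) * bb I + bb I := by
      have : r + 1 - 1 = (r - 1) + 1 := by omega
      rw [this]
      ring
    omega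

end DilW
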