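import Pool.Agent.Lib.DilW.AOrt
import Pool.Agent.Lib.DilW.Val
import Pool.Agent.Lib.DilW.DegC
import Pool.Agent.Lib.DilW.Win
import Pool.Agent.Lib.DilW.Compl
import Pool.Agent.Lib.DilW.Rnk
import Pool.Agent.Lib.DilW.LSh

/-!
# DilW.LemA: the first zero estimate

PROOF. `n = A.card`, `m = I.card`, `b = bb I`. If `e ≥ p` then `(s+1) e ≥ (s+1) p ≥ n m`, done (if moreover
`e ≥ 0` all terms are nonnegative). So let `e < p`. Let `ρ = shf s g`. `ρ 0 ≠ 0` (by `hG`; `shf_zero`). `rnk` gives `r`,
`lam`, `κ`.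
* `M = det (rowM s r ρ (unit vectors k)) ≠ 0` by `compl_unit`; `DB (r e) M` (`DB_det` with `δ j = e` for `j < r`, else `0`:
  `∑_j δ j = r e`). As `M ≠ 0`, `r e ≥ 0` (`eq_zero_of_DB`), so `e ≥ 0`.
* `E = det (rowM s r ρ (qA (k' j))) ≠ 0` by `compl` with `q = qA s`, `ι = Fin s` (nonempty, `s ≥ 1`): the condition is
  `aOrt` (`j = 0 < r`). `DB (r e + (s+1-r) p) E`.
* `lshTau` (`shf_succ`, `tr_qA`, `tr_single`): `tau E * M = E * tau M`; `val E M`.
* For `a ∈ A`, `i ∈ Wd r I`: `ln a i ∣ E`: `det_col` with `γ β = C ((-a)^β)`: rows `j < r`: `ln_dvd_shf`; the other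
  rows: `qA_sum`, `ln_dvd_ww_add`.
* Let `B` be the set of the `a ∈ A` with `ln a i ∣ E` for all `i : ZMod p`. `degC E` with `T = B ×ˢ univ`, `k = 1`:
  `p |B| ≤ r e + (s+1-r) p < (s+1) p` as `e < p`, `r ≥ 1`; so `|B| ≤ s`.
* For `a ∈ A \ B`, `i ∈ Wd r I`: `ln a i ∣ M` (`val`, first case, exponent 1). `degC M` with `T = (A \ B) ×ˢ Wd r I`:
  `(n - |B|) W ≤ r e`, `W = |Wd r I|`.
* `win`: `m ≤ W + (r-1) b`. So `n m ≤ n W + n (r-1) b ≤ r e + |B| W + n (r-1) b ≤ (s+1) e + s m + s n b`.
-/

set_option autoImplicit false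

open Finset MvPolynomial

namespace DilW

variable {p : ℕ} [Fact p.Prime]

private theorem LemA_sum_ite {s r : ℕ} (hr : r ≤ s + 1) (u v : ℤ) :
    ∑ j : Fin (s + 1), (if (j : ℕ) < r then u else v) = r * u + (s + 1 - r) * v := by
  have h := Fin.sum_univ_eq_sum_range (fun j => if j < r then u else v) (s + 1)
  rw [h]
  have h2 : s + 1 = r + (s + 1 - r) := by omega
  rw [h2, Finset.sum_range_add]
  have h3 : ∑ x ∈ range r, (if x < r then u else v) = r * u := by
    rw [Finset.sum_congr rfl (fun x hx => if_pos (mem_range.1 hx))]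
    simp
  have h4 : ∑ x ∈ range (s + 1 - r), (if r + x < r then u else v) = (s + 1 - r) * v := by
    rw [Finset.sum_congr rfl (fun x _ => if_neg (by omega))]
    simp only [sum_const, card_range, nsmul_eq_mul]
    rw [Nat.cast_sub hr]
    push_cast
    ring
  rw [h3, h4]

theorem lemA (A I : Finset (ZMod p)) {s : ℕ} (hs : 1 ≤ s) (e : ℤ) (g : ℕ → S p)
    (hg : ∀ β, DB e (g β))
    (hl : ∀ a ∈ A, ∀ i ∈ I, ln a i ∣ ∑ β ∈ range (s + 1), C ((-a) ^ β) * g β)
    (hG : ∑ β ∈ range (s + 1), g β * (ww ^ β * vv ^ (s - β)) ≠ 0)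
    (hD : A.card * I.card ≤ (s + 1) * p) :
    ((A.card * I.card : ℕ) : ℤ) ≤
      (s + 1) * e + (s : ℤ) * A.card * bb I + (s : ℤ) * I.card := by
  classical
  -- `0 ≤ e`
  have he0 : 0 ≤ e := by
    by_contra hneg
    apply hG
    refine Finset.sum_eq_zero fun β _ => ?_
    rw [eq_zero_of_DB (not_le.1 hneg) (hg β), zero_mul]
  have hn0 : (0 : ℤ) ≤ (s : ℤ) * A.card * bb I := by positivity
  have hm0 : (0 : ℤ) ≤ (s : ℤ) * I.card := by positivity
  by_cases hep : (p : ℤ) ≤ e
  · have h1 : ((A.card * I.card : ℕ) : ℤ) ≤ ((s + 1) * p : ℕ) := by exact_mod_cast hD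
    have h2 : (((s + 1) * p : ℕ) : ℤ) ≤ (s + 1) * e := by
      push_cast
      exact mul_le_mul_of_nonneg_left hep (by positivity)
    linarith
  rw [not_le] at hep
  have hp : (0 : ℤ) < p := by exact_mod_cast (Fact.out : p.Prime).pos
  have hρ0 : (shf s g 0 : Fin (s + 1) → S p) ≠ 0 := by
    intro h
    apply hG
    refine Finset.sum_eq_zero fun β hβ => ?_
    have h1 := congrFun h (⟨β, mem_range.1 hβ⟩ : Fin (s + 1))
    rw [shf_zero] at h1
    have h2 : g β = 0 := h1
    rw [h2, zero_mul]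
  obtain ⟨r, hr1, hr2, hLI, lam, κ, hlam, hrel⟩ := rnk (fun j => shf s g j) hρ0
  obtain ⟨k, hM⟩ := compl_unit hr2 (fun j => shf s g j) hLI
  have : Nonempty (Fin s) := ⟨⟨0, hs⟩⟩
  obtain ⟨k', hE⟩ := compl hr2 (fun j => shf s g j) hLI (qA s)
    (fun φ h1 h2 => aOrt g hG φ (h1 0 hr1) h2)
  set Mm : S p := (rowM s r (fun j => shf s g j) (fun j => Pi.single (k j) 1)).det with hMdef
  set Em : S p := (rowM s r (fun j => shf s g j) (fun j => qA s (k' j))).det with hEdef
  have hτ : tr (1, 0) Em * Mm = Em * tr (1, 0) Mm := by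
    rw [hEdef, hMdef]
    exact lshTau hr1 hr2 (fun j => shf s g j) (fun j => qA s (k' j)) (fun j => Pi.single (k j) 1)
      (fun j β => shf_succ s g j β) (fun j β => tr_qA s (1, 0) (k' j) β)
      (fun j β => tr_single s (1, 0) (k j) β) lam κ hlam hrel
  have hDM : DB ((r : ℤ) * e) Mm := by
    have h := DB_det (rowM s r (fun j => shf s g j) (fun j => Pi.single (k j) 1))
      (fun j => if (j : ℕ) < r then e else 0) (fun j β => by
        by_cases hj : (j : ℕ) < r
        · simp only [rowM, Matrix.of_apply, if_pos hj]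
          exact DB_shf (fun β _ => hg β) j β
        · simp only [rowM, Matrix.of_apply, if_neg hj]
          exact DB_single s (k j) β)
    rw [LemA_sum_ite hr2] at h
    simpa using h
  have hDE : DB ((r : ℤ) * e + (s + 1 - r) * p) Em := by
    have h := DB_det (rowM s r (fun j => shf s g j) (fun j => qA s (k' j)))
      (fun j => if (j : ℕ) < r then e else (p : ℤ)) (fun j β => by
        by_cases hj : (j : ℕ) < r
        · simp only [rowM, Matrix.of_apply, if_pos hj]
          exact DB_shf (fun β _ => hg β) j β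
        · simp only [rowM, Matrix.of_apply, if_neg hj]
          exact DB_qA s (k' j) β)
    rw [LemA_sum_ite hr2] at h
    exact h
  -- the lines divide `Em`
  have hlE : ∀ a ∈ A, ∀ i ∈ Wd r I, ln a i ∣ Em := by
    intro a ha i hi
    refine det_col _ (ln a i) (fun β => C ((-a) ^ (β : ℕ))) (by simp) fun j => ?_
    by_cases hj : (j : ℕ) < r
    · simp only [rowM, Matrix.of_apply, if_pos hj]
      exact ln_dvd_shf hl ha hi hj
    · simp only [rowM, Matrix.of_apply, if_neg hj]
      rw [qA_sum]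
      exact Dvd.dvd.mul_left (ln_dvd_ww_add a i) _
  set B : Finset (ZMod p) := A.filter fun a => ∀ i : ZMod p, ln a i ∣ Em with hB
  have hBs : B.card ≤ s := by
    have h := degC Em hE hDE (B ×ˢ (univ : Finset (ZMod p))) (fun _ => 1) (by
      intro t ht
      rw [pow_one]
      have h1 := (mem_product.1 ht).1
      rw [hB, mem_filter] at h1
      exact h1.2 t.2)
    rw [Finset.sum_const, card_product, card_univ, ZMod.card] at h
    have h1 : (r : ℤ) * e + (s + 1 - r) * p < (s + 1) * p := by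
      have h2 : (r : ℤ) * e < r * p := by
        apply mul_lt_mul_of_pos_left hep
        exact_mod_cast hr1
      linarith
    have h3 : ((B.card : ℤ)) * p < (s + 1) * p := by
      have : (((B.card * p) • 1 : ℕ) : ℤ) = (B.card : ℤ) * p := by simp
      rw [this] at h
      linarith
    have h4 : (B.card : ℤ) < s + 1 := lt_of_mul_lt_mul_right h3 hp.le
    omega
  have hBA : B ⊆ A := filter_subset _ _
  have hMd : (((A.card - B.card) * (Wd r I).card : ℕ) : ℤ) ≤ r * e := by
    have h := degC Mm hM hDM ((A \ B) ×ˢ (Wd r I)) (fun _ => 1) (by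
      intro t ht
      obtain ⟨h1, h2⟩ := mem_product.1 ht
      rw [mem_sdiff] at h1
      have hE1 := hlE t.1 h1.1 t.2 h2
      rcases val Em Mm hE hM hτ t.1 with h3 | h3
      · exact h3 t.2 1 (by rwa [pow_one])
      · exact absurd (by rw [hB, mem_filter]; exact ⟨h1.1, h3⟩) h1.2)
    rw [Finset.sum_const, card_product, Finset.card_sdiff_of_subset hBA] at h
    simpa using h
  have hW : (Wd r I).card ≤ I.card := card_le_card (filter_subset _ _)
  have hwin := win r hr1 I
  -- final computation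
  have hBle : B.card ≤ A.card := card_le_card hBA
  have c1 : A.card * I.card ≤ (A.card - B.card) * (Wd r I).card + s * I.card +
      s * A.card * bb I := by
    have d1 : A.card * I.card ≤ A.card * ((Wd r I).card + (r - 1) * bb I) :=
      Nat.mul_le_mul_left _ hwin
    have d2 : A.card * (Wd r I).card = (A.card - B.card) * (Wd r I).card +
        B.card * (Wd r I).card := by
      rw [← add_mul, Nat.sub_add_cancel hBle]
    have d3 : B.card * (Wd r I).card ≤ s * I.card := Nat.mul_le_mul hBs hW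
    have d4 : A.card * ((r - 1) * bb I) ≤ s * A.card * bb I := by
      calc A.card * ((r - 1) * bb I) ≤ A.card * (s * bb I) :=
            Nat.mul_le_mul_left _ (Nat.mul_le_mul_right _ (by omega))
        _ = s * A.card * bb I := by ring
    rw [mul_add] at d1
    omega
  have c2 : ((A.card * I.card : ℕ) : ℤ) ≤ (((A.card - B.card) * (Wd r I).card : ℕ) : ℤ) +
      (s : ℤ) * I.card + (s : ℤ) * A.card * bb I := by
    exact_mod_cast c1
  have c3 : (r : ℤ) * e ≤ (s + 1) * e := by
    apply mul_le_mul_of_nonneg_right _ he0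
    exact_mod_cast hr2
  linarith

end DilW
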