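import Pool.Agent.Lib.DilW.DOT
import Pool.Agent.Lib.DilW.LemA

/-!
# DilW.InjM: a polynomial of small degree is determined by its Taylor coefficients on `Idx`

PROOF. Suppose `M ≠ 0`. For every `z`: `OG M z (s - NN A I z)` (`i + j < s - NN` means `i, j < s` and `(z,(i,j)) ∈ Idx`).
With `OG_RR`, `OG_mul`: `OG (RR A I * M) z s` (order `NN + (s - NN) ≥ s`). `DB (n m + (a - 1)) (RR A I * M)`
(`DB_RR`, `DB_mul`), so by `dOne` `RR A I * M = ∑_{β ≤ s} g β * (ww^β * vv^(s-β))` with `DB e (g β)`,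
`e = n m + (a - 1) - p s`. This is not 0 (`RR A I ≠ 0`, product of the nonzero `ln a i`). For `a' ∈ A`, `i ∈ I`:
`ln a' i ∣ RR A I ∣` this sum, and modulo `ln a' i` `ww^β ≡ C ((-a')^β) vv^β` (`ln_dvd_ww_add`,
`sub_dvd_pow_sub_pow`), so `ln a' i ∣ vv^s * ∑ C ((-a')^β) * g β`; `ln_dvd_cancel`. `lemA` contradicts `hc`.
-/

set_option autoImplicit false

open Finset MvPolynomial

namespace DilW

variable {p : ℕ} [Fact p.Prime]

theorem RR_ne_zero (A I : Finset (ZMod p)) : (RR A I : S p) ≠ 0 := by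
  unfold RR
  rw [Finset.prod_ne_zero_iff]
  intro a _
  rw [Finset.prod_ne_zero_iff]
  intro i _
  exact ln_ne_zero a i

theorem ln_dvd_RR {A I : Finset (ZMod p)} {a i : ZMod p} (ha : a ∈ A) (hi : i ∈ I) :
    (ln a i : S p) ∣ RR A I := by
  unfold RR
  exact dvd_trans (Finset.dvd_prod_of_mem (fun i => (ln a i : S p)) hi)
    (Finset.dvd_prod_of_mem (fun a => ∏ i ∈ I, (ln a i : S p)) ha)

theorem injM (A I : Finset (ZMod p)) {s a : ℕ} (hs : 1 ≤ s)
    (hD : A.card * I.card ≤ (s + 1) * p)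
    (hc : ((s : ℤ) + 1) * ((A.card * I.card : ℕ) + ((a : ℤ) - 1) - p * s) +
      (s : ℤ) * A.card * bb I + (s : ℤ) * I.card < (A.card * I.card : ℕ))
    (M : S p) (hM : DB ((a : ℤ) - 1) M)
    (h : ∀ q ∈ Idx s A I, jt M q.1 q.2.1 q.2.2 = 0) : M = 0 := by
  by_contra hM0
  have hOG : ∀ z, OG (RR A I * M) z s := by
    intro z
    have h1 : OG M z (s - NN A I z) := by
      intro i j hij
      refine h (z, (i, j)) ?_
      unfold Idx
      rw [Finset.mem_filter]
      refine ⟨?_, ?_⟩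
      · rw [Finset.mem_product, Finset.mem_product]
        refine ⟨Finset.mem_univ _, ?_, ?_⟩
        · rw [Finset.mem_range]
          show i < s
          omega
        · rw [Finset.mem_range]
          show j < s
          omega
      · show i + j + NN A I z < s
        omega
    have h2 := OG_mul (OG_RR A I z) h1
    intro i j hij
    exact h2 i j (by omega)
  have hDB : DB (((A.card * I.card : ℕ) : ℤ) + ((a : ℤ) - 1)) (RR A I * M) :=
    DB_mul (DB_RR A I) hM
  obtain ⟨g, hg1, hg2⟩ := dOne (s := s) (RR A I * M) hDB hOG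
  have hne : (RR A I * M : S p) ≠ 0 := mul_ne_zero (RR_ne_zero A I) hM0
  have hl : ∀ b ∈ A, ∀ i ∈ I, (ln b i : S p) ∣ ∑ β ∈ range (s + 1), C ((-b) ^ β) * g β := by
    intro b hb i hi
    refine ln_dvd_cancel b i s _ ?_
    have e1 : vv ^ s * ∑ β ∈ range (s + 1), C ((-b) ^ β) * g β =
        RR A I * M + ∑ β ∈ range (s + 1),
          g β * (C ((-b) ^ β) * vv ^ s - ww ^ β * vv ^ (s - β)) := by
      conv_rhs => rw [hg1]
      rw [← Finset.sum_add_distrib, Finset.mul_sum]
      refine Finset.sum_congr rfl fun β _ => ?_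
      ring
    rw [e1]
    refine dvd_add (dvd_mul_of_dvd_left (ln_dvd_RR hb hi) M) (Finset.dvd_sum fun β hβ => ?_)
    refine dvd_mul_of_dvd_right ?_ (g β)
    have hβ' : β ≤ s := by
      have := Finset.mem_range.mp hβ
      omega
    have e2 : (C ((-b) ^ β) * vv ^ s - ww ^ β * vv ^ (s - β) : S p) =
        ((C (-b) * vv) ^ β - ww ^ β) * vv ^ (s - β) := by
      have e3 : (vv ^ s : S p) = vv ^ β * vv ^ (s - β) := by
        rw [← pow_add, Nat.add_sub_cancel' hβ']
      rw [e3, mul_pow, ← C_pow]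
      ring
    rw [e2]
    refine dvd_mul_of_dvd_left (dvd_trans ?_ (sub_dvd_pow_sub_pow _ _ β)) _
    have e4 : (C (-b) * vv - ww : S p) = -(ww + C b * vv) := by
      rw [C_neg]
      ring
    rw [e4, dvd_neg]
    exact ln_dvd_ww_add b i
  have hA := lemA A I hs (((A.card * I.card : ℕ) : ℤ) + ((a : ℤ) - 1) - p * s) g hg2 hl
    (by rw [← hg1]; exact hne) hD
  linarith

end DilW
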