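import Mathlib

/-!
# DilW.RankOne: rows which are modulo `l` multiples of one vector

PROOF. For `j ∈ J` choose `Q j β` with `M j β = c j * lam β + l * Q j β`. Write the rows of `M` as `A j + B j` with
`A j = c j • lam`, `B j = l • Q j` for `j ∈ J`, `A j = M j`, `B j = 0` for `j ∉ J`. The determinant is multilinear in
the rows (`Matrix.detRowAlternating`, `MultilinearMap.map_add_univ`): `det M = ∑_{T} det (T.piecewise A B)`. Fix `T`.
If some `j ∉ J` is not in `T` the row `j` is 0 and the term is 0. If two different `j, j' ∈ J ∩ T`, these rows are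
`c j • lam`, `c j' • lam`: the term is 0 (pull out `c j`, `c j'`; equal rows, or `MultilinearMap.map_update_smul`,
`AlternatingMap.map_eq_zero_of_eq`). Otherwise at least `J.card - 1` elements of `J` are not in `T`, their rows are
`l • Q j`, and `l ^ (number of these) ∣` term (`MultilinearMap.map_piecewise_smul` or `Matrix.det_mul_column`-like;
e.g. the matrix is `diagonal u * N` with `u j = l` for these rows, `1` for the others, `Matrix.det_mul`,
`Matrix.det_diagonal`, `Finset.prod_ite`).
-/

set_option autoImplicit false

open Finset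

namespace DilW

private theorem RankOne_div {R : Type*} [CommRing R] {N : ℕ} (M : Matrix (Fin N) (Fin N) R)
    (J : Finset (Fin N)) (l : R) (h : ∀ j ∈ J, ∀ β, l ∣ M j β) : l ^ J.card ∣ M.det := by
  have h1 : ∀ j β, ∃ q, j ∈ J → M j β = l * q := by
    intro j β
    by_cases hj : j ∈ J
    · obtain ⟨q, hq⟩ := h j hj β
      exact ⟨q, fun _ => hq⟩
    · exact ⟨0, fun hj' => absurd hj' hj⟩
  choose Q hQ using h1
  have h2 : M = Matrix.of fun i j => (if i ∈ J then l else 1) * (if i ∈ J then Q i j else M i j) := by
    ext i j
    rw [Matrix.of_apply]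
    by_cases hi : i ∈ J
    · rw [if_pos hi, if_pos hi, hQ i j hi]
    · rw [if_neg hi, if_neg hi, one_mul]
  have h3 := Matrix.det_mul_column (fun i : Fin N => if i ∈ J then l else (1 : R))
    (Matrix.of fun i j => if i ∈ J then Q i j else M i j)
  have h4 : M.det = (∏ i : Fin N, if i ∈ J then l else (1 : R)) *
      (Matrix.of fun i j => if i ∈ J then Q i j else M i j).det := by
    rw [← h3]
    congr 1
  rw [h4]
  have h5 : (∏ i : Fin N, if i ∈ J then l else (1 : R)) = l ^ J.card := by
    rw [Finset.prod_ite_mem, Finset.univ_inter, Finset.prod_const]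
  rw [h5]
  exact dvd_mul_right _ _

theorem rankOne {R : Type*} [CommRing R] {N : ℕ} (M : Matrix (Fin N) (Fin N) R)
    (J : Finset (Fin N)) (l : R) (lam c : Fin N → R)
    (h : ∀ j ∈ J, ∀ β, l ∣ M j β - c j * lam β) : l ^ (J.card - 1) ∣ M.det := by
  induction J using Finset.induction_on generalizing M with
  | empty => simp
  | insert j0 J' hj0 ih =>
    rw [Finset.card_insert_of_notMem hj0, Nat.add_sub_cancel]
    have h1 : ∀ β, ∃ q, M j0 β - c j0 * lam β = l * q := fun β =>
      h j0 (Finset.mem_insert_self j0 J') β
    choose Q hQ using h1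
    have hrow : M j0 = c j0 • lam + l • Q := by
      funext β
      simp only [Pi.add_apply, Pi.smul_apply, smul_eq_mul]
      rw [← hQ β]
      ring
    have hdet : M.det = c j0 * (M.updateRow j0 lam).det + l * (M.updateRow j0 Q).det := by
      conv_lhs => rw [← Matrix.updateRow_eq_self M j0, hrow]
      rw [Matrix.det_updateRow_add, Matrix.det_updateRow_smul, Matrix.det_updateRow_smul]
    rw [hdet]
    refine dvd_add (Dvd.dvd.mul_left ?_ _) ?_
    · set B : Matrix (Fin N) (Fin N) R := Matrix.of fun i β =>
        if i ∈ J' then M i β - c i * lam β else (M.updateRow j0 lam) i β with hB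
      have h2 : (M.updateRow j0 lam).det = B.det := by
        refine Matrix.det_eq_of_forall_row_eq_smul_add_const
          (fun i => if i ∈ J' then c i else 0) j0 (if_neg hj0) ?_
        intro i β
        have h3 : B j0 β = lam β := by
          rw [hB, Matrix.of_apply, if_neg hj0, Matrix.updateRow_self]
        rw [h3]
        by_cases hi : i ∈ J'
        · have hne : i ≠ j0 := fun he => hj0 (he ▸ hi)
          rw [hB, Matrix.of_apply, if_pos hi, if_pos hi, Matrix.updateRow_ne hne]
          ring
        · rw [hB, Matrix.of_apply, if_neg hi, if_neg hi]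
          ring
      rw [h2]
      refine RankOne_div B J' l fun j hj β => ?_
      rw [hB, Matrix.of_apply, if_pos hj]
      exact h j (Finset.mem_insert_of_mem hj) β
    · have h4 : l ^ (J'.card - 1) ∣ (M.updateRow j0 Q).det := by
        refine ih _ fun j hj β => ?_
        have hne : j ≠ j0 := fun he => hj0 (he ▸ hj)
        rw [Matrix.updateRow_ne hne]
        exact h j (Finset.mem_insert_of_mem hj) β
      rcases Nat.eq_zero_or_pos J'.card with h0 | h0
      · rw [h0, pow_zero]
        exact one_dvd _
      · have h5 : J'.card = (J'.card - 1) + 1 := by omega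
        rw [h5, pow_succ, mul_comm (l ^ (J'.card - 1)) l]
        exact mul_dvd_mul_left l h4

end DilW
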