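import Pool.Agent.Lib.DilW.ARow
import Pool.Agent.Lib.DilW.Val
import Pool.Agent.Lib.DilW.DegC
import Pool.Agent.Lib.DilW.Win
import Pool.Agent.Lib.DilW.Compl
import Pool.Agent.Lib.DilW.LSh
import Pool.Agent.Lib.DilW.RankOne

/-!
# DilW.LemB2: second zero estimate, the row `gt` is independent of the others

PROOF. `ρ = shf s ξ`, `n = A.card`, `m = I.card`, `b = bb I`.
* `M = det (rowM s r ρ (unit vectors)) ≠ 0` (`compl_unit`), `DB (r g) M` (`DB_det`).
* `compl_unit` for `r + 1` rows `ρ' = Function.update ρ r (gt s)` gives `k`, and `rowM s (r+1) ρ' c = rowM s r ρ c'` with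
  `c' j = gt s` for `j = r`, `c' j = Pi.single (k j) 1` for `j ≠ r`. So `E = det (rowM s r ρ c') ≠ 0`,
  `DB (r g + s p) E` (`DB_gt`, `DB_single`).
* `lshTau` (`shf_succ`, `tr_gt`, `tr_single`) and `val E M`.
* For `a ∈ A`, `i ∈ Wd r I`: the rows `0, ..., r` of `E` are modulo `ln a i` multiples of `C ((-a)^β)` (`shf_rank`,
  `gt_rank`), so `ln a i ^ r ∣ E` (`rankOne`, `J` the first `r + 1` indices).
* `B` = the `a ∈ A` with `ln a i ∣ E` for all `i`: `degC E`: `p |B| ≤ r g + s p < (s^2 + s) p` (`g < s p`, `1 ≤ r ≤ s`; note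
  `r g ≤ r (s p - 1) < s * (s p)`), so `|B| ≤ s^2 + s`.
* For `a ∈ A \ B`, `i ∈ Wd r I`: `ln a i ^ r ∣ M` (`val`). `degC M`, `k = r`: `r (n - |B|) W ≤ r g`, so
  `(n - |B|) W ≤ g` (`W = |Wd r I|`), in particular `0 ≤ g`.
* `win`: `m ≤ W + (r-1) b`: `n m ≤ g + |B| m + (r-1) n b ≤ g + (s^2+s) m + s n b`; multiply by `s`.
-/

set_option autoImplicit false

open Finset MvPolynomial

namespace DilW

variable {p : ℕ} [Fact p.Prime]

private theorem LemB2_detM {s r : ℕ} (hr' : r ≤ s) (g : ℤ) (ξ : ℕ → S p)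
    (hξ : ∀ β ≤ s, DB g (ξ β)) (c : ℕ → Fin (s + 1) → S p) (e : ℤ)
    (hc : ∀ j β, DB (if j = r then e else 0) (c j β)) :
    DB ((r : ℤ) * g + e) (rowM s r (shf s ξ) c).det := by
  have h := DB_det (rowM s r (shf s ξ) c)
    (fun j => (if (j : ℕ) < r then g else 0) + (if (j : ℕ) = r then e else 0)) (by
      intro j β
      unfold rowM
      by_cases hj : (j : ℕ) < r
      · have hj2 : ¬ (j : ℕ) = r := by omega
        simp only [Matrix.of_apply, if_pos hj, if_neg hj2, add_zero]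
        exact DB_shf hξ _ _
      · simp only [Matrix.of_apply, if_neg hj, zero_add]
        exact hc _ _)
  refine DB_mono h (le_of_eq ?_)
  rw [Finset.sum_add_distrib, Fin.sum_univ_eq_sum_range (fun j : ℕ => if j < r then g else 0),
    Fin.sum_univ_eq_sum_range (fun j : ℕ => if j = r then e else 0)]
  congr 1
  · rw [← Finset.sum_filter]
    have : (range (s + 1)).filter (fun j => j < r) = range r := by
      ext j
      simp only [mem_filter, mem_range]
      omega
    rw [this]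
    simp
  · rw [Finset.sum_ite_eq']
    rw [if_pos (mem_range.mpr (by omega))]

private theorem LemB2_num (n m W b B C s r p : ℕ) (g : ℤ) (hr : 1 ≤ r) (hr' : r ≤ s) (hp : 0 < p)
    (hg : g < s * p) (hg0 : 0 ≤ g) (hB : (B : ℤ) * p ≤ r * g + s * p) (hC : (C : ℤ) * W ≤ g)
    (hn : n = B + C) (hW : W ≤ m) (hm : m ≤ W + (r - 1) * b) :
    (s : ℤ) * ((n * m : ℕ) : ℤ) ≤
      (s + 1) * g + (s : ℤ) ^ 2 * n * b + ((s : ℤ) ^ 2 + (s : ℤ) ^ 3) * m := by
  have hs1 : (1 : ℤ) ≤ s := by exact_mod_cast hr.trans hr'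
  have hp' : (0 : ℤ) < p := by exact_mod_cast hp
  have hrs : (r : ℤ) ≤ s := by exact_mod_cast hr'
  have h1 : (B : ℤ) ≤ (s : ℤ) ^ 2 + s := by
    have h2 : (r : ℤ) * g ≤ s * g := mul_le_mul_of_nonneg_right hrs hg0
    have h3 : (s : ℤ) * g ≤ s * (s * p) := mul_le_mul_of_nonneg_left hg.le (by linarith)
    have h4 : (B : ℤ) * p ≤ ((s : ℤ) ^ 2 + s) * p := by nlinarith
    exact le_of_mul_le_mul_right h4 hp'
  have hm' : (m : ℤ) ≤ W + s * b := by
    have h5 : m ≤ W + s * b := by
      refine hm.trans ?_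
      have : (r - 1) * b ≤ s * b := Nat.mul_le_mul_right b (by omega)
      omega
    exact_mod_cast h5
  have hW' : (W : ℤ) ≤ m := by exact_mod_cast hW
  have hn' : (n : ℤ) = B + C := by rw [hn]; push_cast; ring
  have hn0 : (0 : ℤ) ≤ n := by positivity
  have hm0 : (0 : ℤ) ≤ m := by positivity
  have hB0 : (0 : ℤ) ≤ B := by positivity
  have hb0 : (0 : ℤ) ≤ b := by positivity
  have h6 : (n : ℤ) * m ≤ n * W + n * (s * b) := by
    have := mul_le_mul_of_nonneg_left hm' hn0
    linarith [this, mul_add (n : ℤ) W (s * b)]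
  have h7 : (n : ℤ) * W ≤ B * m + g := by
    rw [hn', add_mul]
    have := mul_le_mul_of_nonneg_left hW' hB0
    linarith
  have h8 : (B : ℤ) * m ≤ ((s : ℤ) ^ 2 + s) * m := mul_le_mul_of_nonneg_right h1 hm0
  have h9 : (n : ℤ) * m ≤ g + ((s : ℤ) ^ 2 + s) * m + n * (s * b) := by linarith
  have h10 := mul_le_mul_of_nonneg_left h9 (show (0 : ℤ) ≤ s by linarith)
  push_cast
  nlinarith

theorem lemB2 (A I : Finset (ZMod p)) {s r : ℕ} (hr : 1 ≤ r) (hr' : r ≤ s) (g : ℤ)
    (hg : g < s * p) (ξ : ℕ → S p) (hξ : ∀ β ≤ s, DB g (ξ β))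
    (hl : ∀ a ∈ A, ∀ i ∈ I, ∀ β < s, ln a i ∣ ξ (β + 1) + C a * ξ β)
    (hind : LinearIndependent (S p) (fun j : Fin r => shf s ξ j))
    (hind' : LinearIndependent (S p)
      (fun j : Fin (r + 1) => (Function.update (shf s ξ) r (gt s) : ℕ → Fin (s + 1) → S p) j))
    (lam : S p) (κ : ℕ → S p) (hlam : lam ≠ 0)
    (h : lam • shf s ξ r = ∑ j ∈ range r, κ j • shf s ξ j) :
    (s : ℤ) * ((A.card * I.card : ℕ) : ℤ) ≤
      (s + 1) * g + (s : ℤ) ^ 2 * A.card * bb I + ((s : ℤ) ^ 2 + (s : ℤ) ^ 3) * I.card := by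
  classical
  obtain ⟨kM, hM⟩ := compl_unit (show r ≤ s + 1 by omega) (shf s ξ) hind
  obtain ⟨kE, hE'⟩ := compl_unit (show r + 1 ≤ s + 1 by omega)
    (Function.update (shf s ξ) r (gt s)) hind'
  set cM : ℕ → Fin (s + 1) → S p := fun j => Pi.single (kM j) 1 with hcM
  set cE : ℕ → Fin (s + 1) → S p := fun j => if j = r then gt s else Pi.single (kE j) 1 with hcE
  have hEq : rowM s (r + 1) (Function.update (shf s ξ) r (gt s)) (fun j => Pi.single (kE j) 1)
      = rowM s r (shf s ξ) cE := by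
    ext j β
    unfold rowM
    simp only [Matrix.of_apply, hcE]
    by_cases h1 : (j : ℕ) < r
    · have h2 : (j : ℕ) < r + 1 := by omega
      have h3 : (j : ℕ) ≠ r := by omega
      rw [if_pos h2, if_pos h1, Function.update_of_ne h3]
    · by_cases h2 : (j : ℕ) = r
      · have h3 : (j : ℕ) < r + 1 := by omega
        rw [if_pos h3, if_neg h1, if_pos h2, h2, Function.update_self]
      · have h3 : ¬ (j : ℕ) < r + 1 := by omega
        rw [if_neg h3, if_neg h1, if_neg h2]
  rw [hEq] at hE'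
  have hEne : (rowM s r (shf s ξ) cE).det ≠ 0 := hE'
  have hMne : (rowM s r (shf s ξ) cM).det ≠ 0 := hM
  have hDBM : DB ((r : ℤ) * g + 0) (rowM s r (shf s ξ) cM).det := by
    refine LemB2_detM hr' g ξ hξ cM 0 ?_
    intro j β
    rw [ite_self]
    exact DB_single _ _ _
  have hDBE : DB ((r : ℤ) * g + s * p) (rowM s r (shf s ξ) cE).det := by
    refine LemB2_detM hr' g ξ hξ cE _ ?_
    intro j β
    simp only [hcE]
    by_cases h1 : j = r
    · rw [if_pos h1, if_pos h1]
      exact DB_gt _ _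
    · rw [if_neg h1, if_neg h1]
      exact DB_single _ _ _
  have hshift := lshTau hr (show r ≤ s + 1 by omega) (shf s ξ) cE cM
    (fun j β => shf_succ s ξ j β)
    (by
      intro j β
      simp only [hcE]
      by_cases h1 : j = r
      · rw [if_pos h1]
        exact tr_gt _ _ _
      · rw [if_neg h1]
        exact tr_single _ _ _ _)
    (by
      intro j β
      exact tr_single _ _ _ _) lam κ hlam h
  have hdivE : ∀ a ∈ A, ∀ i ∈ Wd r I, ln a i ^ r ∣ (rowM s r (shf s ξ) cE).det := by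
    intro a ha i hi
    have h1 := rankOne (rowM s r (shf s ξ) cE)
      (univ.filter fun j : Fin (s + 1) => (j : ℕ) ≤ r) (ln a i)
      (fun β => C ((-a) ^ (β : ℕ)))
      (fun j => if (j : ℕ) < r then shf s ξ j 0 else vv ^ s) (by
        intro j hj β
        rw [mem_filter] at hj
        unfold rowM
        simp only [Matrix.of_apply]
        by_cases h1 : (j : ℕ) < r
        · rw [if_pos h1, if_pos h1]
          exact shf_rank hl ha hi h1 β
        · have h2 : (j : ℕ) = r := by omega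
          rw [if_neg h1, if_neg h1]
          simp only [hcE]
          rw [if_pos h2]
          exact gt_rank s a i β)
    have h2 : (univ.filter fun j : Fin (s + 1) => (j : ℕ) ≤ r).card = r + 1 := by
      have h3 : (univ.filter fun j : Fin (s + 1) => (j : ℕ) ≤ r) =
          Finset.Iic (⟨r, by omega⟩ : Fin (s + 1)) := by
        ext j
        simp [Fin.le_def]
      rw [h3, Fin.card_Iic]
    rw [h2] at h1
    exact h1
  set B : Finset (ZMod p) := A.filter fun a => ∀ i : ZMod p,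
    ln a i ∣ (rowM s r (shf s ξ) cE).det with hB
  have hp0 : 0 < p := (Fact.out : p.Prime).pos
  have hB1 := degC _ hEne hDBE (B ×ˢ (univ : Finset (ZMod p))) (fun _ => 1) (by
    intro t ht
    rw [mem_product] at ht
    have h1 := (mem_filter.mp ht.1).2 t.2
    rw [pow_one]
    exact h1)
  have hC1 := degC _ hMne hDBM ((A \ B) ×ˢ Wd r I) (fun _ => r) (by
    intro t ht
    rw [mem_product] at ht
    obtain ⟨h1, h2⟩ := ht
    rw [mem_sdiff] at h1
    rcases val _ _ hEne hMne hshift t.1 with h3 | h3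
    · exact h3 t.2 r (hdivE t.1 h1.1 t.2 h2)
    · exact absurd (mem_filter.mpr ⟨h1.1, h3⟩) h1.2)
  have hBn : (B.card : ℤ) * p ≤ r * g + s * p := by
    have : ((∑ _t ∈ B ×ˢ (univ : Finset (ZMod p)), 1 : ℕ) : ℤ) = (B.card : ℤ) * p := by
      rw [Finset.sum_const, card_product, Finset.card_univ, ZMod.card]
      simp
    rw [this] at hB1
    exact hB1
  have hr0 : (0 : ℤ) < r := by exact_mod_cast hr
  have hCn : (((A \ B).card : ℕ) : ℤ) * (Wd r I).card ≤ g := by
    have : ((∑ _t ∈ (A \ B) ×ˢ Wd r I, r : ℕ) : ℤ) =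
        (r : ℤ) * ((((A \ B).card : ℕ) : ℤ) * (Wd r I).card) := by
      rw [Finset.sum_const, card_product]
      simp
      ring
    rw [this, add_zero] at hC1
    exact le_of_mul_le_mul_left hC1 hr0
  have hg0 : 0 ≤ g := le_trans (by positivity) hCn
  have hBA : B ⊆ A := filter_subset _ _
  refine LemB2_num A.card I.card (Wd r I).card (bb I) B.card (A \ B).card s r p g hr hr' hp0 hg
    hg0 hBn hCn ?_ (card_le_card (filter_subset _ _)) (win r hr I)
  have := card_sdiff_add_card_eq_card hBA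
  omega

end DilW
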