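import Pool.Agent.Lib.DilW.ARow
import Pool.Agent.Lib.DilW.DegC
import Pool.Agent.Lib.DilW.Win
import Pool.Agent.Lib.DilW.Compl
import Pool.Agent.Lib.DilW.RankOne

/-!
# DilW.LemB3: second zero estimate, the row `gt` depends on the others

PROOF. `ρ = shf s ξ`, `n = A.card`, `m = I.card`, `b = bb I`.
* As `hind` and not `hind'`: there are `mu ≠ 0`, `κ` with `mu • gt s = ∑_{j<r} κ j • ρ j`
  (`Fintype.not_linearIndependent_iff`, `Fin.sum_univ_castSucc`; the coefficient of `gt` is not 0, otherwise `hind` fails).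
* `T` = a set of `s + 1` elements of `ZMod p` with `-t ∉ A` for `t ∈ T` (`n + s + 1 ≤ p`,
  `Finset.exists_subset_card_eq` in the complement of `-A`). `compl` with `q t = gm s t`, `ι = T`: a vector `φ` with
  `gm s t ⬝ᵥ φ = 0` for all `t ∈ T` gives the polynomial `∑ φ β Y^β` over the domain `S p` of degree `≤ s` with the
  `s + 1` roots `C t`: `φ = 0` (`Polynomial.eq_zero_of_natDegree_lt_card_of_eval_eq_zero` or
  `Matrix.det_vandermonde_ne_zero_iff` and `Matrix.eq_zero_of_mulVec_eq_zero`). So there are `t j ∈ T` with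
  `D = det (rowM s r ρ (fun j => gm s (t j))) ≠ 0`; the `t j`, `r ≤ j ≤ s`, are distinct (equal rows:
  `Matrix.det_zero_of_row_eq`). `DB (r g) D` (`DB_det`, `DB_gm`).
* For `r ≤ j ≤ s` and every `i`: `ln (-(t j)) i ∣ D`. The matrix `N` with the row `j` replaced by `gt s` has determinant 0
  (`mu * det N = ∑ κ l det (updateRow .. (ρ l))`, equal rows). By `gt_rank` with `a = -(t j)` the row `gt s` is
  `vv^s • gm s (t j)` modulo `ln (-(t j)) i`, so `ln (-(t j)) i ∣ det N - vv^s * D = - vv^s * D`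
  (`det_updateRow_sub`, a row divisible by `l` gives a determinant divisible by `l`), `ln_dvd_cancel`.
* For `a ∈ A`, `i ∈ Wd r I`: `ln a i ^ (r-1) ∣ D` (`shf_rank`, `rankOne`, `J` the first `r` indices).
* `degC D` with `T' = A ×ˢ Wd r I` (exponent `r - 1`) and the `(-(t j), i)`, `r ≤ j ≤ s`, all `i` (exponent 1), disjoint:
  `(r-1) n W + (s+1-r) p ≤ r g`.
* `win`: `m ≤ W + (r-1) b`. Multiply by `s + 1` and use `(s+1) p ≥ n m`:
  `(s+1) r g ≥ (s+1)(r-1) n m - (s+1)(r-1)^2 n b + (s+1-r) n m = r s n m - (s+1)(r-1)^2 n b`, and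
  `(s+1)(r-1)^2 ≤ (s+1)(s-1) r ≤ s^2 r`; divide by `r`.
-/

set_option autoImplicit false

open Finset MvPolynomial

namespace DilW

variable {p : ℕ} [Fact p.Prime]

private theorem lemB3_dep {R : Type*} [CommRing R] [IsDomain R] {s r : ℕ}
    (ρ : ℕ → Fin (s + 1) → R) (w : Fin (s + 1) → R)
    (hind : LinearIndependent R (fun j : Fin r => ρ j))
    (hind' : ¬ LinearIndependent R
      (fun j : Fin (r + 1) => (Function.update ρ r w : ℕ → Fin (s + 1) → R) j)) :
    ∃ (mu : R) (κ : Fin r → R), mu ≠ 0 ∧ mu • w = ∑ j : Fin r, κ j • ρ j := by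
  rw [Fintype.not_linearIndependent_iff] at hind'
  obtain ⟨g, hg, i, hi⟩ := hind'
  rw [Fin.sum_univ_castSucc] at hg
  have h1 : ∀ j : Fin r, (Function.update ρ r w : ℕ → Fin (s + 1) → R)
      ((Fin.castSucc j : Fin (r + 1)) : ℕ) = ρ j := by
    intro j
    rw [Fin.val_castSucc, Function.update_of_ne (ne_of_lt j.2)]
  have h2 : (Function.update ρ r w : ℕ → Fin (s + 1) → R) ((Fin.last r : Fin (r + 1)) : ℕ) = w := by
    rw [Fin.val_last, Function.update_self]
  simp only [h1, h2] at hg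
  refine ⟨g (Fin.last r), fun j => - g (Fin.castSucc j), ?_, ?_⟩
  · intro h0
    rw [h0, zero_smul, add_zero] at hg
    have h3 := Fintype.linearIndependent_iff.1 hind (fun j => g (Fin.castSucc j)) hg
    apply hi
    exact Fin.lastCases (motive := fun i => g i = 0) h0 (fun j => h3 j) i
  · simp only [neg_smul, Finset.sum_neg_distrib]
    rw [← sub_eq_zero, sub_neg_eq_add]
    exact (add_comm _ _).trans hg

private theorem lemB3_vand {s : ℕ} (T : Finset (ZMod p)) (hT : T.card = s + 1)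
    (φ : Fin (s + 1) → S p) (h : ∀ t ∈ T, gm s t ⬝ᵥ φ = 0) : φ = 0 := by
  classical
  let e : Fin (s + 1) ≃ T := (T.equivFinOfCardEq hT).symm
  have hdet : (Matrix.vandermonde (fun i => (C ((e i : T) : ZMod p) : S p))).det ≠ 0 := by
    rw [Matrix.det_vandermonde_ne_zero_iff]
    intro i j hij
    exact e.injective (Subtype.ext (C_injective _ _ hij))
  apply Matrix.eq_zero_of_mulVec_eq_zero hdet
  funext i
  have h1 := h (e i) (e i).2
  rw [Pi.zero_apply, ← h1]
  simp only [Matrix.mulVec, dotProduct, Matrix.vandermonde_apply, gm, map_pow]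

private theorem lemB3_row {R : Type*} [CommRing R] {n : ℕ} (M : Matrix (Fin n) (Fin n) R)
    (j : Fin n) (v : Fin n → R) (l : R) (h : ∀ β, l ∣ v β) : l ∣ (M.updateRow j v).det := by
  choose q hq using h
  have h1 : v = l • q := by
    funext β
    rw [Pi.smul_apply, smul_eq_mul]
    exact hq β
  rw [h1, Matrix.det_updateRow_smul]
  exact Dvd.intro _ rfl

private theorem lemB3_det0 {R : Type*} [CommRing R] [IsDomain R] {s r : ℕ}
    (ρ c : ℕ → Fin (s + 1) → R) (w : Fin (s + 1) → R) (mu : R) (κ : Fin r → R) (hmu : mu ≠ 0)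
    (h : mu • w = ∑ l : Fin r, κ l • ρ l) (j : Fin (s + 1)) (hj : r ≤ (j : ℕ)) :
    ((rowM s r ρ c).updateRow j w).det = 0 := by
  have h2 : ∀ v : Fin (s + 1) → R, ((rowM s r ρ c).updateRow j v).det =
      (Matrix.detRowAlternating.toMultilinearMap.toLinearMap (rowM s r ρ c) j) v := fun v => rfl
  have h1 : mu * ((rowM s r ρ c).updateRow j w).det = 0 := by
    rw [h2, ← smul_eq_mul, ← map_smul, h, map_sum]
    apply Finset.sum_eq_zero
    intro l _
    rw [map_smul, ← h2]
    have hne : (⟨l, by omega⟩ : Fin (s + 1)) ≠ j := by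
      intro he
      have := congrArg Fin.val he
      simp only at this
      omega
    have h3 : ((rowM s r ρ c).updateRow j (ρ l)).det = 0 := by
      apply Matrix.det_zero_of_row_eq hne
      rw [Matrix.updateRow_self, Matrix.updateRow_ne hne]
      show (if ((⟨l, _⟩ : Fin (s + 1)) : ℕ) < r then ρ l else c l) = ρ l
      rw [if_pos l.2]
    rw [h3, smul_zero]
  exact (mul_eq_zero.1 h1).resolve_left hmu

private theorem lemB3_num {s r n m W b pp : ℕ} {g : ℤ} (hr : 1 ≤ r) (hr' : r ≤ s)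
    (h1 : ((((r - 1) * (n * W) + (s + 1 - r) * pp : ℕ)) : ℤ) ≤ r * g)
    (h2 : m ≤ W + (r - 1) * b) (h3 : n * m ≤ (s + 1) * pp) :
    (s : ℤ) * ((n * m : ℕ) : ℤ) ≤ (s + 1) * g + (s : ℤ) ^ 2 * n * b := by
  obtain ⟨q, rfl⟩ : ∃ q, r = q + 1 := ⟨r - 1, by omega⟩
  obtain ⟨d, rfl⟩ : ∃ d, s = q + 1 + d := ⟨s - (q + 1), by omega⟩
  have e1 : q + 1 - 1 = q := by omega
  have e2 : q + 1 + d + 1 - (q + 1) = d + 1 := by omega
  rw [e1, e2] at h1
  rw [e1] at h2
  push_cast at h1 ⊢
  have h2' : (m : ℤ) ≤ W + q * b := by exact_mod_cast h2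
  have h3' : (n : ℤ) * m ≤ (q + 1 + d + 1) * pp := by exact_mod_cast h3
  have hn : (0 : ℤ) ≤ n := by positivity
  have hq : (0 : ℤ) ≤ q := by positivity
  have hd : (0 : ℤ) ≤ d := by positivity
  have hb : (0 : ℤ) ≤ b := by positivity
  have hpos : (0 : ℤ) < (q : ℤ) + 1 := by positivity
  -- multiply by `q + 1`
  have k1 : (q : ℤ) * (n * m) ≤ q * (n * W) + q * (n * (q * b)) := by
    have : (n : ℤ) * m ≤ n * (W + q * b) := mul_le_mul_of_nonneg_left h2' hn
    have := mul_le_mul_of_nonneg_left this hq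
    linarith
  have k2 : ((q : ℤ) + 1 + d + 1) * (q * (n * m)) ≤
      (q + 1 + d + 1) * (q * (n * W) + q * (n * (q * b))) :=
    mul_le_mul_of_nonneg_left k1 (by positivity)
  have k3 : ((d : ℤ) + 1) * (n * m) ≤ (d + 1) * ((q + 1 + d + 1) * pp) :=
    mul_le_mul_of_nonneg_left h3' (by positivity)
  have k4 : ((q : ℤ) + 1 + d + 1) * ((q : ℤ) * (n * W) + (d + 1) * pp) ≤
      (q + 1 + d + 1) * ((q + 1) * g) := mul_le_mul_of_nonneg_left h1 (by positivity)
  have k5 : ((q : ℤ) + 1 + d + 1) * (q * (n * (q * b))) ≤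
      (q + 1) * ((q + 1 + d) ^ 2 * n * b) := by
    have : (0 : ℤ) ≤ (q + 1) * ((q + 1 + d) ^ 2 * n * b) -
      ((q : ℤ) + 1 + d + 1) * (q * (n * (q * b))) := by
      have e : ((q : ℤ) + 1) * ((q + 1 + d) ^ 2 * n * b) -
          ((q : ℤ) + 1 + d + 1) * (q * (n * (q * b))) =
          n * b * ((q + 1) * (q + 1 + d) ^ 2 - (q + 1 + d + 1) * q ^ 2) := by ring
      rw [e]
      have e3 : ((q : ℤ) + 1) * (q + 1 + d) ^ 2 - (q + 1 + d + 1) * q ^ 2 =
          q ^ 2 + 3 * q + 1 + (q ^ 2 + 4 * q + 2) * d + (q + 1) * d ^ 2 := by ring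
      rw [e3]
      positivity
    linarith
  have k6 : ((q : ℤ) + 1) * (((q : ℤ) + 1 + d) * (n * m)) ≤
      (q + 1) * ((q + 1 + d + 1) * g + (q + 1 + d) ^ 2 * n * b) := by
    nlinarith [k2, k3, k4, k5]
  exact le_of_mul_le_mul_left k6 hpos

theorem lemB3 (A I : Finset (ZMod p)) {s r : ℕ} (hr : 1 ≤ r) (hr' : r ≤ s) (g : ℤ)
    (ξ : ℕ → S p) (hξ : ∀ β ≤ s, DB g (ξ β))
    (hl : ∀ a ∈ A, ∀ i ∈ I, ∀ β < s, ln a i ∣ ξ (β + 1) + C a * ξ β)
    (hD : A.card * I.card ≤ (s + 1) * p) (hA : A.card + s + 1 ≤ p)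
    (hind : LinearIndependent (S p) (fun j : Fin r => shf s ξ j))
    (hind' : ¬ LinearIndependent (S p)
      (fun j : Fin (r + 1) => (Function.update (shf s ξ) r (gt s) : ℕ → Fin (s + 1) → S p) j)) :
    (s : ℤ) * ((A.card * I.card : ℕ) : ℤ) ≤ (s + 1) * g + (s : ℤ) ^ 2 * A.card * bb I := by
  classical
  obtain ⟨mu, κ, hmu, hmuκ⟩ := lemB3_dep (shf s ξ) (gt s) hind hind'
  -- the set `T`
  obtain ⟨T, hTsub, hTcard⟩ : ∃ T : Finset (ZMod p),
      T ⊆ (A.image (fun a => -a))ᶜ ∧ T.card = s + 1 := by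
    apply Finset.exists_subset_card_eq
    rw [Finset.card_compl, ZMod.card]
    have := Finset.card_image_le (s := A) (f := fun a : ZMod p => -a)
    omega
  have hTA : ∀ t ∈ T, -t ∉ A := by
    intro t ht hA'
    have h1 := hTsub ht
    rw [Finset.mem_compl] at h1
    exact h1 (Finset.mem_image.2 ⟨-t, hA', neg_neg t⟩)
  have hTne : Nonempty T := by
    have : T.Nonempty := by rw [← Finset.card_pos]; omega
    exact this.to_subtype
  obtain ⟨t, hD0⟩ := compl (by omega : r ≤ s + 1) (shf s ξ) hind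
    (fun t : T => gm s (t : ZMod p))
    (fun φ _ h2 => lemB3_vand T hTcard φ (fun t ht => h2 ⟨t, ht⟩))
  have hrowlt : ∀ j : Fin (s + 1), (j : ℕ) < r →
      rowM s r (shf s ξ) (fun j => gm s (t j : ZMod p)) j = shf s ξ j := by
    intro j hj
    show (if (j : ℕ) < r then shf s ξ j else gm s (t j : ZMod p)) = _
    rw [if_pos hj]
  have hrowge : ∀ j : Fin (s + 1), r ≤ (j : ℕ) →
      rowM s r (shf s ξ) (fun j => gm s (t j : ZMod p)) j = gm s (t j : ZMod p) := by
    intro j hj
    show (if (j : ℕ) < r then shf s ξ j else gm s (t j : ZMod p)) = _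
    rw [if_neg (by omega)]
  have hcard : (univ.filter fun j : Fin (s + 1) => (j : ℕ) < r).card = r := by
    rw [Fin.card_filter_val_lt]
    omega
  have hDB : DB (r * g) (rowM s r (shf s ξ) (fun j => gm s (t j : ZMod p))).det := by
    have h1 := DB_det (rowM s r (shf s ξ) (fun j => gm s (t j : ZMod p)))
      (fun j => if (j : ℕ) < r then g else 0) (by
        intro j β
        by_cases hj : (j : ℕ) < r
        · rw [hrowlt j hj, if_pos hj]
          exact DB_shf hξ j β
        · rw [hrowge j (by omega), if_neg hj]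
          exact DB_gm s _ β)
    have h2 : ∑ j : Fin (s + 1), (if (j : ℕ) < r then g else 0) = r * g := by
      rw [Finset.sum_ite, Finset.sum_const_zero, add_zero, Finset.sum_const, hcard]
      simp
    rw [h2] at h1
    exact h1
  have hinj : ∀ j j' : Fin (s + 1), r ≤ (j : ℕ) → r ≤ (j' : ℕ) →
      ((t j : T) : ZMod p) = (t j' : T) → j = j' := by
    intro j j' hj hj' he
    by_contra hne
    apply hD0
    apply Matrix.det_zero_of_row_eq hne
    rw [hrowge j hj, hrowge j' hj', he]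
  have hdiv1 : ∀ j : Fin (s + 1), r ≤ (j : ℕ) → ∀ i,
      ln (-((t j : T) : ZMod p)) i ∣ (rowM s r (shf s ξ) (fun j => gm s (t j : ZMod p))).det := by
    intro j hj i
    apply ln_dvd_cancel _ _ s
    set M := rowM s r (shf s ξ) (fun j => gm s (t j : ZMod p)) with hM
    have h0 : (M.updateRow j (gt s)).det = 0 :=
      lemB3_det0 (shf s ξ) _ (gt s) mu κ hmu hmuκ j hj
    have h1 : ln (-((t j : T) : ZMod p)) i ∣
        (M.updateRow j (gt s + (-(vv ^ s : S p)) • gm s (t j : ZMod p))).det := by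
      apply lemB3_row
      intro β
      have h2 := gt_rank s (-((t j : T) : ZMod p)) i β
      rw [neg_neg] at h2
      have e : (gt s + (-(vv ^ s : S p)) • gm s (t j : ZMod p) : Fin (s + 1) → S p) β =
          gt s β - vv ^ s * C (((t j : T) : ZMod p) ^ (β : ℕ)) := by
        rw [Pi.add_apply, Pi.smul_apply, smul_eq_mul, neg_mul, sub_eq_add_neg]
        rfl
      rw [e]
      exact h2
    rw [Matrix.det_updateRow_add, Matrix.det_updateRow_smul, h0, zero_add] at h1
    have h3 : M.updateRow j (gm s (t j : ZMod p)) = M := by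
      rw [← hrowge j hj]
      exact Matrix.updateRow_eq_self M j
    rw [h3, neg_mul] at h1
    exact (dvd_neg.1 h1)
  have hdiv2 : ∀ a ∈ A, ∀ i ∈ Wd r I,
      ln a i ^ (r - 1) ∣ (rowM s r (shf s ξ) (fun j => gm s (t j : ZMod p))).det := by
    intro a ha i hi
    have h1 := rankOne (rowM s r (shf s ξ) (fun j => gm s (t j : ZMod p)))
      (univ.filter fun j : Fin (s + 1) => (j : ℕ) < r) (ln a i)
      (fun β => C ((-a) ^ (β : ℕ))) (fun j => shf s ξ j 0) (by
        intro j hj β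
        have hj' : (j : ℕ) < r := (Finset.mem_filter.1 hj).2
        rw [hrowlt j hj']
        exact shf_rank hl ha hi hj' β)
    rw [hcard] at h1
    exact h1
  -- the second set of lines
  set U : Finset (ZMod p) := (univ.filter fun j : Fin (s + 1) => r ≤ (j : ℕ)).image
    (fun j : Fin (s + 1) => -((t j : T) : ZMod p)) with hUdef
  have hUcard : U.card = s + 1 - r := by
    rw [hUdef, Finset.card_image_of_injOn]
    · have h1 : (univ.filter fun j : Fin (s + 1) => r ≤ (j : ℕ)) =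
          (univ.filter fun j : Fin (s + 1) => (j : ℕ) < r)ᶜ := by
        ext j
        simp
      rw [h1, Finset.card_compl, hcard, Fintype.card_fin]
    · intro j hj j' hj' he
      have h1 : r ≤ (j : ℕ) := by simpa using hj
      have h2 : r ≤ (j' : ℕ) := by simpa using hj'
      exact hinj j j' h1 h2 (neg_injective he)
  have hUA : ∀ u ∈ U, u ∉ A := by
    intro u hu
    obtain ⟨j, _, rfl⟩ := Finset.mem_image.1 hu
    exact hTA _ (t j).2
  have hdisj : Disjoint (A ×ˢ Wd r I) (U ×ˢ (univ : Finset (ZMod p))) := by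
    rw [Finset.disjoint_left]
    intro z hz hz'
    exact hUA z.1 (Finset.mem_product.1 hz').1 (Finset.mem_product.1 hz).1
  have hdeg := degC _ hD0 hDB ((A ×ˢ Wd r I) ∪ (U ×ˢ (univ : Finset (ZMod p))))
    (fun z => if z.1 ∈ A then r - 1 else 1) (by
      intro z hz
      rcases Finset.mem_union.1 hz with h | h
      · have h1 := Finset.mem_product.1 h
        show ln z.1 z.2 ^ (if z.1 ∈ A then r - 1 else 1) ∣ _
        rw [if_pos h1.1]
        exact hdiv2 z.1 h1.1 z.2 h1.2
      · have h1 := Finset.mem_product.1 h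
        show ln z.1 z.2 ^ (if z.1 ∈ A then r - 1 else 1) ∣ _
        rw [if_neg (hUA z.1 h1.1), pow_one]
        obtain ⟨j, hj, hjz⟩ := Finset.mem_image.1 h1.1
        rw [← hjz]
        exact hdiv1 j (by simpa using hj) z.2)
  rw [Finset.sum_union hdisj] at hdeg
  have e1 : ∑ z ∈ A ×ˢ Wd r I, (if z.1 ∈ A then r - 1 else 1) =
      (r - 1) * (A.card * (Wd r I).card) := by
    rw [Finset.sum_congr rfl (g := fun _ => r - 1)]
    · rw [Finset.sum_const, Finset.card_product, smul_eq_mul, mul_comm]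
    · intro z hz
      rw [if_pos (Finset.mem_product.1 hz).1]
  have e2 : ∑ z ∈ U ×ˢ (univ : Finset (ZMod p)), (if z.1 ∈ A then r - 1 else 1) =
      (s + 1 - r) * p := by
    rw [Finset.sum_congr rfl (g := fun _ => 1)]
    · rw [Finset.sum_const, Finset.card_product, smul_eq_mul, mul_one, hUcard,
        Finset.card_univ, ZMod.card]
    · intro z hz
      rw [if_neg (hUA _ (Finset.mem_product.1 hz).1)]
  rw [e1, e2] at hdeg
  exact lemB3_num hr hr' hdeg (win r hr I) hD

end DilW
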