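import Pool.Agent.Lib.DilW.LemB1
import Pool.Agent.Lib.DilW.LemB2
import Pool.Agent.Lib.DilW.LemB3
import Pool.Agent.Lib.DilW.Rnk

/-!
# DilW.LemB: the second zero estimate

PROOF. `ρ = shf s ξ`, `ρ 0 ≠ 0` (`shf_zero`, `hne`), so `g ≥ 0` (`eq_zero_of_DB`). If `g ≥ s p`:
`(s+1) g ≥ s (s+1) p ≥ s n m`, done. Otherwise `rnk` gives `r`, `lam`, `κ`; `r = s + 1`: `lemB1`; `r ≤ s`: `lemB2` or
`lemB3`.
-/

set_option autoImplicit false

open Finset MvPolynomial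

namespace DilW

variable {p : ℕ} [Fact p.Prime]

theorem lemB (A I : Finset (ZMod p)) {s : ℕ} (g : ℤ) (ξ : ℕ → S p)
    (hξ : ∀ β ≤ s, DB g (ξ β)) (hne : ∃ β ≤ s, ξ β ≠ 0)
    (hl : ∀ a ∈ A, ∀ i ∈ I, ∀ β < s, ln a i ∣ ξ (β + 1) + C a * ξ β)
    (hD : A.card * I.card ≤ (s + 1) * p) (hA : A.card + s + 1 ≤ p) :
    (s : ℤ) * ((A.card * I.card : ℕ) : ℤ) ≤
      (s + 1) * g + (s : ℤ) ^ 2 * A.card * bb I + ((s : ℤ) ^ 2 + (s : ℤ) ^ 3) * I.card := by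
  have h0 : shf s ξ 0 ≠ 0 := by
    obtain ⟨β, hβ, hβ'⟩ := hne
    intro h
    apply hβ'
    have h1 := congrFun h (⟨β, Nat.lt_succ_of_le hβ⟩ : Fin (s + 1))
    rw [shf_zero, Pi.zero_apply] at h1
    exact h1
  have hg0 : 0 ≤ g := by
    by_contra hg
    obtain ⟨β, hβ, hβ'⟩ := hne
    exact hβ' (eq_zero_of_DB (not_le.1 hg) (hξ β hβ))
  have hD' : ((A.card * I.card : ℕ) : ℤ) ≤ ((s : ℤ) + 1) * p := by exact_mod_cast hD
  have hs0 : (0 : ℤ) ≤ s := Int.natCast_nonneg s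
  have hA0 : (0 : ℤ) ≤ A.card := Int.natCast_nonneg _
  have hI0 : (0 : ℤ) ≤ I.card := Int.natCast_nonneg _
  have hb0 : (0 : ℤ) ≤ bb I := Int.natCast_nonneg _
  have ht1 : (0 : ℤ) ≤ (s : ℤ) ^ 2 * A.card * bb I := by positivity
  have ht2 : (0 : ℤ) ≤ ((s : ℤ) ^ 2 + (s : ℤ) ^ 3) * I.card := by positivity
  by_cases hgp : (s : ℤ) * p ≤ g
  · have h1 : (s : ℤ) * ((A.card * I.card : ℕ) : ℤ) ≤ (s : ℤ) * (((s : ℤ) + 1) * p) :=
      mul_le_mul_of_nonneg_left hD' hs0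
    have h2 : ((s : ℤ) + 1) * ((s : ℤ) * p) ≤ ((s : ℤ) + 1) * g :=
      mul_le_mul_of_nonneg_left hgp (by omega)
    have h3 : (s : ℤ) * (((s : ℤ) + 1) * p) = ((s : ℤ) + 1) * ((s : ℤ) * p) := by ring
    linarith
  · obtain ⟨r, hr1, hr2, hind, lam, κ, hlam, hrel⟩ := rnk (shf s ξ) h0
    rcases Nat.lt_or_ge s r with hrs | hrs
    · obtain rfl : r = s + 1 := by omega
      have h1 := lemB1 A I g ξ hξ hl hind
      linarith
    · by_cases hind' : LinearIndependent (S p)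
          (fun j : Fin (r + 1) => (Function.update (shf s ξ) r (gt s) : ℕ → Fin (s + 1) → S p) j)
      · exact lemB2 A I hr1 hrs g (not_le.1 hgp) ξ hξ hl hind hind' lam κ hlam hrel
      · have h1 := lemB3 A I hr1 hrs g ξ hξ hl hD hA hind hind'
        linarith

end DilW
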