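import Pool.Agent.Lib.DilW.JetA

/-!
# DilW.NonD: nondegeneracy of the sum of the Taylor coefficients

PROOF. Fix `z`, `i, j < s` and put
`M = (X 0 - C z.1)^(s-1-i) * (X 1 - C z.2)^(s-1-j) * (1 - (X 0 - C z.1)^(p-1))^s * (1 - (X 1 - C z.2)^(p-1))^s`.
* At `z`: `tr z M = X 0^(s-1-i) * X 1^(s-1-j) * (1 - X 0^(p-1))^s * (1 - X 1^(p-1))^s`, and for `i', j' ≤ s - 1` the
  coefficient `jt M z i' j'` is 1 if `i' = s-1-i`, `j' = s-1-j`, else 0 (`(1 - X 0^(p-1))^s = 1 + X 0^(p-1) * U`,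
  `p - 1 ≥ s > s - 1`). So by `jt_mul` `jt (H * M) z (s-1) (s-1) = jt H z i j`.
* At `z' ≠ z`: if `z'.1 ≠ z.1`, `δ = z'.1 - z.1`, then `tr z' (1 - (X 0 - C z.1)^(p-1)) = 1 - (X 0 + C δ)^(p-1)` has
  constant term `1 - δ^(p-1) = 0` (`ZMod.pow_card_sub_one_eq_one`) and involves only `X 0`, so it is divisible by
  `X 0`, and `tr z' (H * M)` is divisible by `X 0^s`: the coefficient at `(s-1, s-1)` is 0. If `z'.2 ≠ z.2` the same.
So `LL s (H * M) = jt H z i j`.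
-/

set_option autoImplicit false

open Finset MvPolynomial

namespace DilW

variable {p : ℕ} [Fact p.Prime]

private theorem NonD_c0 {s : ℕ} (hs : 1 ≤ s) (G : S p) :
    coeff (ee (s - 1) (s - 1)) (X 0 ^ s * G) = 0 := by
  rw [X_pow_eq_monomial, coeff_monomial_mul', if_neg]
  intro h
  have h0 := h 0
  simp [ee] at h0
  omega

private theorem NonD_c1 {s : ℕ} (hs : 1 ≤ s) (G : S p) :
    coeff (ee (s - 1) (s - 1)) (X 1 ^ s * G) = 0 := by
  rw [X_pow_eq_monomial, coeff_monomial_mul', if_neg]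
  intro h
  have h0 := h 1
  simp [ee] at h0
  omega

private theorem NonD_tr0 (z : Pt p) (a : ZMod p) :
    tr z (X 0 - C a) = X 0 + C (z.1 - a) := by
  have h1 : tr z (X 0) = X 0 + C z.1 := by simp [tr]
  have h2 : tr z (C a) = C a := (tr z).commutes a
  rw [map_sub, h1, h2, C_sub]
  ring

private theorem NonD_tr1 (z : Pt p) (a : ZMod p) :
    tr z (X 1 - C a) = X 1 + C (z.2 - a) := by
  have h1 : tr z (X 1) = X 1 + C z.2 := by simp [tr]
  have h2 : tr z (C a) = C a := (tr z).commutes a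
  rw [map_sub, h1, h2, C_sub]
  ring

private theorem NonD_dvd (x : S p) (δ : ZMod p) (hδ : δ ≠ 0) :
    x ∣ 1 - (x + C δ) ^ (p - 1) := by
  have h1 := sub_dvd_pow_sub_pow (x + C δ) (C δ) (p - 1)
  have h2 : (C δ : S p) ^ (p - 1) = 1 := by
    rw [← C_pow, ZMod.pow_card_sub_one_eq_one hδ, C_1]
  rw [h2, add_sub_cancel_right] at h1
  have h3 : (1 : S p) - (x + C δ) ^ (p - 1) = -((x + C δ) ^ (p - 1) - 1) := by ring
  rw [h3, dvd_neg]
  exact h1

private theorem NonD_one {s : ℕ} (hsp : s < p) (x : S p) :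
    ∃ U : S p, (1 - x ^ (p - 1)) ^ s = 1 + x ^ s * U := by
  have h1 := sub_dvd_pow_sub_pow (1 - x ^ (p - 1)) 1 s
  rw [one_pow] at h1
  have h2 : x ^ s ∣ (1 - x ^ (p - 1)) - 1 := by
    have h3 : (1 - x ^ (p - 1)) - 1 = - x ^ (p - 1) := by ring
    rw [h3, dvd_neg]
    exact pow_dvd_pow _ (by omega)
  obtain ⟨U, hU⟩ := h2.trans h1
  exact ⟨U, by rw [← hU]; ring⟩

theorem nonD {s : ℕ} (hs : 1 ≤ s) (hsp : s < p) (H : S p) (h : ∀ M : S p, LL s (H * M) = 0)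
    (z : Pt p) (i : ℕ) (hi : i < s) (j : ℕ) (hj : j < s) : jt H z i j = 0 := by
  have hp := (Fact.out : p.Prime).two_le
  obtain ⟨M, hM⟩ : ∃ M : S p, M = (X 0 - C z.1) ^ (s - 1 - i) * (X 1 - C z.2) ^ (s - 1 - j) *
      ((1 - (X 0 - C z.1) ^ (p - 1)) ^ s * (1 - (X 1 - C z.2) ^ (p - 1)) ^ s) := ⟨_, rfl⟩
  have h1 := h M
  unfold LL at h1
  rw [Finset.sum_eq_single z] at h1
  · rw [← h1]
    unfold jt
    rw [map_mul, hM]
    simp only [map_mul, map_pow, map_sub (tr z) 1, map_one, NonD_tr0, NonD_tr1, sub_self, C_0,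
      add_zero]
    obtain ⟨U, hU⟩ := NonD_one hsp (X 0 : S p)
    obtain ⟨V, hV⟩ := NonD_one hsp (X 1 : S p)
    rw [hU, hV]
    have e1 : tr z H * ((X 0 : S p) ^ (s - 1 - i) * X 1 ^ (s - 1 - j) *
        ((1 + X 0 ^ s * U) * (1 + X 1 ^ s * V))) =
        monomial (ee (s - 1 - i) (s - 1 - j)) 1 * tr z H +
        X 0 ^ s * (tr z H * ((X 0 : S p) ^ (s - 1 - i) * X 1 ^ (s - 1 - j)) * U *
          (1 + X 1 ^ s * V)) +
        X 1 ^ s * (tr z H * ((X 0 : S p) ^ (s - 1 - i) * X 1 ^ (s - 1 - j)) * V) := by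
      have e2 : (monomial (ee (s - 1 - i) (s - 1 - j)) 1 : S p) =
          X 0 ^ (s - 1 - i) * X 1 ^ (s - 1 - j) := by
        rw [X_pow_eq_monomial, X_pow_eq_monomial, monomial_mul, one_mul]
        rfl
      rw [e2]
      ring
    rw [e1, coeff_add, coeff_add, NonD_c0 hs, NonD_c1 hs, add_zero, add_zero,
      coeff_monomial_mul']
    have e3 : ee (s - 1 - i) (s - 1 - j) ≤ ee (s - 1) (s - 1) := by
      intro k
      fin_cases k
      · simp [ee]
      · simp [ee]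
    have e4 : ee (s - 1) (s - 1) - ee (s - 1 - i) (s - 1 - j) = ee i j := by
      ext k
      fin_cases k
      · simp [ee]
        omega
      · simp [ee]
        omega
    rw [if_pos e3, e4, one_mul]
  · intro z' _ hz
    have hne : z'.1 ≠ z.1 ∨ z'.2 ≠ z.2 := by
      by_contra h2
      push Not at h2
      exact hz (Prod.ext h2.1 h2.2)
    unfold jt
    rw [map_mul, hM]
    simp only [map_mul, map_pow, map_sub (tr z') 1, map_one, NonD_tr0, NonD_tr1]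
    rcases hne with h2 | h2
    · obtain ⟨G, hG⟩ := pow_dvd_pow_of_dvd
        (NonD_dvd (X 0 : S p) (z'.1 - z.1) (sub_ne_zero.2 h2)) s
      rw [hG]
      have e1 : tr z' H * ((X 0 + C (z'.1 - z.1) : S p) ^ (s - 1 - i) *
          (X 1 + C (z'.2 - z.2)) ^ (s - 1 - j) *
          (X 0 ^ s * G * (1 - (X 1 + C (z'.2 - z.2)) ^ (p - 1)) ^ s)) =
          X 0 ^ s * (tr z' H * ((X 0 + C (z'.1 - z.1) : S p) ^ (s - 1 - i) *
          (X 1 + C (z'.2 - z.2)) ^ (s - 1 - j)) * G *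
            (1 - (X 1 + C (z'.2 - z.2)) ^ (p - 1)) ^ s) := by
        ring
      rw [e1]
      exact NonD_c0 hs _
    · obtain ⟨G, hG⟩ := pow_dvd_pow_of_dvd
        (NonD_dvd (X 1 : S p) (z'.2 - z.2) (sub_ne_zero.2 h2)) s
      rw [hG]
      have e1 : tr z' H * ((X 0 + C (z'.1 - z.1) : S p) ^ (s - 1 - i) *
          (X 1 + C (z'.2 - z.2)) ^ (s - 1 - j) *
          ((1 - (X 0 + C (z'.1 - z.1)) ^ (p - 1)) ^ s * (X 1 ^ s * G))) =
          X 1 ^ s * (tr z' H * ((X 0 + C (z'.1 - z.1) : S p) ^ (s - 1 - i) *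
          (X 1 + C (z'.2 - z.2)) ^ (s - 1 - j)) * G *
            (1 - (X 0 + C (z'.1 - z.1)) ^ (p - 1)) ^ s) := by
        ring
      rw [e1]
      exact NonD_c1 hs _
  · intro h2
    exact absurd (Finset.mem_univ z) h2

end DilW
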