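import Pool.Agent.Lib.DilW.JetA

/-!
# DilW.Pair: the pairing

* `OG_KF`: in `KF s f` every term is `f α * (ww^(s-1-α) * vv^α)` and for `i + j < s - 1` either `i < s - 1 - α` or
  `j < α`: `jt_sum`, `jt_wv_zero`. `OG_KR`: `OG_mul`, `OG_RR`.
* `pair`: `H * M = M * H`, `jt_mul` with `i = j = s - 1` (`range (s-1+1) = range s`):
  `jt (M * H) z (s-1) (s-1) = ∑_{i < s} ∑_{j < s} jt M z i j * jt H z (s-1-i) (s-1-j)`. If `i + j + NN A I z ≥ s` then
  `(s-1-i) + (s-1-j) < s - 1 + NN A I z`, so the term is 0 by `hH`. The rest is the sum over `Idx s A I`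
  (`Finset.sum_filter`, `Finset.sum_product`).
-/

set_option autoImplicit false

open Finset MvPolynomial

namespace DilW

variable {p : ℕ} [Fact p.Prime]

theorem OG_KF (s : ℕ) (f : ℕ → S p) (z : Pt p) : OG (KF s f) z (s - 1) := by
  intro i j hij
  unfold KF
  rw [jt_sum]
  refine Finset.sum_eq_zero fun α hα => ?_
  apply jt_wv_zero
  have := mem_range.mp hα
  omega

theorem OG_KR (s : ℕ) (f : ℕ → S p) (A I : Finset (ZMod p)) (z : Pt p) :
    OG (KF s f * RR A I) z (s - 1 + NN A I z) :=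
  OG_mul (OG_KF s f z) (OG_RR A I z)

theorem pair {s : ℕ} (hs : 1 ≤ s) (A I : Finset (ZMod p)) (H M : S p)
    (hH : ∀ z, OG H z (s - 1 + NN A I z)) :
    LL s (H * M) = ∑ q ∈ Idx s A I,
      jt M q.1 q.2.1 q.2.2 * jt H q.1 (s - 1 - q.2.1) (s - 1 - q.2.2) := by
  unfold LL Idx
  rw [Finset.sum_filter, Finset.sum_product]
  refine Finset.sum_congr rfl fun z _ => ?_
  rw [Finset.sum_product, mul_comm H M, jt_mul, Nat.sub_add_cancel hs]
  refine Finset.sum_congr rfl fun i hi => Finset.sum_congr rfl fun j hj => ?_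
  have hi' := mem_range.mp hi
  have hj' := mem_range.mp hj
  dsimp only
  split_ifs with h
  · rfl
  · rw [hH z (s - 1 - i) (s - 1 - j) (by omega), mul_zero]

end DilW
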