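import Pool.Agent.Lib.DilW.MLin

/-!
# DilW.TelX: telescoping

PROOF of `tel`: induction on `s` (for all `Fa, P, Q`), proving in addition `ξ s = -Q`.
`s = 0`: the hypothesis is `0 = P + Q`; `ξ = -Q` constant.
`s + 1`: the term `α = s` of the sum is `Fa s * vv^s`, all others are divisible by `ww`, so
`ww ∣ vv^s * (Fa s - vv * Q)`, hence `Fa s - vv * Q = ww * η` (`ww_dvd_cancel`); `DB (d - p) η` (`DB_of_mul`,
`totalDegree_ww`, `DB_ww`, `DB_vv`). Substituting and dividing by `ww` (`ww_ne_zero`):
`∑_{α<s} Fa α * (ww^(s-1-α) * vv^α) = ww^s * P + vv^s * (-η)` (for `s ≥ 1` the exponents `s - α = (s-1-α) + 1`).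
The induction hypothesis for `(Fa, P, -η)` gives `ξ` with `ξ s = η`; put `ξ (s+1) = -Q`
(`Function.update`): `Fa s = ww * η + vv * Q = ww * ξ s - vv * ξ (s+1)`.
-/

set_option autoImplicit false

open Finset MvPolynomial

namespace DilW

variable {p : ℕ} [Fact p.Prime]

private theorem telX_aux {d : ℤ} (s : ℕ) : ∀ (Fa : ℕ → S p) (P Q : S p),
    (∀ α < s, DB d (Fa α)) → DB (d - p) P → DB (d - p) Q →
    KF s Fa = ww ^ s * P + vv ^ s * Q →
    ∃ ξ : ℕ → S p, (∀ β ≤ s, DB (d - p) (ξ β)) ∧
      (∀ α < s, Fa α = ww * ξ α - vv * ξ (α + 1)) ∧ ξ s = -Q := by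
  induction s with
  | zero =>
    intro Fa P Q _ _ hQ _
    exact ⟨fun _ => -Q, fun _ _ => DB_neg hQ, fun α hα => absurd hα (Nat.not_lt_zero α), rfl⟩
  | succ s ih =>
    intro Fa P Q hF hP hQ h
    have hK : KF (s + 1) Fa = ww * KF s Fa + vv ^ s * Fa s := by
      unfold KF
      rw [sum_range_succ, mul_sum]
      congr 1
      · refine sum_congr rfl fun α hα => ?_
        rw [mem_range] at hα
        have e : s + 1 - 1 - α = (s - 1 - α) + 1 := by omega
        rw [e, pow_succ]
        ring
      · have e : s + 1 - 1 - s = 0 := by omega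
        rw [e, pow_zero]
        ring
    rw [hK] at h
    have h1 : vv ^ s * (Fa s - vv * Q) = ww * (ww ^ s * P - KF s Fa) := by
      rw [pow_succ, pow_succ] at h
      linear_combination h
    obtain ⟨η, hη⟩ := ww_dvd_cancel s (Fa s - vv * Q) ⟨_, h1⟩
    have hDη : DB (d - p) η := by
      have h2 : DB d (Fa s - vv * Q) := by
        have h3 : DB (((p : ℕ) : ℤ) + (d - p)) (vv * Q) := DB_mul DB_vv hQ
        have e : ((p : ℕ) : ℤ) + (d - p) = d := by ring
        rw [e] at h3
        exact DB_sub (hF s (Nat.lt_succ_self s)) h3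
      rw [hη] at h2
      have h4 := DB_of_mul ww_ne_zero h2
      rwa [totalDegree_ww] at h4
    have h5 : KF s Fa = ww ^ s * P + vv ^ s * (-η) := by
      rw [hη] at h1
      have h6 : ww * (vv ^ s * η) = ww * (ww ^ s * P - KF s Fa) := by
        linear_combination h1
      have h7 := mul_left_cancel₀ ww_ne_zero h6
      linear_combination h7
    obtain ⟨ξ, x1, x2, x3⟩ := ih Fa P (-η) (fun α hα => hF α (by omega)) hP (DB_neg hDη) h5
    rw [neg_neg] at x3
    refine ⟨Function.update ξ (s + 1) (-Q), ?_, ?_, ?_⟩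
    · intro β hβ
      rcases Nat.lt_or_ge β (s + 1) with hb | hb
      · rw [Function.update_of_ne (by omega)]
        exact x1 β (by omega)
      · have : β = s + 1 := by omega
        subst this
        rw [Function.update_self]
        exact DB_neg hQ
    · intro α hα
      rcases Nat.lt_or_ge α s with ha | ha
      · rw [Function.update_of_ne (by omega), Function.update_of_ne (by omega)]
        exact x2 α ha
      · have : α = s := by omega
        subst this
        rw [Function.update_of_ne (by omega), Function.update_self, x3]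
        linear_combination hη
    · rw [Function.update_self]

theorem tel {s : ℕ} {d : ℤ} (Fa : ℕ → S p) (P Q : S p) (hF : ∀ α < s, DB d (Fa α))
    (hP : DB (d - p) P) (hQ : DB (d - p) Q) (h : KF s Fa = ww ^ s * P + vv ^ s * Q) :
    ∃ ξ : ℕ → S p, (∀ β ≤ s, DB (d - p) (ξ β)) ∧ ∀ α < s, Fa α = ww * ξ α - vv * ξ (α + 1) := by
  obtain ⟨ξ, x1, x2, _⟩ := telX_aux s Fa P Q hF hP hQ h
  exact ⟨ξ, x1, x2⟩

end DilW
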