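import Pool.Agent.Lib.DilW.DOT
import Pool.Agent.Lib.DilW.TelX
import Pool.Agent.Lib.DilW.NonD
import Pool.Agent.Lib.DilW.Pair
import Pool.Agent.Lib.DilW.InjM
import Pool.Agent.Lib.DilW.LemB

/-!
# DilW.InjF: the second injectivity

PROOF. `H = KF s f * RR A I`, `D = n m` (`n = A.card`, `m = I.card`). For every `M`: `LL s (H * M) = 0` by `pair` (`OG_KR`) and `h`.
`nonD`: all `jt H z i j = 0`, `i, j < s`. `DB ((b-1) + p (s-1) + D) H` (`DB_sum`, `DB_mul`, `DB_pow`, `DB_RR`).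
`dTwo`: `H = ww^s P + vv^s Q`, `DB ((b-1) + D - p) P`, `Q` (`p (s-1) - p s = - p`). As `H = KF s (fun α => f α * RR A I)`
(`Finset.sum_mul`) `tel` with `d = (b-1) + D` gives `ξ` with `DB (d - p) (ξ β)`, `f α * RR A I = ww * ξ α - vv * ξ (α+1)`
for `α < s`. For `a ∈ A`, `i ∈ I`, `α < s`: `ln a i ∣ RR A I`, and
`ww ξ α - vv ξ (α+1) = (ww + C a vv) ξ α - vv (C a ξ α + ξ (α+1))`, so `ln a i ∣ vv * (ξ (α+1) + C a ξ α)`
(`ln_dvd_ww_add`), `ln_dvd_cancel` (`k = 1`). If some `ξ β ≠ 0`, `β ≤ s`, `lemB` contradicts `hc`. So all `ξ β = 0`,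
`f α * RR A I = 0`, `f α = 0` (`RR_ne_zero`).
-/

set_option autoImplicit false

open Finset MvPolynomial

namespace DilW

variable {p : ℕ} [Fact p.Prime]

theorem injF (A I : Finset (ZMod p)) {s b : ℕ} (hs : 1 ≤ s) (hsp : s < p)
    (hD : A.card * I.card ≤ (s + 1) * p) (hA : A.card + s + 1 ≤ p)
    (hc : ((s : ℤ) + 1) * ((A.card * I.card : ℕ) + ((b : ℤ) - 1) - p) +
      (s : ℤ) ^ 2 * A.card * bb I + ((s : ℤ) ^ 2 + (s : ℤ) ^ 3) * I.card <
        (s : ℤ) * (A.card * I.card : ℕ))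
    (f : ℕ → S p) (hf : ∀ α < s, DB ((b : ℤ) - 1) (f α))
    (h : ∀ q ∈ Idx s A I,
      jt (KF s f * RR A I) q.1 (s - 1 - q.2.1) (s - 1 - q.2.2) = 0) : ∀ α < s, f α = 0 := by
  classical
  have hRR : (RR A I : S p) ≠ 0 := RR_ne_zero A I
  set D : ℤ := ((A.card * I.card : ℕ) : ℤ) with hDdef
  -- the sum over all points vanishes
  have hLL : ∀ M : S p, LL s (KF s f * RR A I * M) = 0 := by
    intro M
    rw [pair hs A I (KF s f * RR A I) M (fun z => OG_KR s f A I z)]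
    refine Finset.sum_eq_zero fun q hq => ?_
    rw [h q hq, mul_zero]
  have hjet : ∀ z, ∀ i < s, ∀ j < s, jt (KF s f * RR A I) z i j = 0 := by
    intro z i hi j hj
    exact nonD hs hsp (KF s f * RR A I) hLL z i hi j hj
  -- the degree
  have hKF : DB ((b : ℤ) - 1 + p * ((s : ℤ) - 1)) (KF s f) := by
    unfold KF
    refine DB_sum _ _ fun α hα => ?_
    have hα' : α < s := Finset.mem_range.mp hα
    have h1 := DB_mul (hf α hα') (DB_mul (DB_pow (DB_ww (p := p)) (s - 1 - α))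
      (DB_pow (DB_vv (p := p)) α))
    refine DB_mono h1 ?_
    have e1 : ((s - 1 - α : ℕ) : ℤ) = (s : ℤ) - 1 - α := by omega
    rw [e1]
    have : ((s : ℤ) - 1 - α) * p + α * p = p * ((s : ℤ) - 1) := by ring
    rw [this]
  have hH : DB ((b : ℤ) - 1 + p * ((s : ℤ) - 1) + D) (KF s f * RR A I) :=
    DB_mul hKF (DB_RR A I)
  obtain ⟨P, Q, hPQ, hP, hQ⟩ := dTwo (KF s f * RR A I) hH hjet
  have edeg : (b : ℤ) - 1 + p * ((s : ℤ) - 1) + D - p * s = (b : ℤ) - 1 + D - p := by ring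
  rw [edeg] at hP hQ
  have hKR : KF s (fun α => f α * RR A I) = ww ^ s * P + vv ^ s * Q := by
    rw [← hPQ]
    unfold KF
    rw [Finset.sum_mul]
    refine Finset.sum_congr rfl fun α _ => ?_
    ring
  obtain ⟨ξ, hξ, hrel⟩ := tel (fun α => f α * RR A I) P Q
    (fun α hα => DB_mul (hf α hα) (DB_RR A I)) hP hQ hKR
  have hl : ∀ a ∈ A, ∀ i ∈ I, ∀ β < s, ln a i ∣ ξ (β + 1) + C a * ξ β := by
    intro a ha i hi β hβ
    refine ln_dvd_cancel a i 1 _ ?_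
    have e1 : (f β * RR A I : S p) = ww * ξ β - vv * ξ (β + 1) := hrel β hβ
    have e2 : (vv ^ 1 * (ξ (β + 1) + C a * ξ β) : S p) =
        (ww + C a * vv) * ξ β - f β * RR A I := by
      rw [e1]; ring
    rw [e2]
    exact dvd_sub (Dvd.dvd.mul_right (ln_dvd_ww_add a i) _)
      (Dvd.dvd.mul_left (ln_dvd_RR ha hi) _)
  by_cases hne : ∃ β ≤ s, ξ β ≠ 0
  · exfalso
    have hB := lemB A I ((b : ℤ) - 1 + D - p) ξ hξ hne hl hD hA
    rw [← hDdef] at hB
    have e3 : ((s : ℤ) + 1) * (D + ((b : ℤ) - 1) - p) = (s + 1) * ((b : ℤ) - 1 + D - p) := by ring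
    rw [e3] at hc
    linarith
  · push Not at hne
    intro α hα
    have e1 : (f α * RR A I : S p) = ww * ξ α - vv * ξ (α + 1) := hrel α hα
    rw [hne α hα.le, hne (α + 1) hα, mul_zero, mul_zero, sub_zero] at e1
    exact (mul_eq_zero.mp e1).resolve_right hRR

end DilW
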