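import Pool.Agent.Lib.DilW.JetA

/-!
# DilW.LucS: the sum of the Taylor coefficients with exponents `s-1, s-1` vanishes in degree `< 2 p s - 2`

PROOF. `LL s` is additive, so it suffices to treat monomials with exponents `a, b`, `a + b ≤ 2 p s - 3`.
The coefficient is `c * (C(a, s-1) z.1^(a-(s-1))) * (C(b, s-1) z.2^(b-(s-1)))` (binomial theorem), and the
sum over all `z` is the product `c * A(a) * A(b)`, `A(a) = ∑_t C(a, s-1) t^(a-(s-1))`; `A(a) = 0` if
`a < s p - 1` (power sums over the field and the theorem of Lucas).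
-/

set_option autoImplicit false

open Finset MvPolynomial

namespace DilW

variable {p : ℕ} [Fact p.Prime]

private theorem LucS_sum {k : ℕ} (hk : ¬ (p - 1) ∣ k) : ∑ t : ZMod p, t ^ k = 0 := by
  have h1 : ¬ ∀ x : (ZMod p)ˣ, x ^ k = 1 := by
    rw [FiniteField.forall_pow_eq_one_iff, ZMod.card]
    exact hk
  push Not at h1
  obtain ⟨g, hg⟩ := h1
  have h2 : ∑ t : ZMod p, t ^ k = (g : ZMod p) ^ k * ∑ t : ZMod p, t ^ k := by
    rw [Finset.mul_sum]
    refine (Fintype.sum_equiv (Units.mulLeft g) (fun t => ((g : ZMod p) ^ k * t ^ k))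
      (fun t => t ^ k) (fun t => ?_)).symm
    rw [Units.mulLeft_apply, mul_pow]
  have h3 : ((g : ZMod p) ^ k - 1) * ∑ t : ZMod p, t ^ k = 0 := by
    rw [sub_mul, one_mul, ← h2, sub_self]
  rcases mul_eq_zero.1 h3 with h4 | h4
  · exfalso
    apply hg
    apply Units.ext
    rw [Units.val_pow_eq_pow_val, Units.val_one]
    exact sub_eq_zero.1 h4
  · exact h4

private theorem LucS_A {s : ℕ} (hs : 1 ≤ s) (hsp : s < p) {a : ℕ} (ha : a < s * p - 1) :
    ∑ t : ZMod p, ((a.choose (s - 1) : ℕ) : ZMod p) * t ^ (a - (s - 1)) = 0 := by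
  have hp : p.Prime := Fact.out
  have hp2 := hp.two_le
  rw [← Finset.mul_sum]
  by_cases has : a < s - 1
  · rw [Nat.choose_eq_zero_of_lt has, Nat.cast_zero, zero_mul]
  · push Not at has
    by_cases hk : (p - 1) ∣ (a - (s - 1))
    · obtain ⟨l, hl⟩ := hk
      rcases Nat.eq_zero_or_pos l with hl0 | hl0
      · rw [hl, hl0, mul_zero]
        simp
      · have hls : l < s := by
          by_contra hcon
          push Not at hcon
          have h1 : (p - 1) * s ≤ (p - 1) * l := Nat.mul_le_mul_left _ hcon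
          have h2 : (p - 1) * s + s = s * p := by
            obtain ⟨q, rfl⟩ : ∃ q, p = q + 1 := ⟨p - 1, by omega⟩
            rw [Nat.add_sub_cancel]
            ring
          omega
        have hapl : a = p * l + (s - 1 - l) := by
          have h2 : (p - 1) * l + l = p * l := by
            obtain ⟨q, rfl⟩ : ∃ q, p = q + 1 := ⟨p - 1, by omega⟩
            rw [Nat.add_sub_cancel]
            ring
          omega
        have hmod : a % p = s - 1 - l := by
          rw [hapl, Nat.mul_add_mod]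
          exact Nat.mod_eq_of_lt (by omega)
        have hmod2 : (s - 1) % p = s - 1 := Nat.mod_eq_of_lt (by omega)
        have hluc := Choose.choose_modEq_choose_mod_mul_choose_div_nat (n := a) (k := s - 1)
          (p := p)
        rw [hmod, hmod2, Nat.choose_eq_zero_of_lt (show s - 1 - l < s - 1 by omega),
          zero_mul] at hluc
        have h0 : ((a.choose (s - 1) : ℕ) : ZMod p) = 0 := by
          rw [(ZMod.natCast_eq_natCast_iff _ _ _).2 hluc, Nat.cast_zero]
        rw [h0, zero_mul]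
    · rw [LucS_sum hk, mul_zero]

private theorem LucS_pow (n : Fin 2) (u : ZMod p) (a : ℕ) :
    ((X n + C u) ^ a : S p) = ∑ k ∈ range (a + 1),
      monomial (Finsupp.single n k) (((a.choose k : ℕ) : ZMod p) * u ^ (a - k)) := by
  rw [add_pow]
  refine sum_congr rfl fun k _ => ?_
  rw [X_pow_eq_monomial, ← C_pow, mul_assoc, ← map_natCast (C : ZMod p →+* S p) (a.choose k),
    ← C_mul, mul_comm, C_mul_monomial, mul_one, mul_comm]

private theorem LucS_ee {i j k l : ℕ} : ee k l = ee i j ↔ k = i ∧ l = j := by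
  constructor
  · intro h
    have h0 := DFunLike.congr_fun h 0
    have h1 := DFunLike.congr_fun h 1
    simp [ee] at h0 h1
    exact ⟨h0, h1⟩
  · rintro ⟨rfl, rfl⟩
    rfl

private theorem LucS_jt (m : Fin 2 →₀ ℕ) (c : ZMod p) (z : Pt p) (i j : ℕ) :
    jt (monomial m c : S p) z i j =
      c * ((((m 0).choose i : ℕ) : ZMod p) * z.1 ^ (m 0 - i)) *
        ((((m 1).choose j : ℕ) : ZMod p) * z.2 ^ (m 1 - j)) := by
  have e1 : tr z (monomial m c : S p) =
      C c * ((X 0 + C z.1) ^ (m 0) * (X 1 + C z.2) ^ (m 1)) := by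
    unfold tr
    rw [aeval_monomial, Finsupp.prod_fintype _ _ (fun i => pow_zero _), Fin.prod_univ_two]
    rfl
  unfold jt
  rw [e1, coeff_C_mul, LucS_pow, LucS_pow, sum_mul_sum, coeff_sum, mul_assoc]
  congr 1
  have e2 : ∀ k ∈ range (m 0 + 1), coeff (ee i j) (∑ l ∈ range (m 1 + 1),
      (monomial (Finsupp.single 0 k) ((((m 0).choose k : ℕ) : ZMod p) * z.1 ^ (m 0 - k)) : S p) *
        monomial (Finsupp.single 1 l) ((((m 1).choose l : ℕ) : ZMod p) * z.2 ^ (m 1 - l))) =
      if k = i then (((m 0).choose k : ℕ) : ZMod p) * z.1 ^ (m 0 - k) *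
        ((((m 1).choose j : ℕ) : ZMod p) * z.2 ^ (m 1 - j)) else 0 := by
    intro k _
    rw [coeff_sum]
    have e3 : ∀ l ∈ range (m 1 + 1), coeff (ee i j)
        ((monomial (Finsupp.single 0 k) ((((m 0).choose k : ℕ) : ZMod p) *
          z.1 ^ (m 0 - k)) : S p) *
        monomial (Finsupp.single 1 l) ((((m 1).choose l : ℕ) : ZMod p) * z.2 ^ (m 1 - l))) =
        if l = j then (if k = i then (((m 0).choose k : ℕ) : ZMod p) * z.1 ^ (m 0 - k) *
          ((((m 1).choose l : ℕ) : ZMod p) * z.2 ^ (m 1 - l)) else 0) else 0 := by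
      intro l _
      rw [monomial_mul, coeff_monomial]
      have : (Finsupp.single 0 k + Finsupp.single 1 l : Fin 2 →₀ ℕ) = ee k l := rfl
      rw [this]
      by_cases h1 : k = i <;> by_cases h2 : l = j <;> simp [h1, h2, LucS_ee]
    rw [sum_congr rfl e3, sum_ite_eq']
    by_cases hj : j ∈ range (m 1 + 1)
    · rw [if_pos hj]
    · rw [if_neg hj]
      rw [mem_range] at hj
      rw [Nat.choose_eq_zero_of_lt (show m 1 < j by omega)]
      simp
  rw [sum_congr rfl e2, sum_ite_eq']
  by_cases hi : i ∈ range (m 0 + 1)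
  · rw [if_pos hi]
  · rw [if_neg hi]
    rw [mem_range] at hi
    rw [Nat.choose_eq_zero_of_lt (show m 0 < i by omega)]
    simp

theorem luc {s : ℕ} (hs : 1 ≤ s) (hsp : s < p) (H : S p) (hH : DB (2 * p * s - 3) H) :
    LL s H = 0 := by
  classical
  have hp : p.Prime := Fact.out
  have hp2 := hp.two_le
  have hsp1 : 1 ≤ s * p := Nat.mul_pos (by omega) (by omega)
  have e0 : LL s H = ∑ m ∈ H.support, ∑ z : Pt p, jt (monomial m (coeff m H) : S p) z (s - 1)
      (s - 1) := by
    unfold LL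
    rw [sum_comm]
    refine sum_congr rfl fun z _ => ?_
    rw [← jt_sum, MvPolynomial.support_sum_monomial_coeff]
  rw [e0]
  refine sum_eq_zero fun m hm => ?_
  have hdeg := hH m (mem_support_iff.1 hm)
  have hdeg' : m 0 + m 1 + 3 ≤ 2 * (s * p) := by
    have h1 : (((m 0 + m 1 + 3 : ℕ)) : ℤ) ≤ ((2 * (s * p) : ℕ) : ℤ) := by
      push_cast at hdeg ⊢
      linarith
    exact_mod_cast h1
  have e1 : ∑ z : Pt p, jt (monomial m (coeff m H) : S p) z (s - 1) (s - 1) =
      coeff m H * ((∑ t : ZMod p, (((m 0).choose (s - 1) : ℕ) : ZMod p) * t ^ (m 0 - (s - 1))) *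
        (∑ t : ZMod p, (((m 1).choose (s - 1) : ℕ) : ZMod p) * t ^ (m 1 - (s - 1)))) := by
    rw [sum_mul_sum, mul_sum, Fintype.sum_prod_type]
    refine sum_congr rfl fun x _ => ?_
    rw [mul_sum]
    refine sum_congr rfl fun y _ => ?_
    rw [LucS_jt, mul_assoc]
  rw [e1]
  by_cases h0 : m 0 < s * p - 1
  · rw [LucS_A hs hsp h0, zero_mul, mul_zero]
  · rw [LucS_A hs hsp (show m 1 < s * p - 1 by omega), mul_zero, mul_zero]

end DilW
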