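import Pool.Agent.Lib.DilW.DegB

/-!
# DilW.PolT: the polynomials `pol a c`, cardinalities

* `ee_inj`: evaluate at `0` and at `1`. `ee_apply`: `simp [ee]`.
* `pol_injective`: the coefficient of `pol a c` at `ee q.1 q.2` is `c q` (`coeff_sum`, `coeff_monomial`, `ee_inj`).
* `DB_pol`: a nonzero coefficient at `m` means `m = ee q.1 q.2` for some `q ∈ Tr a`, `q.1 + q.2 < a`.
* `card_Tr`: `Tr a` is the disjoint union of the antidiagonals of `0, ..., a-1` (`Finset.Nat.antidiagonal`,
  `card_sigma`) or induction on `a`: `Tr (a+1) = Tr a ∪ antidiagonal a` (`Finset.Nat.card_antidiagonal : a + 1`).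
* `card_Idx`: for fixed `z` the number of `(i, j)` with `i + j + N < s` is `(Tr (s - N)).card`
  (`Finset.card_sigma`/`card_filter`, `sum_product`), and `2 * (Tr t).card = t (t+1)`; `(s - N) + 1 = s + 1 - N` if
  `N ≤ s`, both sides are 0 if `N > s`.
-/

set_option autoImplicit false

open Finset MvPolynomial

namespace DilW

theorem ee_apply (i j : ℕ) : ee i j 0 = i ∧ ee i j 1 = j := by
  constructor <;> simp [ee]

theorem ee_inj {i j i' j' : ℕ} (h : ee i j = ee i' j') : i = i' ∧ j = j' := by
  constructor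
  · have h1 := DFunLike.congr_fun h 0
    rwa [(ee_apply i j).1, (ee_apply i' j').1] at h1
  · have h1 := DFunLike.congr_fun h 1
    rwa [(ee_apply i j).2, (ee_apply i' j').2] at h1

theorem ee_eta (m : Fin 2 →₀ ℕ) : ee (m 0) (m 1) = m := by
  refine Finsupp.ext fun k => ?_
  fin_cases k
  · exact (ee_apply _ _).1
  · exact (ee_apply _ _).2

variable {p : ℕ}

theorem pol_add (a : ℕ) (c c' : Tr a → ZMod p) : pol a (c + c') = pol a c + pol a c' := by
  unfold pol
  rw [← sum_add_distrib]
  exact sum_congr rfl fun q _ => by rw [Pi.add_apply, map_add]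

theorem pol_smul (a : ℕ) (k : ZMod p) (c : Tr a → ZMod p) : pol a (k • c) = C k * pol a c := by
  unfold pol
  rw [mul_sum]
  exact sum_congr rfl fun q _ => by rw [Pi.smul_apply, smul_eq_mul, C_mul_monomial]

private theorem polT_coeff (a : ℕ) (c : Tr a → ZMod p) (m : Fin 2 →₀ ℕ) :
    coeff m (pol a c) = ∑ q : Tr a, if ee q.1.1 q.1.2 = m then c q else 0 := by
  unfold pol
  rw [coeff_sum]
  exact sum_congr rfl fun q _ => by rw [coeff_monomial]

theorem pol_eq_zero {a : ℕ} {c : Tr a → ZMod p} (h : pol a c = 0) : c = 0 := by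
  funext q
  have h1 := polT_coeff a c (ee q.1.1 q.1.2)
  rw [h, coeff_zero, Finset.sum_eq_single q] at h1
  · rw [if_pos rfl] at h1
    exact h1.symm
  · intro q' _ hq
    rw [if_neg]
    intro h2
    apply hq
    obtain ⟨h3, h4⟩ := ee_inj h2
    exact Subtype.ext (Prod.ext h3 h4)
  · intro h2
    exact absurd (mem_univ q) h2

theorem DB_pol (a : ℕ) (c : Tr a → ZMod p) : DB ((a : ℤ) - 1) (pol a c) := by
  intro m hm
  rw [polT_coeff] at hm
  obtain ⟨q, _, hq⟩ := Finset.exists_ne_zero_of_sum_ne_zero hm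
  have h1 : ee q.1.1 q.1.2 = m := by
    by_contra h2
    exact hq (if_neg h2)
  have h2 := q.2
  unfold Tr at h2
  rw [mem_filter] at h2
  rw [← h1, (ee_apply _ _).1, (ee_apply _ _).2]
  have h3 := h2.2
  omega

theorem card_Tr (a : ℕ) : 2 * (Tr a).card = a * (a + 1) := by
  unfold Tr
  rw [card_filter, sum_product]
  have h1 : ∀ i ∈ range a, (∑ j ∈ range a, if (i, j).1 + (i, j).2 < a then 1 else 0) = a - i := by
    intro i _
    rw [← card_filter]
    have h2 : (range a).filter (fun j => (i, j).1 + (i, j).2 < a) = range (a - i) := by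
      ext j
      simp only [mem_filter, mem_range]
      omega
    rw [h2, card_range]
  rw [sum_congr rfl h1]
  clear h1
  induction a with
  | zero => simp
  | succ a ih =>
    rw [sum_range_succ']
    have h3 : ∑ i ∈ range a, (a + 1 - (i + 1)) = ∑ i ∈ range a, (a - i) :=
      sum_congr rfl fun i _ => by omega
    rw [h3, mul_add, ih]
    simp only [Nat.sub_zero]
    ring

theorem card_Idx [Fact p.Prime] (s : ℕ) (A I : Finset (ZMod p)) :
    2 * (Idx s A I).card = ∑ z : Pt p, (s - NN A I z) * (s + 1 - NN A I z) := by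
  unfold Idx
  rw [card_filter, sum_product, mul_sum]
  refine sum_congr rfl fun z _ => ?_
  have h1 : (∑ q ∈ range s ×ˢ range s,
      if (z, q).2.1 + (z, q).2.2 + NN A I (z, q).1 < s then 1 else 0) =
      (Tr (s - NN A I z)).card := by
    rw [← card_filter]
    congr 1
    unfold Tr
    ext q
    simp only [mem_filter, mem_product, mem_range]
    omega
  rw [h1, card_Tr]
  rcases le_or_gt (NN A I z) s with h | h
  · have h2 : s + 1 - NN A I z = s - NN A I z + 1 := by omega
    rw [h2]
  · have h2 : s - NN A I z = 0 := by omega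
    rw [h2]
    ring

end DilW
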