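import Pool.Agent.Lib.DilW.InjM
import Pool.Agent.Lib.DilW.InjF
import Pool.Agent.Lib.DilW.LucS
import Pool.Agent.Lib.DilW.DimC
import Pool.Agent.Lib.DilW.PolT
import Pool.Agent.Lib.DilW.Pair

/-!
# DilW.DimF: the dimension inequality

PROOF. `dimC` with `K = ZMod p`, `ι = Idx s A I` (as a type), `U = Tr a → ZMod p`, `V = Fin s → (Tr b → ZMod p)`,
`u x q = jt (pol a x) q.1 q.2.1 q.2.2`, `c y q = jt (KF s (fy y) * RR A I) q.1 (s-1-q.2.1) (s-1-q.2.2)`,
`fy y α = if h : α < s then pol b (y ⟨α, h⟩) else 0` (linear: `pol_add`, `pol_smul`, `jt_add`, and `jt (C k * F) = k * jt F`).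
* `u` injective: kernel: if `a = 0` the space `U` is a single point (`Tr 0 = ∅`); else `injM` and `pol_eq_zero`.
* `c` injective: `b = 0` similarly; else `injF`, `pol_eq_zero`.
* orthogonality: by `pair` the sum is `LL s (KF s (fy y) * RR A I * pol a x)`, which is 0 by `luc`: the degree is at most
  `(b-1) + p (s-1) + D + (a-1) ≤ 2 p s - 3` by `hC` (if `a = 0` or `b = 0` one of the polynomials is 0).
Then `finrank U = (Tr a).card`, `finrank V = s * (Tr b).card`, `Fintype.card ι = (Idx s A I).card`; multiply by 2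
(`card_Tr`, `card_Idx`).
-/

set_option autoImplicit false

open Finset MvPolynomial

namespace DilW

variable {p : ℕ} [Fact p.Prime]

private theorem DimF_smul (k : ZMod p) (F : S p) (z : Pt p) (i j : ℕ) :
    jt (C k * F) z i j = k * jt F z i j := by
  unfold jt
  have h : tr z (C k : S p) = C k := by
    unfold tr
    rw [aeval_C]
    rfl
  rw [map_mul, h, coeff_C_mul]

private noncomputable def DimF_u (A I : Finset (ZMod p)) (s a : ℕ) :
    (Tr a → ZMod p) →ₗ[ZMod p] (Idx s A I → ZMod p) where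
  toFun x q := jt (pol a x) q.1.1 q.1.2.1 q.1.2.2
  map_add' x y := by
    funext q
    simp only [Pi.add_apply]
    rw [pol_add, jt_add]
  map_smul' k x := by
    funext q
    simp only [Pi.smul_apply, RingHom.id_apply, smul_eq_mul]
    rw [pol_smul, DimF_smul]

private noncomputable def DimF_f (s b : ℕ) (y : Fin s → (Tr b → ZMod p)) (α : ℕ) : S p :=
  if h : α < s then pol b (y ⟨α, h⟩) else 0

private theorem DimF_f_add (s b : ℕ) (y y' : Fin s → (Tr b → ZMod p)) (α : ℕ) :
    (DimF_f s b (y + y') α : S p) = DimF_f s b y α + DimF_f s b y' α := by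
  unfold DimF_f
  split_ifs
  · rw [Pi.add_apply, pol_add]
  · rw [add_zero]

private theorem DimF_f_smul (s b : ℕ) (k : ZMod p) (y : Fin s → (Tr b → ZMod p)) (α : ℕ) :
    (DimF_f s b (k • y) α : S p) = C k * DimF_f s b y α := by
  unfold DimF_f
  split_ifs
  · rw [Pi.smul_apply, pol_smul]
  · rw [mul_zero]

private theorem DimF_DB (s b : ℕ) (y : Fin s → (Tr b → ZMod p)) (α : ℕ) :
    DB ((b : ℤ) - 1) (DimF_f s b y α : S p) := by
  unfold DimF_f
  split_ifs
  · exact DB_pol _ _
  · exact DB_zero _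

private noncomputable def DimF_c (A I : Finset (ZMod p)) (s b : ℕ) :
    (Fin s → (Tr b → ZMod p)) →ₗ[ZMod p] (Idx s A I → ZMod p) where
  toFun y q := jt (KF s (DimF_f s b y) * RR A I) q.1.1 (s - 1 - q.1.2.1) (s - 1 - q.1.2.2)
  map_add' y y' := by
    funext q
    simp only [Pi.add_apply]
    rw [← jt_add, ← add_mul]
    congr 2
    unfold KF
    rw [← sum_add_distrib]
    refine sum_congr rfl fun α _ => ?_
    rw [DimF_f_add, add_mul]
  map_smul' k y := by
    funext q
    simp only [Pi.smul_apply, RingHom.id_apply, smul_eq_mul]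
    rw [← DimF_smul, ← mul_assoc]
    congr 2
    unfold KF
    rw [mul_sum]
    refine sum_congr rfl fun α _ => ?_
    rw [DimF_f_smul, mul_assoc]

private theorem DimF_KF (s b : ℕ) (hs : 1 ≤ s) (y : Fin s → (Tr b → ZMod p)) :
    DB ((b : ℤ) - 1 + ((s : ℤ) - 1) * p) (KF s (DimF_f s b y) : S p) := by
  unfold KF
  refine DB_sum _ _ fun α hα => ?_
  have hα' := mem_range.mp hα
  refine DB_mono (DB_mul (DimF_DB s b y α) (DB_mul (DB_pow DB_ww _) (DB_pow DB_vv _))) ?_
  have h1 : ((s - 1 - α : ℕ) : ℤ) = (s : ℤ) - 1 - α := by omega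
  rw [h1]
  apply le_of_eq
  ring

theorem dimF (A I : Finset (ZMod p)) {s a b : ℕ} (hs : 1 ≤ s) (hsp : s < p)
    (hD : A.card * I.card ≤ (s + 1) * p) (hA : A.card + s + 1 ≤ p)
    (ha : a = 0 ∨ ((s : ℤ) + 1) * ((A.card * I.card : ℕ) + ((a : ℤ) - 1) - p * s) +
      (s : ℤ) * A.card * bb I + (s : ℤ) * I.card < (A.card * I.card : ℕ))
    (hb : b = 0 ∨ ((s : ℤ) + 1) * ((A.card * I.card : ℕ) + ((b : ℤ) - 1) - p) +
      (s : ℤ) ^ 2 * A.card * bb I + ((s : ℤ) ^ 2 + (s : ℤ) ^ 3) * I.card <
        (s : ℤ) * (A.card * I.card : ℕ))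
    (hC : a = 0 ∨ b = 0 ∨ a + b + A.card * I.card + 1 ≤ (s + 1) * p) :
    a * (a + 1) + s * (b * (b + 1)) ≤
      ∑ z : Pt p, (s - NN A I z) * (s + 1 - NN A I z) := by
  have hu : Function.Injective (DimF_u A I s a) := by
    rw [injective_iff_map_eq_zero]
    intro x hx
    apply pol_eq_zero
    rcases ha with ha | ha
    · subst ha
      exact eq_zero_of_DB (by norm_num) (DB_pol 0 x)
    · refine injM A I hs hD ha _ (DB_pol a x) fun q hq => ?_
      exact congrFun hx ⟨q, hq⟩
  have hc : Function.Injective (DimF_c A I s b) := by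
    rw [injective_iff_map_eq_zero]
    intro y hy
    have h1 : ∀ α < s, (DimF_f s b y α : S p) = 0 := by
      rcases hb with hb | hb
      · subst hb
        intro α _
        exact eq_zero_of_DB (by norm_num) (DimF_DB s 0 y α)
      · refine injF A I hs hsp hD hA hb _ (fun α _ => DimF_DB s b y α) fun q hq => ?_
        exact congrFun hy ⟨q, hq⟩
    funext α
    apply pol_eq_zero
    have h2 := h1 α α.2
    unfold DimF_f at h2
    rw [dif_pos α.2] at h2
    exact h2
  have ho : ∀ x y, ∑ q, DimF_u A I s a x q * DimF_c A I s b y q = 0 := by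
    intro x y
    have h1 : ∑ q, DimF_u A I s a x q * DimF_c A I s b y q =
        LL s (KF s (DimF_f s b y) * RR A I * pol a x) := by
      rw [pair hs A I _ _ (OG_KR s _ A I)]
      rw [← Finset.sum_coe_sort (Idx s A I)]
      rfl
    rw [h1]
    by_cases h0 : a = 0
    · subst h0
      have h2 : (pol 0 x : S p) = 0 := eq_zero_of_DB (by norm_num) (DB_pol 0 x)
      rw [h2, mul_zero]
      exact luc hs hsp _ (DB_zero _)
    by_cases h0' : b = 0
    · subst h0'
      have h2 : (KF s (DimF_f s 0 y) : S p) = 0 := by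
        unfold KF
        refine sum_eq_zero fun α _ => ?_
        rw [eq_zero_of_DB (by norm_num) (DimF_DB s 0 y α), zero_mul]
      rw [h2, zero_mul, zero_mul]
      exact luc hs hsp _ (DB_zero _)
    have hC' := (hC.resolve_left h0).resolve_left h0'
    refine luc hs hsp _ (DB_mono (DB_mul (DB_mul (DimF_KF s b hs y) (DB_RR A I))
      (DB_pol a x)) ?_)
    have h3 : (a : ℤ) + b + (A.card * I.card : ℕ) + 1 ≤ ((s : ℤ) + 1) * p := by exact_mod_cast hC'
    linarith
  have h := dimC (DimF_u A I s a) (DimF_c A I s b) hu hc ho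
  rw [Module.finrank_fintype_fun_eq_card, Module.finrank_pi_fintype] at h
  simp only [Module.finrank_fintype_fun_eq_card, Fintype.card_coe, sum_const, card_univ,
    Fintype.card_fin, smul_eq_mul] at h
  have h1 := card_Tr a
  have h2 := card_Tr b
  have h3 := card_Idx s A I
  rw [← h1, ← h2, ← h3]
  have h4 : s * (2 * (Tr b).card) = 2 * (s * (Tr b).card) := by ring
  rw [h4]
  omega

end DilW
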