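import Pool.Agent.Lib.DilW.DegB

/-!
# DilW.ExpB: a polynomial of degree `≤ d` which vanishes at all points is `w P + v Q`, degrees `≤ d - p`

PROOF. Claim: every `F` with `DB d F` is `h + ww * P + vv * Q` with `DB (d-p) P`, `DB (d-p) Q` and `h` reduced:
`coeff m h ≠ 0 → m 0 < p ∧ m 1 < p`. By linearity (`F = ∑ monomial`, all of degree `≤ d`) it suffices to treat
`monomial (ee i j) c` with `i + j ≤ d`: strong induction on `i + j`: if `i, j < p` it is reduced. If `i ≥ p`:
`x^i y^j = w x^(i-p) y^j + x^(i-p+1) y^j`; the first is fine (degree `i - p + j ≤ d - p`), the second has smaller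
degree `i + j - (p - 1)`. If `j ≥ p` the same with `v`. Then `ww`, `vv` vanish at all points (`ZMod.pow_card`), so
`h` vanishes at all points of `𝔽_p²` and is reduced: `h = 0` by `MvPolynomial.eq_zero_of_eval_eq_zero`
(`h ∈ restrictDegree (Fin 2) (ZMod p) (p - 1)`, `Fintype.card (ZMod p) = p`).
-/

set_option autoImplicit false

open Finset MvPolynomial

namespace DilW

variable {p : ℕ} [Fact p.Prime]

theorem ev_ww (z : Pt p) : ev z ww = 0 := by
  unfold ev ww
  rw [map_sub, map_pow, eval_X]
  simp

theorem ev_vv (z : Pt p) : ev z vv = 0 := by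
  unfold ev vv
  rw [map_sub, map_pow, eval_X]
  simp

private def ExpB_Red (h : S p) : Prop := ∀ m : Fin 2 →₀ ℕ, coeff m h ≠ 0 → m 0 < p ∧ m 1 < p

private theorem ExpB_ee0 (i j : ℕ) : (ee i j) 0 = i := by simp [ee]

private theorem ExpB_ee1 (i j : ℕ) : (ee i j) 1 = j := by simp [ee]

private theorem ExpB_ee (m : Fin 2 →₀ ℕ) : ee (m 0) (m 1) = m := by
  ext k
  fin_cases k
  · exact ExpB_ee0 _ _
  · exact ExpB_ee1 _ _

omit [Fact p.Prime] in
private theorem ExpB_mono_DB (i j : ℕ) (c : ZMod p) {d : ℤ} (h : ((i + j : ℕ) : ℤ) ≤ d) :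
    DB d (monomial (ee i j) c : S p) := by
  intro m hm
  rw [coeff_monomial] at hm
  have h1 : ee i j = m := by
    by_contra h2
    rw [if_neg h2] at hm
    exact hm rfl
  rw [← h1, ExpB_ee0, ExpB_ee1]
  exact h

private theorem ExpB_X0 (k i j : ℕ) (c : ZMod p) :
    (X 0 : S p) ^ k * monomial (ee i j) c = monomial (ee (k + i) j) c := by
  rw [X_pow_eq_monomial, monomial_mul, one_mul]
  congr 1
  unfold ee
  rw [← add_assoc, Finsupp.single_add]

private theorem ExpB_X1 (k i j : ℕ) (c : ZMod p) :
    (X 1 : S p) ^ k * monomial (ee i j) c = monomial (ee i (k + j)) c := by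
  rw [X_pow_eq_monomial, monomial_mul, one_mul]
  congr 1
  unfold ee
  rw [Finsupp.single_add, add_left_comm]

private theorem ExpB_monom (n : ℕ) : ∀ i j : ℕ, i + j = n → ∀ c : ZMod p,
    ∃ h P Q : S p, monomial (ee i j) c = h + ww * P + vv * Q ∧ ExpB_Red h ∧
      DB ((n : ℤ) - p) P ∧ DB ((n : ℤ) - p) Q := by
  have hp := (Fact.out : p.Prime).two_le
  induction n using Nat.strong_induction_on with
  | _ n ih =>
    intro i j hij c
    by_cases hi : p ≤ i
    · obtain ⟨k, rfl⟩ : ∃ k, i = p + k := ⟨i - p, by omega⟩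
      obtain ⟨h, P, Q, h1, h2, h3, h4⟩ := ih (1 + k + j) (by omega) (1 + k) j rfl c
      refine ⟨h, monomial (ee k j) c + P, Q, ?_, h2, ?_, ?_⟩
      · have e1 : (monomial (ee (p + k) j) c : S p) =
            ww * monomial (ee k j) c + monomial (ee (1 + k) j) c := by
          rw [← ExpB_X0, ← ExpB_X0 1 k j c]
          unfold ww
          ring
        rw [e1, h1]
        ring
      · refine DB_add (ExpB_mono_DB _ _ _ ?_) (DB_mono h3 ?_)
        · push_cast
          omega
        · push_cast
          omega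
      · refine DB_mono h4 ?_
        push_cast
        omega
    · by_cases hj : p ≤ j
      · obtain ⟨k, rfl⟩ : ∃ k, j = p + k := ⟨j - p, by omega⟩
        obtain ⟨h, P, Q, h1, h2, h3, h4⟩ := ih (i + (1 + k)) (by omega) i (1 + k) rfl c
        refine ⟨h, P, monomial (ee i k) c + Q, ?_, h2, ?_, ?_⟩
        · have e1 : (monomial (ee i (p + k)) c : S p) =
              vv * monomial (ee i k) c + monomial (ee i (1 + k)) c := by
            rw [← ExpB_X1, ← ExpB_X1 1 i k c]
            unfold vv
            ring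
          rw [e1, h1]
          ring
        · refine DB_mono h3 ?_
          push_cast
          omega
        · refine DB_add (ExpB_mono_DB _ _ _ ?_) (DB_mono h4 ?_)
          · push_cast
            omega
          · push_cast
            omega
      · refine ⟨monomial (ee i j) c, 0, 0, by ring, ?_, DB_zero _, DB_zero _⟩
        intro m hm
        rw [coeff_monomial] at hm
        have h1 : ee i j = m := by
          by_contra h2
          rw [if_neg h2] at hm
          exact hm rfl
        rw [← h1, ExpB_ee0, ExpB_ee1]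
        omega

private theorem ExpB_Red_add {g h : S p} (hg : ExpB_Red g) (hh : ExpB_Red h) :
    ExpB_Red (g + h) := by
  intro m hm
  rw [coeff_add] at hm
  by_cases h1 : coeff m g = 0
  · rw [h1, zero_add] at hm
    exact hh m hm
  · exact hg m h1

private theorem ExpB_sum {d : ℤ} (H : S p) (hd : DB d H) (s : Finset (Fin 2 →₀ ℕ))
    (hs : s ⊆ H.support) :
    ∃ h P Q : S p, ∑ m ∈ s, monomial m (coeff m H) = h + ww * P + vv * Q ∧ ExpB_Red h ∧
      DB (d - p) P ∧ DB (d - p) Q := by
  classical
  induction s using Finset.induction_on with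
  | empty => exact ⟨0, 0, 0, by simp, fun m hm => absurd (coeff_zero m) hm, DB_zero _, DB_zero _⟩
  | insert m s hm ih =>
    obtain ⟨h, P, Q, h1, h2, h3, h4⟩ := ih ((subset_insert m s).trans hs)
    have hm' : coeff m H ≠ 0 := by
      have := hs (mem_insert_self m s)
      rwa [mem_support_iff] at this
    have hmd := hd m hm'
    obtain ⟨h', P', Q', h1', h2', h3', h4'⟩ := ExpB_monom (p := p) (m 0 + m 1) (m 0) (m 1) rfl
      (coeff m H)
    rw [ExpB_ee] at h1'
    refine ⟨h' + h, P' + P, Q' + Q, ?_, ExpB_Red_add h2' h2, DB_add (DB_mono h3' (by omega)) h3,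
      DB_add (DB_mono h4' (by omega)) h4⟩
    rw [sum_insert hm, h1, h1']
    ring

theorem expB {d : ℤ} (H : S p) (hd : DB d H) (h0 : ∀ z, ev z H = 0) :
    ∃ P Q : S p, H = ww * P + vv * Q ∧ DB (d - p) P ∧ DB (d - p) Q := by
  obtain ⟨h, P, Q, h1, h2, h3, h4⟩ := ExpB_sum H hd H.support (Finset.Subset.refl _)
  rw [support_sum_monomial_coeff] at h1
  have hz : h = 0 := by
    refine MvPolynomial.eq_zero_of_eval_eq_zero (Fin 2) (ZMod p) h (fun v => ?_) ?_
    · have e1 : v = ![v 0, v 1] := by
        ext k
        fin_cases k <;> rfl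
      have e2 := h0 (v 0, v 1)
      have e3 := ev_ww (p := p) (v 0, v 1)
      have e4 := ev_vv (p := p) (v 0, v 1)
      rw [h1] at e2
      unfold ev at e2 e3 e4
      rw [map_add, map_add, map_mul, map_mul, e3, e4] at e2
      rw [e1]
      simpa using e2
    · rw [mem_restrictDegree]
      intro m hm k
      rw [mem_support_iff] at hm
      have h5 := h2 m hm
      have h6 : Fintype.card (ZMod p) = p := ZMod.card p
      rw [h6]
      fin_cases k
      · have := h5.1
        simp only [Fin.zero_eta]
        omega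
      · have := h5.2
        simp only [Fin.mk_one]
        omega
  exact ⟨P, Q, by rw [h1, hz, zero_add], h3, h4⟩

end DilW
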