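import Mathlib

/-!
# DilW.NumF: the choice of the degrees (arithmetic)

PROOF. `X = (s+1) p - n m ≥ 0`, `εA = s (n b + m)`, `εB = s^2 n b + (s^2 + s^3) m` (integers). Put
`a = ((s X - εA + s) / (s+1)).toNat`, `b' = ((X - εB + s) / (s+1)).toNat` (integer division, floor). Then
`(s+1) a ≥ s X - εA`, `(s+1) b' ≥ X - εB`; and if `a ≥ 1` then `(s+1) a ≤ s X - εA + s`, which is the condition on `a`
(as `s X = s (s+1) p - s n m`); if `b' ≥ 1` then `(s+1) b' ≤ X - εB + s`, the condition on `b'`. If `a, b' ≥ 1`: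
`(s+1)(a + b') ≤ (s+1) X - εA - εB + 2 s` and `εA + εB ≥ 2 s + 2 s^2 + s^3 ≥ 3 s + 1` (`n, m, b ≥ 1`), so
`(s+1)(a + b') ≤ (s+1)(X - 1)`, `a + b' ≤ X - 1`. So `T ≥ a^2 + s b'^2`. For reals/integers `y ≥ 0`, `ε ≥ 0`, `u ≥ 0`,
`u ≥ y - ε`: `u^2 ≥ y^2 - 2 y ε`. Hence `(s+1)^2 a^2 ≥ s^2 X^2 - 2 s X εA`, `(s+1)^2 b'^2 ≥ X^2 - 2 X εB`, and
`(s+1)^2 T ≥ s^2 X^2 + s X^2 - 2 s X (εA + εB) = s (s+1) X^2 - 2 s X (εA + εB)`, with `X ≤ (s+1) p`:
`(s+1)^2 T ≥ s (s+1) X^2 - 2 s (s+1) p (εA + εB)`; divide by `s + 1`. Finally `εA + εB = s (s+1) n b + s (1 + s + s^2) m` and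
`2 s^2 (1 + s + s^2) ≤ 3 s^3 (s+1)`.
-/

set_option autoImplicit false

namespace DilW

private theorem numF_floor (s y : ℤ) (hs : 1 ≤ s) :
    ∃ a : ℕ, y ≤ (s + 1) * a ∧ (a = 0 ∨ (s + 1) * a ≤ y + s) := by
  have hs' : 0 < s + 1 := by omega
  refine ⟨((y + s) / (s + 1)).toNat, ?_, ?_⟩
  · have h1 : (y + s) / (s + 1) ≤ (((y + s) / (s + 1)).toNat : ℤ) := Int.self_le_toNat _
    have h2 := Int.lt_ediv_add_one_mul_self (y + s) hs'
    have h3 : (s + 1) * ((y + s) / (s + 1)) ≤ (s + 1) * (((y + s) / (s + 1)).toNat : ℤ) :=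
      mul_le_mul_of_nonneg_left h1 hs'.le
    have h4 : ((y + s) / (s + 1) + 1) * (s + 1) = (s + 1) * ((y + s) / (s + 1)) + (s + 1) := by
      ring
    omega
  · by_cases h : 0 ≤ (y + s) / (s + 1)
    · right
      rw [Int.toNat_of_nonneg h, mul_comm]
      exact Int.ediv_mul_le _ hs'.ne'
    · left
      rw [Int.toNat_eq_zero]
      omega

private theorem numF_sq (u y e : ℤ) (hu : 0 ≤ u) (hy : 0 ≤ y) (he : 0 ≤ e) (h : y - e ≤ u) :
    y ^ 2 - 2 * y * e ≤ u ^ 2 := by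
  by_cases hye : e ≤ y
  · have h1 : (y - e) ^ 2 ≤ u ^ 2 := by
      have h2 : 0 ≤ y - e := by omega
      exact pow_le_pow_left₀ h2 h 2
    nlinarith [sq_nonneg e]
  · have h1 : y * y ≤ y * e := mul_le_mul_of_nonneg_left (by omega) hy
    nlinarith [sq_nonneg u]

theorem numF (p s n m b T : ℕ) (hs : 1 ≤ s) (hn : 1 ≤ n) (hm : 1 ≤ m) (hb : 1 ≤ b)
    (hD : n * m ≤ (s + 1) * p)
    (h : ∀ a b' : ℕ,
      (a = 0 ∨ ((s : ℤ) + 1) * ((n * m : ℕ) + ((a : ℤ) - 1) - p * s) +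
        (s : ℤ) * n * b + (s : ℤ) * m < (n * m : ℕ)) →
      (b' = 0 ∨ ((s : ℤ) + 1) * ((n * m : ℕ) + ((b' : ℤ) - 1) - p) +
        (s : ℤ) ^ 2 * n * b + ((s : ℤ) ^ 2 + (s : ℤ) ^ 3) * m < (s : ℤ) * (n * m : ℕ)) →
      (a = 0 ∨ b' = 0 ∨ a + b' + n * m + 1 ≤ (s + 1) * p) →
      a * (a + 1) + s * (b' * (b' + 1)) ≤ T) :
    s * ((s + 1) * p - n * m) ^ 2 ≤
      (s + 1) * T + (s + 1) * (2 * s ^ 2 * p * (n * b) + 3 * s ^ 3 * p * m) := by
  obtain ⟨X, hX⟩ : ∃ X : ℕ, (s + 1) * p = n * m + X := ⟨(s + 1) * p - n * m, by omega⟩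
  obtain ⟨N, hN⟩ : ∃ N : ℕ, N = n * m := ⟨_, rfl⟩
  obtain ⟨B, hB⟩ : ∃ B : ℕ, B = n * b := ⟨_, rfl⟩
  have hB1 : 1 ≤ B := by
    rw [hB]
    exact Nat.mul_pos hn hb
  have hXe : (s + 1) * p - n * m = X := by omega
  rw [hXe, ← hB]
  rw [← hN] at hX h
  have hsZ : (1 : ℤ) ≤ s := by exact_mod_cast hs
  have hmZ : (1 : ℤ) ≤ m := by exact_mod_cast hm
  have hBZ : (1 : ℤ) ≤ B := by exact_mod_cast hB1
  have hBZ' : (B : ℤ) = n * b := by exact_mod_cast hB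
  have hpZ : (0 : ℤ) ≤ p := Int.natCast_nonneg _
  have hXZ0 : (0 : ℤ) ≤ X := Int.natCast_nonneg _
  have hNZ0 : (0 : ℤ) ≤ N := Int.natCast_nonneg _
  have hXZ : ((s : ℤ) + 1) * p = N + X := by exact_mod_cast hX
  obtain ⟨eA, heA⟩ : ∃ e : ℤ, e = s * (B + m) := ⟨_, rfl⟩
  obtain ⟨eB, heB⟩ : ∃ e : ℤ, e = s ^ 2 * B + (s ^ 2 + s ^ 3) * m := ⟨_, rfl⟩
  have heA0 : 0 ≤ eA := by rw [heA]; positivity
  have heB0 : 0 ≤ eB := by rw [heB]; positivity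
  obtain ⟨a, ha1, ha2⟩ := numF_floor s (s * X - eA) hsZ
  obtain ⟨c, hc1, hc2⟩ := numF_floor s (X - eB) hsZ
  have hAB : 3 * (s : ℤ) + 1 ≤ eA + eB := by
    have e1 : (s : ℤ) * 1 ≤ s * B := mul_le_mul_of_nonneg_left hBZ (by omega)
    have e2 : (s : ℤ) * 1 ≤ s * m := mul_le_mul_of_nonneg_left hmZ (by omega)
    have e3 : (s : ℤ) ^ 2 * 1 ≤ s ^ 2 * B := mul_le_mul_of_nonneg_left hBZ (by positivity)
    have e4 : ((s : ℤ) ^ 2 + s ^ 3) * 1 ≤ (s ^ 2 + s ^ 3) * m :=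
      mul_le_mul_of_nonneg_left hmZ (by positivity)
    have e5 : (s : ℤ) ≤ s ^ 2 := by nlinarith
    have e6 : (0 : ℤ) ≤ s ^ 3 := by positivity
    have e7 : (s : ℤ) * (B + m) + (s ^ 2 * B + (s ^ 2 + s ^ 3) * m) =
        s * B + s * m + s ^ 2 * B + (s ^ 2 + s ^ 3) * m := by ring
    rw [heA, heB, e7]
    linarith
  have hT := h a c ?_ ?_ ?_
  · have hTZ : (a : ℤ) * (a + 1) + s * (c * (c + 1)) ≤ T := by exact_mod_cast hT
    have haZ : (0 : ℤ) ≤ a := Int.natCast_nonneg _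
    have hcZ : (0 : ℤ) ≤ c := Int.natCast_nonneg _
    have s1 := numF_sq ((s + 1) * a) (s * X) eA (by positivity) (by positivity) heA0 ha1
    have s2 := numF_sq ((s + 1) * c) X eB (by positivity) hXZ0 heB0 hc1
    have s3 : (a : ℤ) ^ 2 + s * c ^ 2 ≤ T := by
      have r1 : (a : ℤ) * (a + 1) + s * (c * (c + 1)) = a ^ 2 + s * c ^ 2 + a + s * c := by ring
      have r2 : (0 : ℤ) ≤ s * c := mul_nonneg (by omega) hcZ
      linarith
    have s4 : ((s : ℤ) + 1) ^ 2 * (a ^ 2 + s * c ^ 2) ≤ (s + 1) ^ 2 * T :=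
      mul_le_mul_of_nonneg_left s3 (by positivity)
    have s5 : (s : ℤ) * (X ^ 2 - 2 * X * eB) ≤ s * ((s + 1) * c) ^ 2 :=
      mul_le_mul_of_nonneg_left s2 (by omega)
    have s6 : (X : ℤ) ≤ (s + 1) * p := by omega
    have s7 : (X : ℤ) * (2 * s * (eA + eB)) ≤ (s + 1) * p * (2 * s * (eA + eB)) :=
      mul_le_mul_of_nonneg_right s6 (by positivity)
    have s8 : (s : ℤ) * (s + 1) * X ^ 2 - (s + 1) * p * (2 * s * (eA + eB)) ≤
        (s + 1) ^ 2 * T := by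
      have r1 : ((s : ℤ) + 1) ^ 2 * (a ^ 2 + s * c ^ 2) =
          ((s + 1) * a) ^ 2 + s * ((s + 1) * c) ^ 2 := by ring
      have r2 : ((s : ℤ) * X) ^ 2 - 2 * (s * X) * eA + s * (X ^ 2 - 2 * X * eB) =
          s * (s + 1) * X ^ 2 - X * (2 * s * (eA + eB)) := by ring
      linarith
    have s9 : ((s : ℤ) + 1) * (s * X ^ 2) ≤
        (s + 1) * ((s + 1) * T + p * (2 * s * (eA + eB))) := by
      have r1 : ((s : ℤ) + 1) * (s * X ^ 2) = s * (s + 1) * X ^ 2 := by ring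
      have r2 : ((s : ℤ) + 1) * ((s + 1) * T + p * (2 * s * (eA + eB))) =
          (s + 1) ^ 2 * T + (s + 1) * p * (2 * s * (eA + eB)) := by ring
      linarith
    have s10 : (s : ℤ) * X ^ 2 ≤ (s + 1) * T + p * (2 * s * (eA + eB)) :=
      le_of_mul_le_mul_left s9 (by omega)
    have s11 : 2 * (1 + (s : ℤ) + s ^ 2) ≤ 3 * s * (s + 1) := by nlinarith
    have s12 : (p : ℤ) * m * s ^ 2 * (2 * (1 + (s : ℤ) + s ^ 2)) ≤
        p * m * s ^ 2 * (3 * s * (s + 1)) := mul_le_mul_of_nonneg_left s11 (by positivity)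
    have s13 : (p : ℤ) * (2 * s * (eA + eB)) ≤
        (s + 1) * (2 * s ^ 2 * p * B + 3 * s ^ 3 * p * m) := by
      have r1 : (p : ℤ) * (2 * s * (eA + eB)) = (s + 1) * (2 * s ^ 2 * p * B) +
          p * m * s ^ 2 * (2 * (1 + (s : ℤ) + s ^ 2)) := by
        rw [heA, heB]
        ring
      have r2 : ((s : ℤ) + 1) * (2 * s ^ 2 * p * B + 3 * s ^ 3 * p * m) =
          (s + 1) * (2 * s ^ 2 * p * B) + p * m * s ^ 2 * (3 * s * (s + 1)) := by ring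
      linarith
    have s14 : (s : ℤ) * X ^ 2 ≤
        (s + 1) * T + (s + 1) * (2 * s ^ 2 * p * B + 3 * s ^ 3 * p * m) := by linarith
    exact_mod_cast s14
  · rcases ha2 with h0 | h0
    · exact Or.inl h0
    · right
      have e1 : ((s : ℤ) + 1) * ((N : ℤ) + ((a : ℤ) - 1) - p * s) + (s : ℤ) * n * b +
          (s : ℤ) * m = (s + 1) * a + (s + 1) * N - (s + 1) - s * ((s + 1) * p) + eA := by
        rw [heA, hBZ']
        ring
      rw [e1, hXZ]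
      have e2 : (s : ℤ) * (N + X) = s * N + s * X := by ring
      have e3 : ((s : ℤ) + 1) * N = s * N + N := by ring
      rw [e2, e3]
      omega
  · rcases hc2 with h0 | h0
    · exact Or.inl h0
    · right
      have e1 : ((s : ℤ) + 1) * ((N : ℤ) + ((c : ℤ) - 1) - p) + (s : ℤ) ^ 2 * n * b +
          ((s : ℤ) ^ 2 + (s : ℤ) ^ 3) * m =
          (s + 1) * c + (s + 1) * N - (s + 1) - (s + 1) * p + eB := by
        rw [heB, hBZ']
        ring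
      rw [e1, hXZ]
      have e3 : ((s : ℤ) + 1) * N = s * N + N := by ring
      rw [e3]
      omega
  · rcases ha2 with h0 | h0
    · exact Or.inl h0
    rcases hc2 with h1 | h1
    · exact Or.inr (Or.inl h1)
    right
    right
    have e1 : ((s : ℤ) + 1) * (a + c) ≤ (s + 1) * (X - 1) := by
      have e2 : ((s : ℤ) + 1) * (a + c) = (s + 1) * a + (s + 1) * c := by ring
      have e3 : ((s : ℤ) + 1) * (X - 1) = s * X + X - s - 1 := by ring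
      rw [e2, e3]
      omega
    have e2 : (a : ℤ) + c ≤ X - 1 := le_of_mul_le_mul_left e1 (by omega)
    omega

end DilW
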