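import Pool.Agent.Lib.DilW.Defs

/-!
# DilW.SecM: first and second moment of the numbers `N`

`N c x = #{a ∈ A | c a - x ∈ I}`, `c` a unit.

PROOF. `sec1`: for fixed `c`, `a` the number of `x` with `c a - x ∈ I` is `I.card` (`x ↦ c a - x` is a bijection);
exchange the sums (`Finset.card_filter`, `Finset.sum_comm`), `Fintype.card (ZMod p)ˣ = p - 1`.
`sec2`: `N (N - 1)` is the number of the pairs `(a, a') ∈ A × A`, `a ≠ a'`, with `c a - x ∈ I`, `c a' - x ∈ I`
(`Finset.offDiag_card`: the off-diagonal pairs of the filtered set). For fixed `a ≠ a'` the map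
`(c, x) ↦ (c a - x, c a' - x)` is a bijection from `(ZMod p)ˣ × ZMod p` to the pairs `(i, i')` with `i ≠ i'` (inverse
`c = (i - i') / (a - a')`, `x = c a - i`), so the number of `(c, x)` is the number of the pairs `i ≠ i'` of `I`:
`I.card * (I.card - 1)` (`Finset.offDiag_card`). Sum over the `A.card * (A.card - 1)` pairs.
-/

set_option autoImplicit false

open Finset

namespace DilW

variable {p : ℕ} [Fact p.Prime]

/-- the number of the elements of `c A` in the window `x + I` -/
def NC (A I : Finset (ZMod p)) (c : (ZMod p)ˣ) (x : ZMod p) : ℕ :=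
  (A.filter fun a => (c : ZMod p) * a - x ∈ I).card

private lemma secM_one (I : Finset (ZMod p)) (b : ZMod p) :
    ∑ x : ZMod p, (if b - x ∈ I then 1 else 0 : ℕ) = I.card := by
  have h : ∑ x : ZMod p, (if b - x ∈ I then 1 else 0 : ℕ)
      = ∑ y : ZMod p, (if y ∈ I then 1 else 0 : ℕ) :=
    Fintype.sum_equiv (Equiv.subLeft b) _ _ (fun x => by simp)
  rw [h]
  simp

private lemma secM_two (I : Finset (ZMod p)) (a a' : ZMod p) (ha : a ≠ a') :
    ∑ c : (ZMod p)ˣ, ∑ x : ZMod p,
      (if (c : ZMod p) * a - x ∈ I ∧ (c : ZMod p) * a' - x ∈ I then 1 else 0 : ℕ)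
      = I.card * (I.card - 1) := by
  have hne : a - a' ≠ 0 := sub_ne_zero.mpr ha
  rw [← Fintype.sum_prod_type' (f := fun (c : (ZMod p)ˣ) (x : ZMod p) =>
    (if (c : ZMod p) * a - x ∈ I ∧ (c : ZMod p) * a' - x ∈ I then 1 else 0 : ℕ))]
  rw [← Finset.card_filter]
  have h2 : I.card * (I.card - 1) = I.offDiag.card := by
    rw [Finset.offDiag_card, Nat.mul_sub_one]
  rw [h2]
  refine Finset.card_bij (fun z _ => ((z.1 : ZMod p) * a - z.2, (z.1 : ZMod p) * a' - z.2))
    ?_ ?_ ?_
  · rintro ⟨c, x⟩ hz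
    simp only [Finset.mem_filter, Finset.mem_univ, true_and] at hz
    rw [Finset.mem_offDiag]
    refine ⟨hz.1, hz.2, ?_⟩
    intro h
    have h3 : (c : ZMod p) * (a - a') = 0 := by
      have h4 : (c : ZMod p) * a - x = (c : ZMod p) * a' - x := h
      linear_combination h4
    rcases mul_eq_zero.mp h3 with h5 | h5
    · exact c.ne_zero h5
    · exact hne h5
  · rintro ⟨c, x⟩ _ ⟨c', x'⟩ _ h
    simp only [Prod.mk.injEq] at h
    obtain ⟨h1, h2'⟩ := h
    have h3 : ((c : ZMod p) - c') * (a - a') = 0 := by linear_combination h1 - h2'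
    have h4 : (c : ZMod p) = c' := by
      rcases mul_eq_zero.mp h3 with h5 | h5
      · exact sub_eq_zero.mp h5
      · exact absurd h5 hne
    have h6 : c = c' := Units.ext h4
    subst h6
    have h7 : x = x' := by linear_combination -h1
    rw [h7]
  · rintro ⟨i, i'⟩ hi
    rw [Finset.mem_offDiag] at hi
    obtain ⟨hi1, hi2, hi3⟩ := hi
    simp only at hi1 hi2 hi3
    have hii : i - i' ≠ 0 := sub_ne_zero.mpr hi3
    have hq : (i - i') / (a - a') ≠ 0 := div_ne_zero hii hne
    have e1 : (i - i') / (a - a') * a - ((i - i') / (a - a') * a - i) = i := by ring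
    have e2 : (i - i') / (a - a') * a' - ((i - i') / (a - a') * a - i) = i' := by
      field_simp
      ring
    refine ⟨(Units.mk0 _ hq, (i - i') / (a - a') * a - i), ?_, ?_⟩
    · simp only [Finset.mem_filter, Finset.mem_univ, true_and, Units.val_mk0]
      rw [e1, e2]
      exact ⟨hi1, hi2⟩
    · simp only [Units.val_mk0]
      rw [e1, e2]

theorem sec1 (A I : Finset (ZMod p)) :
    ∑ c : (ZMod p)ˣ, ∑ x : ZMod p, NC A I c x = (p - 1) * (A.card * I.card) := by
  have h1 : ∀ c : (ZMod p)ˣ, ∑ x : ZMod p, NC A I c x = A.card * I.card := by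
    intro c
    unfold NC
    simp_rw [Finset.card_filter]
    rw [Finset.sum_comm]
    simp_rw [secM_one I]
    simp
  simp_rw [h1]
  rw [Finset.sum_const, Finset.card_univ, ZMod.card_units_eq_totient,
    Nat.totient_prime (Fact.out : p.Prime), smul_eq_mul]

theorem sec2 (A I : Finset (ZMod p)) :
    ∑ c : (ZMod p)ˣ, ∑ x : ZMod p, NC A I c x * (NC A I c x - 1) =
      (A.card * (A.card - 1)) * (I.card * (I.card - 1)) := by
  have h1 : ∀ (c : (ZMod p)ˣ) (x : ZMod p), NC A I c x * (NC A I c x - 1)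
      = ∑ q ∈ A.offDiag, (if (c : ZMod p) * q.1 - x ∈ I ∧ (c : ZMod p) * q.2 - x ∈ I
          then 1 else 0 : ℕ) := by
    intro c x
    rw [← Finset.card_filter]
    unfold NC
    have h2 : ∀ s : Finset (ZMod p), s.card * (s.card - 1) = s.offDiag.card := by
      intro s
      rw [Finset.offDiag_card, Nat.mul_sub_one]
    rw [h2]
    congr 1
    ext q
    simp only [Finset.mem_offDiag, Finset.mem_filter]
    tauto
  simp_rw [h1]
  have h3 : ∀ c : (ZMod p)ˣ, ∑ x : ZMod p, ∑ q ∈ A.offDiag,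
      (if (c : ZMod p) * q.1 - x ∈ I ∧ (c : ZMod p) * q.2 - x ∈ I then 1 else 0 : ℕ)
      = ∑ q ∈ A.offDiag, ∑ x : ZMod p,
      (if (c : ZMod p) * q.1 - x ∈ I ∧ (c : ZMod p) * q.2 - x ∈ I then 1 else 0 : ℕ) := by
    intro c
    rw [Finset.sum_comm]
  simp_rw [h3]
  rw [Finset.sum_comm]
  have h4 : ∀ q ∈ A.offDiag, ∑ c : (ZMod p)ˣ, ∑ x : ZMod p,
      (if (c : ZMod p) * q.1 - x ∈ I ∧ (c : ZMod p) * q.2 - x ∈ I then 1 else 0 : ℕ)
      = I.card * (I.card - 1) := by
    intro q hq
    rw [Finset.mem_offDiag] at hq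
    exact secM_two I q.1 q.2 hq.2.2
  rw [Finset.sum_congr rfl h4, Finset.sum_const, Finset.offDiag_card, smul_eq_mul,
    Nat.mul_sub_one A.card]

end DilW
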