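import Pool.Agent.Lib.DilW.DimF
import Pool.Agent.Lib.DilW.NumF
import Pool.Agent.Lib.DilW.SecM

/-!
# DilW.Fin1: the first inequality

PROOF. `n = A.card`, `m = I.card`, `b = bb I`.
* `sum_units`: the points `z` with `z.2 ≠ 0` are the `(-x, c)`, `c` a unit: `NN A I (-x, c) = NC A I c x`
  (`-x + a c = c a - x`); the points `z` with `z.2 = 0` contribute at most `p s (s+1)`.
  So `∑_z (s - NN)(s + 1 - NN) ≤ T' + p s (s+1)`, `T' = ∑_c ∑_x (s - NC)(s+1 - NC)`.
* `fin1`. If `n m > (s+1) p` the left side is 0 (truncated subtraction). If `n = 0` or `m = 0`: `NC = 0`,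
  `T' = (p-1) p s (s+1)`, and `s (s+1)^2 p^2 ≤ (s+1)^2 s (p-1) p + 3 (s+1) s^3 p` as `s + 1 ≤ 3 s^2`. Let `n, m ≥ 1`. The
  left side is at most `s (s+1)^2 p^2`; it suffices that `(s+1) p ≤ 3 s^2 (n b + m + 1)` in the cases
  `p ≤ 2 s` (`n b + m + 1 ≥ 2`: `2 s (s+1) ≤ 6 s^2`); `b = 0` (then `I` is closed under `+1`, `I = univ`, `m = p`);
  `p > 2 s`, `b ≥ 1`, `n + s + 1 > p` (`n b + m + 1 ≥ p - s + 2`; `s = 1`: `2 p ≤ 3 (p + 1)`; `s ≥ 2`: `p - s ≥ p / 2`).
  Otherwise `numF` with `T = ∑_z (s - NN)(s+1-NN)` and `dimF`; then `sum_units` and `s (s+1) ≤ 2 s^3 + ..`: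
  `(s+1) (2 s^2 p n b + 3 s^3 p m + p s (s+1)) ≤ 3 (s+1) s^3 p (n b + m + 1)` (`s + 1 ≤ 3 s^2`).
-/

set_option autoImplicit false

open Finset

namespace DilW

variable {p : ℕ} [Fact p.Prime]

private theorem Fin1_NN (A I : Finset (ZMod p)) (c : (ZMod p)ˣ) (x : ZMod p) :
    NN A I (-x, (c : ZMod p)) = NC A I c x := by
  unfold NN NC
  congr 1
  refine filter_congr fun a _ => ?_
  have h : -x + a * (c : ZMod p) = (c : ZMod p) * a - x := by ring
  simp only [h]

private theorem Fin1_le (s n : ℕ) : (s - n) * (s + 1 - n) ≤ s * (s + 1) :=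
  Nat.mul_le_mul (Nat.sub_le _ _) (Nat.sub_le _ _)

theorem sum_units (A I : Finset (ZMod p)) (s : ℕ) :
    ∑ z : Pt p, (s - NN A I z) * (s + 1 - NN A I z) ≤
      (∑ c : (ZMod p)ˣ, ∑ x : ZMod p, (s - NC A I c x) * (s + 1 - NC A I c x)) +
        p * (s * (s + 1)) := by
  classical
  set g : ZMod p → ℕ := fun t => ∑ u : ZMod p, (s - NN A I (u, t)) * (s + 1 - NN A I (u, t))
    with hg
  have h1 : ∑ z : Pt p, (s - NN A I z) * (s + 1 - NN A I z) = ∑ t : ZMod p, g t := by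
    rw [Fintype.sum_prod_type, sum_comm]
  have h2 : ∑ t : ZMod p, g t = g 0 + ∑ t ∈ univ.erase (0 : ZMod p), g t :=
    (add_sum_erase univ g (mem_univ 0)).symm
  have h3 : ∑ t ∈ univ.erase (0 : ZMod p), g t = ∑ c : (ZMod p)ˣ, g (c : ZMod p) := by
    symm
    refine sum_bij (fun (c : (ZMod p)ˣ) _ => (c : ZMod p)) ?_ ?_ ?_ ?_
    · intro c _
      rw [mem_erase]
      exact ⟨c.ne_zero, mem_univ _⟩
    · intro c _ c' _ h
      exact Units.ext h
    · intro t ht
      exact ⟨Units.mk0 t (ne_of_mem_erase ht), mem_univ _, rfl⟩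
    · intro c _
      rfl
  have h4 : ∀ c : (ZMod p)ˣ, g (c : ZMod p) =
      ∑ x : ZMod p, (s - NC A I c x) * (s + 1 - NC A I c x) := by
    intro c
    rw [hg]
    show ∑ u : ZMod p, (s - NN A I (u, (c : ZMod p))) * (s + 1 - NN A I (u, (c : ZMod p))) = _
    rw [← Equiv.sum_comp (Equiv.neg (ZMod p))]
    refine sum_congr rfl fun x _ => ?_
    show (s - NN A I (-x, (c : ZMod p))) * (s + 1 - NN A I (-x, (c : ZMod p))) = _
    rw [Fin1_NN]
  have h5 : g 0 ≤ p * (s * (s + 1)) := by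
    rw [hg]
    calc ∑ u : ZMod p, (s - NN A I (u, 0)) * (s + 1 - NN A I (u, 0)) ≤
        ∑ _u : ZMod p, s * (s + 1) := sum_le_sum fun u _ => Fin1_le _ _
      _ = p * (s * (s + 1)) := by
        rw [sum_const, card_univ, ZMod.card, smul_eq_mul]
  rw [h1, h2, h3, add_comm]
  exact Nat.add_le_add (le_of_eq (sum_congr rfl fun c _ => h4 c)) h5

private theorem Fin1_univ {I : Finset (ZMod p)} (h0 : bb I = 0) (hI : 1 ≤ I.card) :
    I.card = p := by
  have h1 : ∀ i ∈ I, i + 1 ∈ I := by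
    intro i hi
    by_contra h
    have h2 : i ∈ I.filter fun i => i + 1 ∉ I := mem_filter.mpr ⟨hi, h⟩
    unfold bb at h0
    rw [card_eq_zero] at h0
    rw [h0] at h2
    exact absurd h2 (notMem_empty _)
  obtain ⟨i₀, hi₀⟩ := card_pos.mp hI
  have h3 : ∀ k : ℕ, i₀ + (k : ZMod p) ∈ I := by
    intro k
    induction k with
    | zero => simpa using hi₀
    | succ k ih =>
      have := h1 _ ih
      push_cast
      rwa [← add_assoc]
  have h4 : I = univ := by
    rw [eq_univ_iff_forall]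
    intro t
    have h5 := h3 (t - i₀).val
    rwa [ZMod.natCast_zmod_val, add_sub_cancel] at h5
  rw [h4, card_univ, ZMod.card]

private theorem Fin1_triv {p s D K : ℕ} (h : (s + 1) * p ≤ 3 * s ^ 2 * K) (T : ℕ) :
    s * ((s + 1) * p - D) ^ 2 ≤ (s + 1) * T + 3 * (s + 1) * s ^ 3 * p * K := by
  have h1 : ((s + 1) * p - D) ^ 2 ≤ ((s + 1) * p) * ((s + 1) * p) := by
    rw [pow_two]
    exact Nat.mul_le_mul (Nat.sub_le _ _) (Nat.sub_le _ _)
  have h2 : s * ((s + 1) * p - D) ^ 2 ≤ s * (((s + 1) * p) * (3 * s ^ 2 * K)) :=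
    Nat.mul_le_mul_left s (h1.trans (Nat.mul_le_mul_left _ h))
  refine h2.trans (le_trans (le_of_eq ?_) (Nat.le_add_left _ _))
  ring

private theorem Fin1_cube {s : ℕ} (hs : 1 ≤ s) : s + 1 ≤ 3 * s ^ 2 := by nlinarith

theorem fin1 (A I : Finset (ZMod p)) {s : ℕ} (hs : 1 ≤ s) :
    s * ((s + 1) * p - A.card * I.card) ^ 2 ≤
      (s + 1) * (∑ c : (ZMod p)ˣ, ∑ x : ZMod p, (s - NC A I c x) * (s + 1 - NC A I c x)) +
        3 * (s + 1) * s ^ 3 * p * (A.card * bb I + I.card + 1) := by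
  have hp := (Fact.out : p.Prime).two_le
  by_cases hD : A.card * I.card ≤ (s + 1) * p
  swap
  · rw [Nat.sub_eq_zero_of_le (by omega), zero_pow two_ne_zero, mul_zero]
    exact Nat.zero_le _
  by_cases h0 : A.card = 0 ∨ I.card = 0
  · have hNC : ∀ c x, NC A I c x = 0 := by
      intro c x
      unfold NC
      rcases h0 with h0 | h0
      · rw [card_eq_zero] at h0
        rw [h0, filter_empty, card_empty]
      · rw [card_eq_zero] at h0
        rw [h0, card_eq_zero, filter_eq_empty_iff]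
        intro a _
        exact notMem_empty _
    have hT : ∑ c : (ZMod p)ˣ, ∑ x : ZMod p, (s - NC A I c x) * (s + 1 - NC A I c x) =
        (p - 1) * (p * (s * (s + 1))) := by
      simp only [hNC, Nat.sub_zero]
      rw [sum_const, sum_const, card_univ, card_univ, ZMod.card, ZMod.card_units, smul_eq_mul,
        smul_eq_mul]
    rw [hT]
    obtain ⟨q, rfl⟩ : ∃ q, p = q + 1 := ⟨p - 1, by omega⟩
    rw [Nat.add_sub_cancel]
    have h1 : ((s + 1) * (q + 1) - A.card * I.card) ^ 2 ≤ ((s + 1) * (q + 1)) ^ 2 :=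
      Nat.pow_le_pow_left (Nat.sub_le _ _) 2
    have h2 := Fin1_cube hs
    have h3 : s * (s + 1) * (q + 1) * (s + 1) ≤ s * (s + 1) * (q + 1) * (3 * s ^ 2) :=
      Nat.mul_le_mul_left _ h2
    have h4 : 3 * (s + 1) * s ^ 3 * (q + 1) * 1 ≤
        3 * (s + 1) * s ^ 3 * (q + 1) * (A.card * bb I + I.card + 1) :=
      Nat.mul_le_mul_left _ (Nat.le_add_left _ _)
    calc s * ((s + 1) * (q + 1) - A.card * I.card) ^ 2 ≤ s * ((s + 1) * (q + 1)) ^ 2 :=
          Nat.mul_le_mul_left _ h1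
      _ = (s + 1) * (q * ((q + 1) * (s * (s + 1)))) + s * (s + 1) * (q + 1) * (s + 1) := by ring
      _ ≤ (s + 1) * (q * ((q + 1) * (s * (s + 1)))) + 3 * (s + 1) * s ^ 3 * (q + 1) * 1 := by
          refine Nat.add_le_add_left (h3.trans (le_of_eq ?_)) _
          ring
      _ ≤ _ := Nat.add_le_add_left h4 _
  push Not at h0
  obtain ⟨hn0, hm0⟩ := h0
  have hn : 1 ≤ A.card := Nat.pos_of_ne_zero hn0
  have hm : 1 ≤ I.card := Nat.pos_of_ne_zero hm0
  have hs3 := Fin1_cube hs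
  by_cases hps : p ≤ 2 * s
  · apply Fin1_triv
    have h1 : 3 * s ^ 2 * 2 ≤ 3 * s ^ 2 * (A.card * bb I + I.card + 1) :=
      Nat.mul_le_mul_left _ (by omega)
    have h2 : (s + 1) * p ≤ (s + 1) * (2 * s) := Nat.mul_le_mul_left _ hps
    nlinarith
  push Not at hps
  by_cases hb0 : bb I = 0
  · apply Fin1_triv
    have h1 := Fin1_univ hb0 hm
    rw [hb0, h1, mul_zero, zero_add]
    calc (s + 1) * p ≤ 3 * s ^ 2 * p := Nat.mul_le_mul_right _ hs3
      _ ≤ 3 * s ^ 2 * (p + 1) := Nat.mul_le_mul_left _ (by omega)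
  have hb : 1 ≤ bb I := Nat.pos_of_ne_zero hb0
  by_cases hA : A.card + s + 1 ≤ p
  swap
  · apply Fin1_triv
    have h1 : A.card ≤ A.card * bb I := Nat.le_mul_of_pos_right _ hb
    have h2 : p ≤ A.card * bb I + I.card + 1 + (s - 2) := by
      omega
    have h3 : 3 * s ^ 2 * (p - (s - 2)) ≤ 3 * s ^ 2 * (A.card * bb I + I.card + 1) :=
      Nat.mul_le_mul_left _ (by omega)
    refine le_trans ?_ h3
    rcases Nat.lt_or_ge s 2 with h4 | h4
    · have h5 : s = 1 := by omega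
      subst h5
      omega
    · obtain ⟨t, rfl⟩ : ∃ t, s = t + 2 := ⟨s - 2, by omega⟩
      rw [Nat.add_sub_cancel]
      have h6 : p ≤ 2 * (p - t) := by omega
      have h7 : (t + 2 + 1) * p ≤ (t + 2 + 1) * (2 * (p - t)) := Nat.mul_le_mul_left _ h6
      have h8 : (t + 2 + 1) * 2 ≤ 3 * (t + 2) ^ 2 := by nlinarith
      calc (t + 2 + 1) * p ≤ (t + 2 + 1) * (2 * (p - t)) := h7
        _ = (t + 2 + 1) * 2 * (p - t) := by ring
        _ ≤ 3 * (t + 2) ^ 2 * (p - t) := Nat.mul_le_mul_right _ h8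
  · have hmain := numF p s A.card I.card (bb I)
      (∑ z : Pt p, (s - NN A I z) * (s + 1 - NN A I z)) hs hn hm hb hD
      (fun a b' ha hb' hC => dimF A I hs (by omega) hD hA ha hb' hC)
    have hsu := sum_units A I s
    have h1 := hmain.trans (Nat.add_le_add_right (Nat.mul_le_mul_left (s + 1) hsu) _)
    refine h1.trans ?_
    rw [mul_add, add_assoc]
    refine Nat.add_le_add_left ?_ _
    have e2 : s * (s + 1) ≤ 3 * s ^ 3 := by
      calc s * (s + 1) ≤ s * (3 * s ^ 2) := Nat.mul_le_mul_left _ hs3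
        _ = 3 * s ^ 3 := by ring
    have e3 : 2 * s ^ 2 ≤ 3 * s ^ 3 := by
      calc 2 * s ^ 2 ≤ 3 * s ^ 2 * s := by nlinarith
        _ = 3 * s ^ 3 := by ring
    calc (s + 1) * (p * (s * (s + 1))) +
          (s + 1) * (2 * s ^ 2 * p * (A.card * bb I) + 3 * s ^ 3 * p * I.card) =
        (s + 1) * p * (s * (s + 1)) + (s + 1) * p * (A.card * bb I) * (2 * s ^ 2) +
          (s + 1) * (3 * s ^ 3 * p * I.card) := by ring
      _ ≤ (s + 1) * p * (3 * s ^ 3) + (s + 1) * p * (A.card * bb I) * (3 * s ^ 3) +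
          (s + 1) * (3 * s ^ 3 * p * I.card) :=
          Nat.add_le_add_right (Nat.add_le_add (Nat.mul_le_mul_left _ e2)
            (Nat.mul_le_mul_left _ e3)) _
      _ = 3 * (s + 1) * s ^ 3 * p * (A.card * bb I + I.card + 1) := by ring

end DilW
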