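import Pool.Agent.Lib.DilW.Fin1

/-!
# DilW.Fin2: the second inequality and the general difference

PROOF. `fin2`: `D = n m`, `N = NC A I c x`, in integers `(N - s)(N - s - 1) = (s - N)_+ (s+1-N)_+ + (N - s)_+ (N-s-1)_+` and
`= N (N - 1) - 2 s N + s (s+1)`. Sum over `(c, x)` (`sec1`, `sec2`): with `up`, `low` the two sums,
`up + low = n(n-1) m(m-1) - 2 s (p-1) D + s (s+1) p (p-1)`. By `fin1` (`X = (s+1) p - D ≥ 0`)
`(s+1) low ≥ s X^2 - err`, so `(s+1) up ≤ (s+1) [...] - s X^2 + err`, and (expand, `n(n-1)m(m-1) = D (D - n - m + 1)`)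
`(s+1)[...] - s X^2 = D^2 - (s+1) D (n+m-1) + 2 s (s+1) D - s (s+1)^2 p ≤ D^2 + (s+1)(s-1) D ≤ D^2 + (s+1) s^3 p`
(using `(s+1) p ≥ D`; if `D ≥ 1` then `n + m - 1 ≥ 1`; `(s-1)(s+1) ≤ s^3`).

`fin3`: for `d ≠ 0` let `I' = univ.filter fun i => d * i ∈ I` (`= d⁻¹ I`): `I'.card = I.card`,
`bb I' = (I.filter fun i => i + d ∉ I).card` (bijection `i ↦ d i`), and `NC A I c x = NC A I' (c / d) (x / d)`:
the sums over all `(c, x)` are the same (`Equiv.sum_comp`).
-/

set_option autoImplicit false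

open Finset

namespace DilW

variable {p : ℕ} [Fact p.Prime]

private theorem Fin2_pt (N s : ℕ) :
    ((s - N : ℕ) : ℤ) * ((s + 1 - N : ℕ) : ℤ) + ((N - s : ℕ) : ℤ) * ((N - s - 1 : ℕ) : ℤ) =
      ((N * (N - 1) : ℕ) : ℤ) - 2 * s * N + s * (s + 1) := by
  have h0 : ((N * (N - 1) : ℕ) : ℤ) = (N : ℤ) * (N - 1) := by
    rcases Nat.eq_zero_or_pos N with h | h
    · subst h; simp
    · push_cast [Nat.cast_sub h]; ring
  rw [h0]
  rcases Nat.lt_or_ge s N with h | h
  · have h1 : s + 1 - N = 0 := by omega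
    have h2 : ((N - s : ℕ) : ℤ) = (N : ℤ) - s := by
      rw [Nat.cast_sub h.le]
    have h3 : ((N - s - 1 : ℕ) : ℤ) = (N : ℤ) - s - 1 := by
      rw [Nat.cast_sub (by omega), h2, Nat.cast_one]
    rw [h1, h2, h3]
    push_cast
    ring
  · have h1 : N - s = 0 := by omega
    have h2 : ((s - N : ℕ) : ℤ) = (s : ℤ) - N := by
      rw [Nat.cast_sub h]
    have h3 : ((s + 1 - N : ℕ) : ℤ) = (s : ℤ) + 1 - N := by
      rw [Nat.cast_sub (by omega)]
      push_cast
      ring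
    rw [h1, h2, h3]
    push_cast
    ring

private theorem Fin2_sum (A I : Finset (ZMod p)) (s : ℕ) :
    ((∑ c : (ZMod p)ˣ, ∑ x : ZMod p, (s - NC A I c x) * (s + 1 - NC A I c x) : ℕ) : ℤ) +
      ((∑ c : (ZMod p)ˣ, ∑ x : ZMod p, (NC A I c x - s) * (NC A I c x - s - 1) : ℕ) : ℤ) =
    (((A.card * (A.card - 1)) * (I.card * (I.card - 1)) : ℕ) : ℤ) -
      2 * s * (((p - 1) * (A.card * I.card) : ℕ) : ℤ) +
      (((p - 1) * p : ℕ) : ℤ) * (s * (s + 1)) := by
  rw [← sec1 A I, ← sec2 A I]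
  have hc : (((p - 1) * p : ℕ) : ℤ) * (s * (s + 1)) =
      ∑ _c : (ZMod p)ˣ, ∑ _x : ZMod p, ((s : ℤ) * (s + 1)) := by
    rw [sum_const, sum_const, card_univ, card_univ, ZMod.card, ZMod.card_units_eq_totient,
      Nat.totient_prime (Fact.out : p.Prime), nsmul_eq_mul, nsmul_eq_mul]
    push_cast
    ring
  rw [hc]
  push_cast
  rw [mul_sum, ← sum_add_distrib, ← sum_sub_distrib, ← sum_add_distrib]
  refine sum_congr rfl fun c _ => ?_
  rw [mul_sum, ← sum_add_distrib, ← sum_sub_distrib, ← sum_add_distrib]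
  refine sum_congr rfl fun x _ => ?_
  have h := Fin2_pt (NC A I c x) s
  rw [h]
  push_cast
  ring

theorem fin2 (A I : Finset (ZMod p)) {s : ℕ} (hs : 1 ≤ s)
    (hD : A.card * I.card ≤ (s + 1) * p) :
    (s + 1) * (∑ c : (ZMod p)ˣ, ∑ x : ZMod p, (NC A I c x - s) * (NC A I c x - s - 1)) ≤
      (A.card * I.card) ^ 2 + 4 * (s + 1) * s ^ 3 * p * (A.card * bb I + I.card + 1) := by
  have hp := (Fact.out : p.Prime).two_le
  have h1 := fin1 A I hs
  have h2 := Fin2_sum A I s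
  generalize (∑ c : (ZMod p)ˣ, ∑ x : ZMod p, (s - NC A I c x) * (s + 1 - NC A I c x)) = low
    at h1 h2
  generalize (∑ c : (ZMod p)ˣ, ∑ x : ZMod p, (NC A I c x - s) * (NC A I c x - s - 1)) = up
    at h2 ⊢
  generalize A.card = n at *
  generalize I.card = m at *
  generalize bb I = b at *
  have hnn : ((n * (n - 1) : ℕ) : ℤ) = (n : ℤ) * (n - 1) := by
    rcases Nat.eq_zero_or_pos n with h | h
    · subst h; simp
    · push_cast [Nat.cast_sub h]; ring
  have hmm : ((m * (m - 1) : ℕ) : ℤ) = (m : ℤ) * (m - 1) := by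
    rcases Nat.eq_zero_or_pos m with h | h
    · subst h; simp
    · push_cast [Nat.cast_sub h]; ring
  have hpp : ((p - 1 : ℕ) : ℤ) = (p : ℤ) - 1 := by
    rw [Nat.cast_sub (by omega), Nat.cast_one]
  have hX : (((s + 1) * p - n * m : ℕ) : ℤ) = ((s : ℤ) + 1) * p - n * m := by
    rw [Nat.cast_sub hD]
    push_cast
    ring
  have h1' : (s : ℤ) * (((s : ℤ) + 1) * p - n * m) ^ 2 ≤
      ((s : ℤ) + 1) * low + 3 * (s + 1) * s ^ 3 * p * (n * b + m + 1) := by
    rw [← hX]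
    exact_mod_cast h1
  have h2' : (low : ℤ) + up = (n : ℤ) * (n - 1) * (m * (m - 1)) -
      2 * s * ((p - 1) * (n * m)) + (p - 1) * p * (s * (s + 1)) := by
    rw [h2]
    rw [Nat.cast_mul, hnn, hmm, Nat.cast_mul (p - 1) (n * m), Nat.cast_mul (p - 1) p, hpp]
    push_cast
    ring
  have hD' : (n : ℤ) * m ≤ ((s : ℤ) + 1) * p := by exact_mod_cast hD
  have hs' : (1 : ℤ) ≤ s := by exact_mod_cast hs
  have hp' : (2 : ℤ) ≤ p := by exact_mod_cast hp
  have hn0 : (0 : ℤ) ≤ n := Int.natCast_nonneg n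
  have hm0 : (0 : ℤ) ≤ m := Int.natCast_nonneg m
  have hb0 : (0 : ℤ) ≤ b := Int.natCast_nonneg b
  -- the key inequality
  have hkey : -((s : ℤ) + 1) * (n * m) * (n + m - 1) + 2 * s * (s + 1) * (n * m) -
      s * (s + 1) ^ 2 * p ≤ (s + 1) * s ^ 3 * p := by
    have hE : 0 ≤ ((s : ℤ) + 1) * s ^ 3 * p := by positivity
    rcases Nat.eq_zero_or_pos (n * m) with h | h
    · have h' : (n : ℤ) * m = 0 := by exact_mod_cast h
      rw [h']
      have : 0 ≤ (s : ℤ) * (s + 1) ^ 2 * p := by positivity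
      linarith
    · have hn1 : 1 ≤ n := Nat.pos_of_mul_pos_right h |> fun h => by
        rcases Nat.eq_zero_or_pos n with h0 | h0
        · subst h0; simp at *
        · exact h0
      have hm1 : 1 ≤ m := by
        rcases Nat.eq_zero_or_pos m with h0 | h0
        · subst h0; simp at *
        · exact h0
      have hnm : (1 : ℤ) ≤ (n : ℤ) + m - 1 := by
        have a1 : (1 : ℤ) ≤ n := by exact_mod_cast hn1
        have a2 : (1 : ℤ) ≤ m := by exact_mod_cast hm1
        linarith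
      have hD0 : (0 : ℤ) ≤ (n : ℤ) * m := by positivity
      set D : ℤ := (n : ℤ) * m with hDdef
      have e1 : ((s : ℤ) + 1) * D * 1 ≤ (s + 1) * D * (n + m - 1) :=
        mul_le_mul_of_nonneg_left hnm (by positivity)
      have e2 : (s : ℤ) * (s + 1) * D ≤ s * (s + 1) * ((s + 1) * p) :=
        mul_le_mul_of_nonneg_left hD' (by positivity)
      have e3 : ((s : ℤ) + 1) * (s - 1) * D ≤ (s + 1) * (s - 1) * ((s + 1) * p) :=
        mul_le_mul_of_nonneg_left hD' (mul_nonneg (by positivity) (by linarith))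
      have e4 : ((s : ℤ) - 1) * (s + 1) ≤ s ^ 3 := by
        have e40 : (s : ℤ) ^ 2 * 1 ≤ (s : ℤ) ^ 2 * s := mul_le_mul_of_nonneg_left hs' (by positivity)
        calc ((s : ℤ) - 1) * (s + 1) = (s : ℤ) ^ 2 * 1 - 1 := by ring
          _ ≤ (s : ℤ) ^ 2 * s := by linarith
          _ = (s : ℤ) ^ 3 := by ring
      have e5 : ((s : ℤ) + 1) * p * ((s - 1) * (s + 1)) ≤ (s + 1) * p * s ^ 3 :=
        mul_le_mul_of_nonneg_left e4 (by positivity)
      calc -((s : ℤ) + 1) * D * (n + m - 1) + 2 * s * (s + 1) * D - s * (s + 1) ^ 2 * p =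
          -((s + 1) * D * (n + m - 1)) + 2 * s * (s + 1) * D - s * (s + 1) * ((s + 1) * p) := by ring
        _ ≤ -((s + 1) * D * 1) + 2 * s * (s + 1) * D - s * (s + 1) * D := by linarith
        _ = ((s : ℤ) + 1) * (s - 1) * D := by ring
        _ ≤ (s + 1) * (s - 1) * ((s + 1) * p) := e3
        _ = ((s : ℤ) + 1) * p * ((s - 1) * (s + 1)) := by ring
        _ ≤ (s + 1) * p * s ^ 3 := e5
        _ = (s + 1) * s ^ 3 * p := by ring
  have hfin : ((s : ℤ) + 1) * up ≤ ((n : ℤ) * m) ^ 2 +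
      4 * (s + 1) * s ^ 3 * p * (n * b + m + 1) := by
    have e6 : ((s : ℤ) + 1) * s ^ 3 * p * 1 ≤ (s + 1) * s ^ 3 * p * (n * b + m + 1) := by
      apply mul_le_mul_of_nonneg_left _ (by positivity)
      have : (0 : ℤ) ≤ (n : ℤ) * b := by positivity
      linarith
    have e7 : ((s : ℤ) + 1) * up = (s + 1) * ((n : ℤ) * (n - 1) * (m * (m - 1)) -
      2 * s * ((p - 1) * (n * m)) + (p - 1) * p * (s * (s + 1))) - (s + 1) * low := by
      rw [← h2']
      ring
    have e8 : ((s : ℤ) + 1) * ((n : ℤ) * (n - 1) * (m * (m - 1)) -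
      2 * s * ((p - 1) * (n * m)) + (p - 1) * p * (s * (s + 1))) -
      s * (((s : ℤ) + 1) * p - n * m) ^ 2 = ((n : ℤ) * m) ^ 2 +
      (-((s : ℤ) + 1) * (n * m) * (n + m - 1) + 2 * s * (s + 1) * (n * m) -
      s * (s + 1) ^ 2 * p) := by
      ring
    linarith
  exact_mod_cast hfin

theorem fin3 (A I : Finset (ZMod p)) (d : ZMod p) (hd : d ≠ 0) :
    ∃ I' : Finset (ZMod p), I'.card = I.card ∧
      bb I' = (I.filter fun i => i + d ∉ I).card ∧
      ∀ F : ℕ → ℕ, ∑ c : (ZMod p)ˣ, ∑ x : ZMod p, F (NC A I c x) =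
        ∑ c : (ZMod p)ˣ, ∑ x : ZMod p, F (NC A I' c x) := by
  classical
  have hinj : Function.Injective fun i : ZMod p => d⁻¹ * i := fun a b h =>
    mul_left_cancel₀ (inv_ne_zero hd) h
  have hmem : ∀ j : ZMod p, j ∈ I.image (fun i : ZMod p => d⁻¹ * i) ↔ d * j ∈ I := by
    intro j
    rw [mem_image]
    constructor
    · rintro ⟨i, hi, rfl⟩
      rwa [mul_inv_cancel_left₀ hd]
    · intro h
      exact ⟨d * j, h, inv_mul_cancel_left₀ hd j⟩
  refine ⟨I.image fun i => d⁻¹ * i, card_image_of_injective I hinj, ?_, ?_⟩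
  · unfold bb
    refine card_bij (fun i _ => d * i) ?_ ?_ ?_
    · intro i hi
      rw [mem_filter] at hi
      rw [mem_filter]
      refine ⟨(hmem i).mp hi.1, fun h => hi.2 ((hmem _).mpr ?_)⟩
      rwa [mul_add, mul_one]
    · intro a _ b _ h
      exact mul_left_cancel₀ hd h
    · intro j hj
      rw [mem_filter] at hj
      refine ⟨d⁻¹ * j, ?_, mul_inv_cancel_left₀ hd j⟩
      rw [mem_filter]
      refine ⟨(hmem _).mpr (by rw [mul_inv_cancel_left₀ hd]; exact hj.1), fun h => hj.2 ?_⟩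
      have h2 := (hmem _).mp h
      rwa [mul_add, mul_inv_cancel_left₀ hd, mul_one] at h2
  · intro F
    have hNC : ∀ (c : (ZMod p)ˣ) (x : ZMod p), NC A I c x =
        NC A (I.image fun i => d⁻¹ * i) (c * (Units.mk0 d hd)⁻¹) (d⁻¹ * x) := by
      intro c x
      unfold NC
      congr 1
      refine filter_congr fun a _ => ?_
      rw [hmem]
      have h : d * (((c * (Units.mk0 d hd)⁻¹ : (ZMod p)ˣ) : ZMod p) * a - d⁻¹ * x) =
          (c : ZMod p) * a - x := by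
        rw [Units.val_mul, Units.val_inv_eq_inv_val, Units.val_mk0]
        field_simp
      rw [h]
    have h1 : ∀ c : (ZMod p)ˣ, ∑ x : ZMod p, F (NC A I c x) =
        ∑ x : ZMod p, F (NC A (I.image fun i => d⁻¹ * i) (c * (Units.mk0 d hd)⁻¹) x) := by
      intro c
      rw [← Equiv.sum_comp (Equiv.mulLeft₀ d⁻¹ (inv_ne_zero hd))
        (fun x => F (NC A (I.image fun i => d⁻¹ * i) (c * (Units.mk0 d hd)⁻¹) x))]
      refine sum_congr rfl fun x _ => ?_
      rw [hNC c x]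
      rfl
    rw [sum_congr rfl fun c _ => h1 c]
    exact Equiv.sum_comp (Equiv.mulRight (Units.mk0 d hd)⁻¹)
      (fun c => ∑ x : ZMod p, F (NC A (I.image fun i => d⁻¹ * i) c x))

end DilW
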