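import Pool.Agent.Lib.DilW.JetA
import Pool.Agent.Lib.DilW.ExpB

/-!
# DilW.Gen: polynomials whose Taylor coefficients vanish

PROOF of `gen`: induction on `K`. `K = 0`: `g 0 = H`, `P = Q = 0`. Step `K → K + 1`: by the induction
hypothesis `H = ∑_{m ≤ K} g_m w^m v^(K-m) + w^s P + v^s Q`. Fix `m ≤ K`.
* If `m < s` and `K - m < s`, then for every `z` the coefficient `jt H z m (K-m)` is 0 (hypothesis, `m + (K-m) = K < K+1`)
  and equals `(-1)^K ev z (g_m)`: `jt_wv_self` for the term `m`; the other terms `m'` vanish by `jt_wv_zero`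
  (`m < m'` or `K - m < K - m'`), `w^s P = P * (w^s v^0)` by `m < s`, `v^s Q = Q * (w^0 v^s)` by `K - m < s`.
  So `g_m` vanishes at all points and `expB` gives `g_m = w P_m + v Q_m`, `DB (d - p K - p)`.
* If `m ≥ s`: `g_m w^m v^(K-m) = w^s (g_m w^(m-s) v^(K-m))`, degree `≤ d - pK + p(m-s) + p(K-m) = d - p s`.
* If `K - m ≥ s`: the same with `v^s`.
Put `P_m = Q_m = 0` in the last two cases and `g'_m = P_(m-1) + Q_m` (`P_(-1) = 0`, `Q_(K+1) = 0`):
`∑_{m ≤ K} (w P_m + v Q_m) w^m v^(K-m) = ∑_{m ≤ K+1} g'_m w^m v^(K+1-m)` (`Finset.sum_range_succ`,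
`Finset.sum_range_succ'`).
-/

set_option autoImplicit false

open Finset MvPolynomial

namespace DilW

variable {p : ℕ} [Fact p.Prime]

/-- the coefficient `g_m` vanishes at all points -/
private theorem gen_ev {s K : ℕ} (H : S p) (g : ℕ → S p) (P Q : S p)
    (hj : ∀ z, ∀ i < s, ∀ j < s, i + j < K + 1 → jt H z i j = 0)
    (hH : H = ∑ m ∈ range (K + 1), g m * (ww ^ m * vv ^ (K - m)) + ww ^ s * P + vv ^ s * Q)
    {m : ℕ} (hm : m ≤ K) (h1 : m < s) (h2 : K - m < s) (z : Pt p) : ev z (g m) = 0 := by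
  have h3 := hj z m h1 (K - m) h2 (by omega)
  rw [hH, jt_add, jt_add, jt_sum] at h3
  have e1 : jt (ww ^ s * P) z m (K - m) = 0 := by
    have : ww ^ s * P = P * (ww ^ s * vv ^ 0) := by ring
    rw [this]
    exact jt_wv_zero _ _ _ _ _ _ (Or.inl h1)
  have e2 : jt (vv ^ s * Q) z m (K - m) = 0 := by
    have : vv ^ s * Q = Q * (ww ^ 0 * vv ^ s) := by ring
    rw [this]
    exact jt_wv_zero _ _ _ _ _ _ (Or.inr h2)
  rw [e1, e2, add_zero, add_zero, Finset.sum_eq_single m] at h3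
  · rw [jt_wv_self] at h3
    rcases mul_eq_zero.1 h3 with h4 | h4
    · exact absurd h4 (pow_ne_zero _ (neg_ne_zero.2 one_ne_zero))
    · exact h4
  · intro m' hm' hne
    have hm'2 := mem_range.1 hm'
    rcases lt_or_gt_of_ne hne with h5 | h5
    · exact jt_wv_zero _ _ _ _ _ _ (Or.inr (by omega))
    · exact jt_wv_zero _ _ _ _ _ _ (Or.inl h5)
  · intro h5
    exact absurd (mem_range.2 (by omega)) h5

/-- one term -/
private theorem gen_term {s K : ℕ} {d : ℤ} (H : S p) (g : ℕ → S p) (P Q : S p)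
    (hj : ∀ z, ∀ i < s, ∀ j < s, i + j < K + 1 → jt H z i j = 0)
    (hH : H = ∑ m ∈ range (K + 1), g m * (ww ^ m * vv ^ (K - m)) + ww ^ s * P + vv ^ s * Q)
    (hg : ∀ m, DB (d - p * K) (g m)) (m : ℕ) :
    ∃ P' Q' A' B' : S p, (m ≤ K → g m * (ww ^ m * vv ^ (K - m)) =
        (ww * P' + vv * Q') * (ww ^ m * vv ^ (K - m)) + ww ^ s * A' + vv ^ s * B') ∧
      (K < m → Q' = 0) ∧ DB (d - p * (K + 1 : ℕ)) P' ∧ DB (d - p * (K + 1 : ℕ)) Q' ∧
      DB (d - p * s) A' ∧ DB (d - p * s) B' := by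
  by_cases hm : m ≤ K
  swap
  · exact ⟨0, 0, 0, 0, fun h => absurd h hm, fun _ => rfl, DB_zero _, DB_zero _, DB_zero _,
      DB_zero _⟩
  by_cases h1 : m < s
  swap
  · refine ⟨0, 0, g m * (ww ^ (m - s) * vv ^ (K - m)), 0, fun _ => ?_, fun _ => rfl, DB_zero _,
      DB_zero _, ?_, DB_zero _⟩
    · have : (ww : S p) ^ m = ww ^ s * ww ^ (m - s) := by
        rw [← pow_add]
        congr 1
        omega
      rw [this]
      ring
    · refine DB_mono (DB_mul (hg m) (DB_mul (DB_pow DB_ww (m - s)) (DB_pow DB_vv (K - m)))) ?_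
      have e1 : ((m - s : ℕ) : ℤ) = m - s := by
        rw [Nat.cast_sub (by omega)]
      have e2 : ((K - m : ℕ) : ℤ) = K - m := by
        rw [Nat.cast_sub hm]
      rw [e1, e2]
      apply le_of_eq
      ring
  by_cases h2 : K - m < s
  swap
  · refine ⟨0, 0, 0, g m * (ww ^ m * vv ^ (K - m - s)), fun _ => ?_, fun _ => rfl, DB_zero _,
      DB_zero _, DB_zero _, ?_⟩
    · have : (vv : S p) ^ (K - m) = vv ^ s * vv ^ (K - m - s) := by
        rw [← pow_add]
        congr 1
        omega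
      rw [this]
      ring
    · refine DB_mono (DB_mul (hg m) (DB_mul (DB_pow DB_ww m) (DB_pow DB_vv (K - m - s)))) ?_
      have e1 : ((K - m - s : ℕ) : ℤ) = K - m - s := by
        rw [Nat.cast_sub (by omega), Nat.cast_sub hm]
      rw [e1]
      apply le_of_eq
      ring
  obtain ⟨P', Q', h3, h4, h5⟩ := expB (g m) (hg m) (gen_ev H g P Q hj hH hm h1 h2)
  have e : d - p * K - p = d - p * ((K + 1 : ℕ) : ℤ) := by
    push_cast
    ring
  rw [e] at h4 h5
  refine ⟨P', Q', 0, 0, fun _ => ?_, fun h => absurd h (by omega), h4, h5, DB_zero _, DB_zero _⟩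
  rw [h3]
  ring

theorem gen {s K : ℕ} {d : ℤ} (H : S p) (hd : DB d H)
    (hj : ∀ z, ∀ i < s, ∀ j < s, i + j < K → jt H z i j = 0) :
    ∃ (g : ℕ → S p) (P Q : S p),
      H = ∑ m ∈ range (K + 1), g m * (ww ^ m * vv ^ (K - m)) + ww ^ s * P + vv ^ s * Q ∧
      (∀ m, DB (d - p * K) (g m)) ∧ DB (d - p * s) P ∧ DB (d - p * s) Q := by
  induction K with
  | zero =>
    refine ⟨fun _ => H, 0, 0, ?_, fun _ => ?_, DB_zero _, DB_zero _⟩
    · simp
    · refine DB_mono hd ?_
      simp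
  | succ K ih =>
    obtain ⟨g, P, Q, hH, hg, hP, hQ⟩ := ih fun z i hi j hjs hij => hj z i hi j hjs (by omega)
    choose P' Q' A' B' h1 h2 h3 h4 h5 h6 using gen_term H g P Q hj hH hg
    refine ⟨fun m => (if m = 0 then 0 else P' (m - 1)) + Q' m,
      ∑ m ∈ range (K + 1), A' m + P, ∑ m ∈ range (K + 1), B' m + Q, ?_, fun m => ?_,
      DB_add (DB_sum _ _ fun m _ => h5 m) hP, DB_add (DB_sum _ _ fun m _ => h6 m) hQ⟩
    · have e1 : ∑ m ∈ range (K + 1), g m * (ww ^ m * vv ^ (K - m)) =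
          ∑ m ∈ range (K + 1), P' m * (ww ^ (m + 1) * vv ^ (K - m)) +
          ∑ m ∈ range (K + 1), Q' m * (ww ^ m * vv ^ (K + 1 - m)) +
          ww ^ s * ∑ m ∈ range (K + 1), A' m + vv ^ s * ∑ m ∈ range (K + 1), B' m := by
        rw [Finset.mul_sum, Finset.mul_sum, ← Finset.sum_add_distrib, ← Finset.sum_add_distrib,
          ← Finset.sum_add_distrib]
        refine Finset.sum_congr rfl fun m hm => ?_
        have hm' : m ≤ K := by
          have := mem_range.1 hm
          omega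
        rw [h1 m hm']
        have e2 : K + 1 - m = (K - m) + 1 := by omega
        rw [e2, pow_succ, pow_succ]
        ring
      have e3 : ∑ m ∈ range (K + 1 + 1), ((if m = 0 then 0 else P' (m - 1)) + Q' m) *
          (ww ^ m * vv ^ (K + 1 - m)) =
          ∑ m ∈ range (K + 1), P' m * (ww ^ (m + 1) * vv ^ (K - m)) +
          ∑ m ∈ range (K + 1), Q' m * (ww ^ m * vv ^ (K + 1 - m)) := by
        simp only [add_mul]
        rw [Finset.sum_add_distrib]
        congr 1
        · rw [Finset.sum_range_succ']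
          simp only [Nat.add_eq_zero_iff, one_ne_zero, and_false, if_false, Nat.add_sub_cancel,
            if_true, zero_mul, add_zero]
          refine Finset.sum_congr rfl fun m _ => ?_
          have e4 : K + 1 - (m + 1) = K - m := by omega
          rw [e4]
        · rw [Finset.sum_range_succ, h2 (K + 1) (by omega), zero_mul, add_zero]
      rw [e3]
      rw [hH, e1]
      ring
    · refine DB_add ?_ (h4 m)
      split_ifs
      · exact DB_zero _
      · exact h3 _

end DilW
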