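import Pool.Agent.Lib.DilW.Defs

/-!
# DilW.JetA: Taylor coefficients

* `tr_ww`: `tr z` is an algebra homomorphism, `tr z (X 0) = X 0 + C z.1` (`aeval_X`);
  `(X 0 + C z.1)^p = X 0^p + C (z.1^p)` (`add_pow_char` or `add_pow_char_pow`; `CharP (S p) p`), `z.1^p = z.1`
  (`ZMod.pow_card`). `tr_vv` the same.
* `tr_ln`: expand. `tr_tr`: both sides are algebra homomorphisms, `MvPolynomial.algHom_ext`.
* `jt_zero`: `coeff 0 = constantCoeff`, and `constantCoeff ∘ tr z = eval ![z.1, z.2]` (compare on `X 0`, `X 1`,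
  `C a`, e.g. `MvPolynomial.induction_on` or `MvPolynomial.ringHom_ext`).
* `jt_mul`: `coeff_mul`, the antidiagonal of `ee i j` is in bijection with `range (i+1) × range (j+1)`
  (`m ↦ (m.1 0, m.1 1)`, inverse `(a, b) ↦ (ee a b, ee (i-a) (j-b))`).
* `jt_wv_zero`, `jt_wv_self`: `tr z (F * (ww^m * vv^m')) = tr z F * (ww^m * vv^m')` (`tr_ww`, `tr_vv`), and
  `ww = X 0 * (X 0^(p-1) - 1)`, `vv = X 1 * (X 1^(p-1) - 1)`, so this is `G * monomial (ee m m') 1` with
  `G = tr z F * (X 0^(p-1) - 1)^m * (X 1^(p-1) - 1)^m'`; `coeff_mul_monomial'`. For `(i, j) = (m, m')` the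
  result is the constant coefficient of `G`, `ev z F * (-1)^m * (-1)^m'` (`p - 1 ≥ 1`).
* `OG_mul`: `jt_mul`: in each term `i' + j' < k` or `(i - i') + (j - j') < l`.
* `OG_RR`: induction on `A` (`Finset.induction_on`, `OG_mul`; `NN (insert a A)` adds 1 if `z.1 + a z.2 ∈ I`):
  for `a` with `z.1 + a z.2 = i₀ ∈ I` the product over `I` contains `ln a i₀`, whose value at `z` is 0
  (`jt_zero`), so the product vanishes at `z` (order 1).
-/

set_option autoImplicit false

open Finset MvPolynomial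

namespace DilW

variable {p : ℕ} [Fact p.Prime]

private theorem JetA_ee0 (i j : ℕ) : ee i j 0 = i := by
  simp [ee]

private theorem JetA_ee1 (i j : ℕ) : ee i j 1 = j := by
  simp [ee]

private theorem JetA_eta (m : Fin 2 →₀ ℕ) : ee (m 0) (m 1) = m := by
  ext k
  fin_cases k
  · exact JetA_ee0 _ _
  · exact JetA_ee1 _ _

private theorem JetA_X0 (z : Pt p) : tr z (X 0) = X 0 + C z.1 := by
  simp [tr]

private theorem JetA_X1 (z : Pt p) : tr z (X 1) = X 1 + C z.2 := by
  simp [tr]

private theorem JetA_C (z : Pt p) (a : ZMod p) : tr z (C a) = C a := by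
  simp [tr]

theorem tr_ww (z : Pt p) : tr z ww = ww := by
  unfold ww
  rw [map_sub, map_pow, JetA_X0, add_pow_char, ← C_pow, ZMod.pow_card]
  ring

theorem tr_vv (z : Pt p) : tr z vv = vv := by
  unfold vv
  rw [map_sub, map_pow, JetA_X1, add_pow_char, ← C_pow, ZMod.pow_card]
  ring

theorem tr_ln (z : Pt p) (a i : ZMod p) : tr z (ln a i) = ln a (i - z.1 - a * z.2) := by
  unfold ln
  rw [map_sub, map_add, map_mul, JetA_X0, JetA_X1, JetA_C, JetA_C, C_sub, C_sub, C_mul]
  ring

theorem tr_tr (z z' : Pt p) (F : S p) : tr z (tr z' F) = tr (z + z') F := by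
  have h : (tr z).comp (tr z') = tr (z + z') := by
    refine MvPolynomial.algHom_ext fun k => ?_
    fin_cases k
    · show tr z (tr z' (X 0)) = tr (z + z') (X 0)
      rw [JetA_X0, map_add, JetA_X0, JetA_C, JetA_X0, Prod.fst_add, C_add, add_assoc]
    · show tr z (tr z' (X 1)) = tr (z + z') (X 1)
      rw [JetA_X1, map_add, JetA_X1, JetA_C, JetA_X1, Prod.snd_add, C_add, add_assoc]
  rw [← h]
  rfl

theorem tr_zero (F : S p) : tr (0 : Pt p) F = F := by
  have h : tr (0 : Pt p) = AlgHom.id (ZMod p) (S p) := by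
    refine MvPolynomial.algHom_ext fun k => ?_
    fin_cases k
    · show tr (0 : Pt p) (X 0) = X 0
      rw [JetA_X0, Prod.fst_zero, C_0, add_zero]
    · show tr (0 : Pt p) (X 1) = X 1
      rw [JetA_X1, Prod.snd_zero, C_0, add_zero]
  rw [h]
  rfl

theorem jt_add (F G : S p) (z : Pt p) (i j : ℕ) : jt (F + G) z i j = jt F z i j + jt G z i j := by
  unfold jt
  rw [map_add, coeff_add]

theorem jt_sum {ι : Type*} (s : Finset ι) (F : ι → S p) (z : Pt p) (i j : ℕ) :
    jt (∑ k ∈ s, F k) z i j = ∑ k ∈ s, jt (F k) z i j := by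
  unfold jt
  rw [map_sum, coeff_sum]

theorem jt_zero (F : S p) (z : Pt p) : jt F z 0 0 = ev z F := by
  have h : (constantCoeff : S p →+* ZMod p).comp (tr z : S p →+* S p) = eval ![z.1, z.2] := by
    refine MvPolynomial.ringHom_ext (fun r => ?_) (fun k => ?_)
    · simp [tr]
    · fin_cases k <;> simp [tr]
  have h2 := RingHom.congr_fun h F
  have h3 : ee 0 0 = 0 := by simp [ee]
  unfold jt ev
  rw [h3, ← h2]
  rfl

theorem jt_mul (F G : S p) (z : Pt p) (i j : ℕ) : jt (F * G) z i j =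
    ∑ i' ∈ range (i + 1), ∑ j' ∈ range (j + 1), jt F z i' j' * jt G z (i - i') (j - j') := by
  classical
  unfold jt
  rw [map_mul, coeff_mul, ← Finset.sum_product']
  refine Finset.sum_nbij' (fun m => (m.1 0, m.1 1)) (fun q => (ee q.1 q.2, ee (i - q.1) (j - q.2)))
    ?_ ?_ ?_ ?_ ?_
  · intro m hm
    rw [Finset.HasAntidiagonal.mem_antidiagonal] at hm
    have h0 : m.1 0 + m.2 0 = i := by
      rw [← Finsupp.add_apply, hm, JetA_ee0]
    have h1 : m.1 1 + m.2 1 = j := by
      rw [← Finsupp.add_apply, hm, JetA_ee1]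
    rw [Finset.mem_product, Finset.mem_range, Finset.mem_range]
    constructor
    · show m.1 0 < i + 1
      omega
    · show m.1 1 < j + 1
      omega
  · intro q hq
    rw [Finset.mem_product, Finset.mem_range, Finset.mem_range] at hq
    rw [Finset.HasAntidiagonal.mem_antidiagonal]
    ext k
    fin_cases k
    · show ee q.1 q.2 0 + ee (i - q.1) (j - q.2) 0 = ee i j 0
      rw [JetA_ee0, JetA_ee0, JetA_ee0]
      omega
    · show ee q.1 q.2 1 + ee (i - q.1) (j - q.2) 1 = ee i j 1
      rw [JetA_ee1, JetA_ee1, JetA_ee1]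
      omega
  · intro m hm
    rw [Finset.HasAntidiagonal.mem_antidiagonal] at hm
    have h0 : m.1 0 + m.2 0 = i := by
      rw [← Finsupp.add_apply, hm, JetA_ee0]
    have h1 : m.1 1 + m.2 1 = j := by
      rw [← Finsupp.add_apply, hm, JetA_ee1]
    have e0 : i - m.1 0 = m.2 0 := by omega
    have e1 : j - m.1 1 = m.2 1 := by omega
    show (ee (m.1 0) (m.1 1), ee (i - m.1 0) (j - m.1 1)) = m
    rw [e0, e1, JetA_eta, JetA_eta]
  · intro q hq
    show (ee q.1 q.2 0, ee q.1 q.2 1) = q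
    rw [JetA_ee0, JetA_ee1]
  · intro m hm
    rw [Finset.HasAntidiagonal.mem_antidiagonal] at hm
    have h0 : m.1 0 + m.2 0 = i := by
      rw [← Finsupp.add_apply, hm, JetA_ee0]
    have h1 : m.1 1 + m.2 1 = j := by
      rw [← Finsupp.add_apply, hm, JetA_ee1]
    have e0 : i - m.1 0 = m.2 0 := by omega
    have e1 : j - m.1 1 = m.2 1 := by omega
    show coeff m.1 (tr z F) * coeff m.2 (tr z G) =
      coeff (ee (m.1 0) (m.1 1)) (tr z F) * coeff (ee (i - m.1 0) (j - m.1 1)) (tr z G)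
    rw [e0, e1, JetA_eta, JetA_eta]

private theorem JetA_wv (F : S p) (z : Pt p) (m m' : ℕ) :
    tr z (F * (ww ^ m * vv ^ m')) =
      (tr z F * ((X 0 ^ (p - 1) - 1) ^ m * (X 1 ^ (p - 1) - 1) ^ m')) * monomial (ee m m') 1 := by
  have hp : p - 1 + 1 = p := Nat.succ_pred_eq_of_pos (Fact.out : p.Prime).pos
  have hw : (ww : S p) = X 0 * (X 0 ^ (p - 1) - 1) := by
    unfold ww
    rw [mul_sub, mul_one, ← pow_succ', hp]
  have hv : (vv : S p) = X 1 * (X 1 ^ (p - 1) - 1) := by
    unfold vv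
    rw [mul_sub, mul_one, ← pow_succ', hp]
  have hm : (monomial (ee m m') 1 : S p) = X 0 ^ m * X 1 ^ m' := by
    unfold ee
    rw [X_pow_eq_monomial, X_pow_eq_monomial, monomial_mul, one_mul]
  rw [map_mul, map_mul, map_pow, map_pow, tr_ww, tr_vv, hw, hv, hm, mul_pow, mul_pow]
  ring

theorem jt_wv_zero (F : S p) (z : Pt p) (m m' i j : ℕ) (h : i < m ∨ j < m') :
    jt (F * (ww ^ m * vv ^ m')) z i j = 0 := by
  unfold jt
  rw [JetA_wv, coeff_mul_monomial', if_neg]
  intro hle
  have h0 := hle 0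
  have h1 := hle 1
  rw [JetA_ee0, JetA_ee0] at h0
  rw [JetA_ee1, JetA_ee1] at h1
  omega

theorem jt_wv_self (F : S p) (z : Pt p) (m m' : ℕ) :
    jt (F * (ww ^ m * vv ^ m')) z m m' = (-1) ^ (m + m') * ev z F := by
  have hp : p - 1 ≠ 0 := by
    have := (Fact.out : p.Prime).two_le
    omega
  have h0 := jt_zero F z
  have h3 : ee 0 0 = 0 := by simp [ee]
  unfold jt at h0 ⊢
  rw [JetA_wv, coeff_mul_monomial', if_pos le_rfl, tsub_self, mul_one]
  rw [h3] at h0
  rw [← h0]
  have h4 : ∀ G : S p, coeff 0 G = constantCoeff G := fun G => rfl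
  rw [h4, h4, map_mul, map_mul, map_pow, map_pow, map_sub, map_sub, map_pow, map_pow,
    constantCoeff_X, constantCoeff_X, map_one, zero_pow hp, zero_sub, pow_add]
  ring

theorem OG_mul {F G : S p} {z : Pt p} {k l : ℕ} (hF : OG F z k) (hG : OG G z l) :
    OG (F * G) z (k + l) := by
  intro i j hij
  rw [jt_mul]
  refine Finset.sum_eq_zero fun i' hi' => Finset.sum_eq_zero fun j' hj' => ?_
  rw [Finset.mem_range] at hi' hj'
  by_cases h : i' + j' < k
  · rw [hF i' j' h, zero_mul]
  · rw [hG (i - i') (j - j') (by omega), mul_zero]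

theorem OG_RR (A I : Finset (ZMod p)) (z : Pt p) : OG (RR A I) z (NN A I z) := by
  classical
  induction A using Finset.induction_on with
  | empty =>
    intro i j hij
    simp [NN] at hij
  | insert a A ha ih =>
    have h1 : RR (insert a A) I = (∏ i ∈ I, ln a i) * RR A I := by
      unfold RR
      rw [Finset.prod_insert ha]
    have h2 : NN (insert a A) I z = (if z.1 + a * z.2 ∈ I then 1 else 0) + NN A I z := by
      unfold NN
      rw [Finset.filter_insert]
      by_cases h : z.1 + a * z.2 ∈ I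
      · rw [if_pos h, if_pos h, Finset.card_insert_of_notMem, add_comm]
        intro hm
        exact ha (Finset.mem_filter.1 hm).1
      · rw [if_neg h, if_neg h, zero_add]
    rw [h1, h2]
    refine OG_mul ?_ ih
    by_cases h : z.1 + a * z.2 ∈ I
    · rw [if_pos h]
      intro i j hij
      have hi : i = 0 := by omega
      have hj : j = 0 := by omega
      rw [hi, hj, jt_zero]
      unfold ev
      rw [map_prod]
      refine Finset.prod_eq_zero h ?_
      simp [ln]
    · rw [if_neg h]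
      intro i j hij
      omega

end DilW
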