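import Pool.Agent.Lib.DilW.ARow
import Pool.Agent.Lib.DilW.DegC
import Pool.Agent.Lib.DilW.Win
import Pool.Agent.Lib.DilW.Compl
import Pool.Agent.Lib.DilW.RankOne

/-!
# DilW.LemB1: second zero estimate, all `s + 1` rows independent

PROOF. `M = det (rowM s (s+1) ρ c) ≠ 0`, `ρ = shf s ξ`, by `compl_unit` (`r = s + 1`; all rows are rows of `ρ`).
`DB ((s+1) g) M` (`DB_det`, `DB_shf`). For `a ∈ A`, `i ∈ Wd (s+1) I`: all rows are modulo `ln a i` multiples of
`C ((-a)^β)` (`shf_rank`), so `ln a i ^ s ∣ M` (`rankOne` with `J = univ`). `degC M` with `T = A ×ˢ Wd (s+1) I`,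
`k = s`: `s n W ≤ (s+1) g`. `win`: `m ≤ W + s b`.
-/

set_option autoImplicit false

open Finset MvPolynomial

namespace DilW

variable {p : ℕ} [Fact p.Prime]

theorem lemB1 (A I : Finset (ZMod p)) {s : ℕ} (g : ℤ) (ξ : ℕ → S p)
    (hξ : ∀ β ≤ s, DB g (ξ β))
    (hl : ∀ a ∈ A, ∀ i ∈ I, ∀ β < s, ln a i ∣ ξ (β + 1) + C a * ξ β)
    (hind : LinearIndependent (S p) (fun j : Fin (s + 1) => shf s ξ j)) :
    (s : ℤ) * ((A.card * I.card : ℕ) : ℤ) ≤ (s + 1) * g + (s : ℤ) ^ 2 * A.card * bb I := by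
  obtain ⟨k, hk⟩ := compl_unit (s := s) (r := s + 1) le_rfl (shf s ξ) hind
  have hrow : ∀ j β, rowM s (s + 1) (shf s ξ) (fun j => Pi.single (k j) 1) j β = shf s ξ j β := by
    intro j β
    rw [rowM, Matrix.of_apply, if_pos j.isLt]
  have hdeg := DB_det (rowM s (s + 1) (shf s ξ) (fun j => Pi.single (k j) 1)) (fun _ => g)
    (fun j β => by rw [hrow]; exact DB_shf hξ j β)
  have hdvd : ∀ t ∈ A ×ˢ Wd (s + 1) I, ln t.1 t.2 ^ s ∣
      (rowM s (s + 1) (shf s ξ) (fun j => Pi.single (k j) 1)).det := by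
    intro t ht
    obtain ⟨ha, hi⟩ := mem_product.1 ht
    have h1 := rankOne (rowM s (s + 1) (shf s ξ) (fun j => Pi.single (k j) 1)) univ (ln t.1 t.2)
      (fun β => C ((-t.1) ^ (β : ℕ))) (fun j => shf s ξ j 0) (fun j _ β => by
        rw [hrow]
        exact shf_rank hl ha hi j.isLt β)
    rwa [card_univ, Fintype.card_fin, Nat.add_sub_cancel] at h1
  have h2 := degC _ hk hdeg (A ×ˢ Wd (s + 1) I) (fun _ => s) hdvd
  have h3 := win (s + 1) (by omega) I
  rw [sum_const, sum_const, card_product, card_univ, Fintype.card_fin, smul_eq_mul,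
    nsmul_eq_mul] at h2
  rw [Nat.add_sub_cancel] at h3
  have h4 : (I.card : ℤ) ≤ (Wd (s + 1) I).card + s * bb I := by exact_mod_cast h3
  push_cast at h2 ⊢
  have h5 : (0 : ℤ) ≤ s * A.card := by positivity
  nlinarith [mul_le_mul_of_nonneg_left h4 h5]

end DilW
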