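import Pool.Agent.Lib.DilW.DegB
import Pool.Agent.Lib.DilW.JetA

/-!
# DilW.MLin: the lines are primes

* `ln_dvd_iff`: `sub a i := aeval ![C i - C a * X 1, X 1]`. `sub a i (ln a i) = 0`; conversely
  `F - sub a i F` is divisible by `ln a i` for every `F` (`MvPolynomial.induction_on`: for `C` it is 0; additive;
  `F * X k - sub F * sub (X k) = (F - sub F) X k + sub F (X k - sub (X k))`, `X 0 - sub (X 0) = ln a i`,
  `X 1 - sub (X 1) = 0`).
* `ln_prime`: `ln a i ≠ 0` (coefficient of `X 0`), not a unit (`sub a i` maps it to 0, a unit would go to a unit),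
  and `sub a i (F * G) = sub F * sub G = 0` in the domain `S p`.
* `ln_not_dvd_vv`: `sub a i vv = vv ≠ 0` (`vv_ne_zero`).
* `ww_add_eq`: put `T = X 0 + C a * X 1`: `∏ i, (T - C i) = T^p - T` (from the identity
  `∏ i, (X - C i) = X^p - X` in `(ZMod p)[X]`, `FiniteField.X_pow_card_sub_X..` /
  `Polynomial.prod_univ_X_sub_C`-like, applied at `T` with `Polynomial.aeval`), and
  `T^p = X 0^p + C a * X 1^p` (`add_pow_char`, `mul_pow`, `ZMod.pow_card`).
* `ln_dvd_ln`: `ln a i ∣ ln a' i'`: `sub a i (ln a' i') = C (i - i') + C (a' - a) * X 1 = 0` iff both are 0.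
* `ln_dvd_cancel`: prime, `ln_not_dvd_vv`, `Prime.dvd_of_dvd_pow`.
* `ww_dvd_cancel`: `ww = ∏ i, ln 0 i` (`ww_add_eq 0`); by induction on a finite set `T` of values `i`: if
  `∏_{i ∈ T} ln 0 i ∣ vv^k * G` then `∏_{i ∈ T} ln 0 i ∣ G` : or `IsRelPrime`: `ww` and `vv^k` are relatively prime,
  as no prime factor `ln 0 i` of `ww` divides `vv`.
* `tr10_ln`: `tr_ln`.
-/

set_option autoImplicit false

open Finset MvPolynomial

namespace DilW

variable {p : ℕ} [Fact p.Prime]

/-- the substitution `x ↦ i - a y` -/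
noncomputable def sub (a i : ZMod p) : S p →ₐ[ZMod p] S p := aeval ![C i - C a * X 1, X 1]

private theorem MLin_X0 (a i : ZMod p) : sub a i (X 0 : S p) = C i - C a * X 1 := by
  simp [sub]

private theorem MLin_X1 (a i : ZMod p) : sub a i (X 1 : S p) = X 1 := by
  simp [sub]

private theorem MLin_C (a i r : ZMod p) : sub a i (C r : S p) = C r := by
  simp [sub]

private theorem MLin_ln (a i : ZMod p) : sub a i (ln a i) = 0 := by
  unfold ln
  rw [map_sub, map_add, map_mul, MLin_X0, MLin_X1, MLin_C, MLin_C]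
  ring

private theorem MLin_dvd_sub (a i : ZMod p) (F : S p) : ln a i ∣ F - sub a i F := by
  induction F using MvPolynomial.induction_on with
  | C r =>
    rw [MLin_C, sub_self]
    exact dvd_zero _
  | add F G hF hG =>
    rw [map_add]
    have h : F + G - (sub a i F + sub a i G) = (F - sub a i F) + (G - sub a i G) := by ring
    rw [h]
    exact dvd_add hF hG
  | mul_X F k hF =>
    rw [map_mul]
    have h : F * X k - sub a i F * sub a i (X k) =
        (F - sub a i F) * X k + sub a i F * (X k - sub a i (X k)) := by ring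
    rw [h]
    refine dvd_add (dvd_mul_of_dvd_left hF _) (dvd_mul_of_dvd_right ?_ _)
    fin_cases k
    · show ln a i ∣ X 0 - sub a i (X 0)
      rw [MLin_X0]
      refine ⟨1, ?_⟩
      unfold ln
      ring
    · show ln a i ∣ X 1 - sub a i (X 1)
      rw [MLin_X1, sub_self]
      exact dvd_zero _

theorem ln_dvd_iff (a i : ZMod p) (F : S p) : ln a i ∣ F ↔ sub a i F = 0 := by
  constructor
  · rintro ⟨G, rfl⟩
    rw [map_mul, MLin_ln, zero_mul]
  · intro h
    have h1 := MLin_dvd_sub a i F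
    rwa [h, sub_zero] at h1

theorem ln_ne_zero (a i : ZMod p) : (ln a i : S p) ≠ 0 := by
  intro h
  have h1 := totalDegree_ln a i
  rw [h, totalDegree_zero] at h1
  exact absurd h1 (by norm_num)

theorem ln_prime (a i : ZMod p) : Prime (ln a i : S p) := by
  refine ⟨ln_ne_zero a i, fun h => ?_, fun F G h => ?_⟩
  · have h1 := h.map (sub a i)
    rw [MLin_ln] at h1
    exact not_isUnit_zero h1
  · rw [ln_dvd_iff, map_mul, mul_eq_zero] at h
    rcases h with h | h
    · exact Or.inl ((ln_dvd_iff a i F).2 h)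
    · exact Or.inr ((ln_dvd_iff a i G).2 h)

theorem ln_not_dvd_vv (a i : ZMod p) : ¬ (ln a i : S p) ∣ vv := by
  rw [ln_dvd_iff]
  have h : sub a i (vv : S p) = vv := by
    unfold vv
    rw [map_sub, map_pow, MLin_X1]
  rw [h]
  exact vv_ne_zero

private theorem MLin_prod (T : S p) : ∏ i : ZMod p, (T - C i) = T ^ p - T := by
  have hp : 1 < p := (Fact.out : p.Prime).one_lt
  have h1 : (Polynomial.X ^ p - Polynomial.X : Polynomial (ZMod p)).roots =
      (Finset.univ : Finset (ZMod p)).val := by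
    have := FiniteField.roots_X_pow_card_sub_X (ZMod p)
    rwa [ZMod.card] at this
  have hdeg : (Polynomial.X ^ p - Polynomial.X : Polynomial (ZMod p)).natDegree = p :=
    FiniteField.X_pow_card_sub_X_natDegree_eq (ZMod p) hp
  have hm : (Polynomial.X ^ p - Polynomial.X : Polynomial (ZMod p)).Monic := by
    refine Polynomial.monic_X_pow_sub ?_
    rw [Polynomial.degree_X]
    exact_mod_cast hp
  have h2 := Polynomial.prod_multiset_X_sub_C_of_monic_of_roots_card_eq hm (by
    rw [h1, hdeg]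
    show (Finset.univ : Finset (ZMod p)).card = p
    rw [Finset.card_univ, ZMod.card])
  rw [h1] at h2
  have h3 : ∏ i : ZMod p, (Polynomial.X - Polynomial.C i) =
      (Polynomial.X ^ p - Polynomial.X : Polynomial (ZMod p)) := h2
  have h4 := congrArg (Polynomial.aeval T) h3
  rw [map_prod, map_sub, map_pow, Polynomial.aeval_X] at h4
  rw [← h4]
  refine Finset.prod_congr rfl fun i _ => ?_
  rw [map_sub, Polynomial.aeval_X, Polynomial.aeval_C]
  rfl

theorem ww_add_eq (a : ZMod p) : (ww + C a * vv : S p) = ∏ i : ZMod p, ln a i := by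
  have h := MLin_prod (X 0 + C a * X 1 : S p)
  have h1 : ∏ i : ZMod p, (ln a i : S p) = ∏ i : ZMod p, (X 0 + C a * X 1 - C i : S p) := rfl
  rw [h1, h, add_pow_char, mul_pow, ← C_pow, ZMod.pow_card]
  unfold ww vv
  ring

theorem ln_dvd_ww_add (a i : ZMod p) : (ln a i : S p) ∣ ww + C a * vv := by
  rw [ww_add_eq]
  exact Finset.dvd_prod_of_mem _ (Finset.mem_univ i)

theorem ln_dvd_ln {a i a' i' : ZMod p} : (ln a i : S p) ∣ ln a' i' ↔ a = a' ∧ i = i' := by
  constructor
  · intro h
    rw [ln_dvd_iff] at h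
    unfold ln at h
    rw [map_sub, map_add, map_mul, MLin_X0, MLin_X1, MLin_C, MLin_C] at h
    have h0 := congrArg (eval (![0, 0] : Fin 2 → ZMod p)) h
    have h1 := congrArg (eval (![0, 1] : Fin 2 → ZMod p)) h
    simp only [map_sub, map_add, map_mul, eval_X, eval_C, map_zero, Matrix.cons_val_one,
      Matrix.cons_val_fin_one, mul_zero, mul_one, sub_zero, add_zero] at h0 h1
    have hi : i = i' := sub_eq_zero.1 h0
    refine ⟨?_, hi⟩
    rw [hi] at h1
    have h2 : a' - a = 0 := by
      rw [← h1]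
      ring
    exact (sub_eq_zero.1 h2).symm
  · rintro ⟨rfl, rfl⟩
    exact dvd_rfl

theorem ln_dvd_cancel (a i : ZMod p) (k : ℕ) (G : S p) (h : ln a i ∣ vv ^ k * G) : ln a i ∣ G := by
  rcases (ln_prime a i).dvd_or_dvd h with h1 | h1
  · exact absurd ((ln_prime a i).dvd_of_dvd_pow h1) (ln_not_dvd_vv a i)
  · exact h1

theorem ww_dvd_cancel (k : ℕ) (G : S p) (h : ww ∣ vv ^ k * G) : ww ∣ G := by
  have h1 : (ww : S p) = ∏ i : ZMod p, ln 0 i := by
    rw [← ww_add_eq, C_0, zero_mul, add_zero]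
  refine IsRelPrime.dvd_of_dvd_mul_left ?_ h
  rw [h1]
  refine IsRelPrime.prod_left fun i _ => ?_
  rw [(ln_prime 0 i).irreducible.isRelPrime_iff_not_dvd]
  exact fun h2 => ln_not_dvd_vv 0 i ((ln_prime 0 i).dvd_of_dvd_pow h2)

theorem tr10_ln (a i : ZMod p) : tr (1, 0) (ln a i) = ln a (i - 1) := by
  rw [tr_ln, mul_zero, sub_zero]

end DilW
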